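import Pool.Agent.L7h27.AP.Few
import Pool.Agent.Y882.PX.MainX

/-! The linear sieve for the values of a polynomial in residue classes: few exceptions. -/

set_option autoImplicit false

namespace Pool.Agent.L7h27.AP

open Finset Polynomial Filter
open Pool.Agent.W23.DC
open Pool.Agent.Y882
open Pool.Agent.Y882.PX
open Pool.Agent.Y882.SI
open Pool.Agent.Y882.JR

/-- the members of a residue class in an interval -/
def SC (N M Q a : ℕ) : Finset ℕ := (Ioc N (N + M)).filter (fun n => n % Q = a)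

/-- the primes outside `Q` -/
noncomputable def PQ (Y : ℕ) (ζ : ℝ) (Q : ℕ) : Finset ℕ := (PZ Y ζ).filter (fun p => ¬ p ∣ Q)

/-- the sieve density outside `Q` -/
noncomputable def vq (G : ℤ[X]) (Y : ℕ) (ζ : ℝ) (Q : ℕ) : ℝ := ∏ p ∈ PQ Y ζ Q, (1 - (ro G 0 p : ℝ) / p)

open Classical in
/-- the number of the `n ≡ a` modulo `Q` in `(N, N + M]` whose value is rough outside `Q` -/
noncomputable def rgq (G : ℤ[X]) (Y : ℕ) (ζ : ℝ) (N M Q a : ℕ) : ℝ :=
  ((SC N M Q a).filter (fun n : ℕ => ∀ p ∈ PQ Y ζ Q, ¬ p ∣ (G.eval (n : ℤ)).natAbs)).card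

theorem VV_drop (P : Finset ℕ) (Q : ℕ) (c : Finset ℕ → ℝ) (h : ℕ → ℝ)
    (h0 : ∀ p ∈ P, p ∣ Q → h p = 0) : VV P c h = VV (P.filter (fun p => ¬ p ∣ Q)) c h := by
  classical
  unfold VV
  symm
  apply sum_subset
  · exact powerset_mono.2 (filter_subset _ _)
  · intro T hT hT'
    rw [mem_powerset] at hT hT'
    have h1 : ∃ p ∈ T, p ∣ Q := by
      by_contra hc
      push Not at hc
      exact hT' fun p hp => mem_filter.2 ⟨hT hp, hc p hp⟩
    obtain ⟨p, hp, hd⟩ := h1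
    rw [prod_eq_zero hp (h0 p (hT hp) hd), mul_zero]

theorem VV_congr (P : Finset ℕ) (c : Finset ℕ → ℝ) (h h' : ℕ → ℝ) (h0 : ∀ p ∈ P, h p = h' p) :
    VV P c h = VV P c h' := by
  unfold VV
  apply sum_congr rfl
  intro T hT
  rw [mem_powerset] at hT
  congr 1
  exact prod_congr rfl fun p hp => h0 p (hT hp)

/-- the part of the value composed of the relevant primes -/
noncomputable def Nq (G : ℤ[X]) (P : Finset ℕ) (n : ℕ) : ℕ :=
  ∏ p ∈ P.filter (fun p => p ∣ (G.eval (n : ℤ)).natAbs), p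

theorem Nq_dvd (G : ℤ[X]) (P : Finset ℕ) (hP : ∀ p ∈ P, p.Prime) (n q : ℕ) (hq : q.Prime) :
    q ∣ Nq G P n ↔ q ∈ P ∧ q ∣ (G.eval (n : ℤ)).natAbs := by
  unfold Nq
  rw [hq.prime.dvd_finsetProd_iff]
  constructor
  · rintro ⟨p, hp, hd⟩
    rw [mem_filter] at hp
    have : q = p := (Nat.prime_dvd_prime_iff_eq hq (hP p hp.1)).1 hd
    rw [this]
    exact hp
  · intro h
    exact ⟨q, mem_filter.2 h, dvd_rfl⟩

open Classical in
/-- the sums of weights -/
theorem wsumC (G : ℤ[X]) (P : Finset ℕ) (hP : ∀ p ∈ P, p.Prime) (c : Finset ℕ → ℝ) (Q : ℕ)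
    (S : Finset ℕ) (hS : ∀ n ∈ S, 1 ≤ n) :
    ∑ n ∈ S, VV P c (fun p => if p ∣ Nq G (P.filter (fun p => ¬ p ∣ Q)) n then 1 else 0) =
      S.card * VV P c (fun p => if p ∣ Q then 0 else (ro G 0 p : ℝ) / p) +
        ∑ n ∈ S, EW G (P.filter (fun p => ¬ p ∣ Q)) c n := by
  set P' := P.filter (fun p => ¬ p ∣ Q) with hP'
  have hP'p : ∀ p ∈ P', p.Prime := fun p hp => hP p (mem_filter.1 hp).1
  have e1 : VV P c (fun p => if p ∣ Q then 0 else (ro G 0 p : ℝ) / p) =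
      VV P' c (fun p => (ro G 0 p : ℝ) / p) := by
    rw [VV_drop P Q c _ (fun p _ hd => if_pos hd)]
    apply VV_congr
    intro p hp
    rw [if_neg (mem_filter.1 hp).2]
  rw [e1]
  have e2 : ∀ n ∈ S, VV P c (fun p => if p ∣ Nq G P' n then 1 else 0) =
      VV P' c (fun p => (ro G 0 p : ℝ) / p) + EW G P' c n := by
    intro n hn
    have hn1 := hS n hn
    rw [VV_drop P Q c _ (fun p hp hd => if_neg (fun h => by
      have := (Nq_dvd G P' hP'p n p (hP p hp)).1 h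
      exact (mem_filter.1 this.1).2 hd))]
    rw [← hP']
    unfold VV EW
    rw [← sum_add_distrib]
    apply sum_congr rfl
    intro T hT
    rw [mem_powerset] at hT
    have hTp : ∀ p ∈ T, p.Prime := fun p hp => hP'p p (hT hp)
    have e3 : ∏ p ∈ T, (if p ∣ Nq G P' n then (1 : ℝ) else 0) =
        if (∏ p ∈ T, p) ∣ (G.eval (n : ℤ)).natAbs then 1 else 0 := by
      rw [← prod_ind T hTp]
      apply prod_congr rfl
      intro p hp
      have := Nq_dvd G P' hP'p n p (hTp p hp)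
      by_cases h : p ∣ (G.eval (n : ℤ)).natAbs
      · rw [if_pos h, if_pos (this.2 ⟨hT hp, h⟩)]
      · rw [if_neg h, if_neg (fun h2 => h (this.1 h2).2)]
    rw [e3]
    have e4 : (ci G (∏ p ∈ T, p) 1 (n - 1) : ℝ) =
        if (∏ p ∈ T, p) ∣ (G.eval (n : ℤ)).natAbs then 1 else 0 := by
      unfold ci
      have h1 : Icc 1 1 = ({1} : Finset ℕ) := by simp
      rw [h1, filter_singleton]
      have h2 : ((n - 1 + 1 : ℕ) : ℤ) = (n : ℤ) := by
        have : n - 1 + 1 = n := by omega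
        rw [this]
      rw [h2]
      by_cases h : (∏ p ∈ T, p) ∣ (G.eval (n : ℤ)).natAbs
      · rw [if_pos h, if_pos (Int.natCast_dvd.2 h)]
        simp
      · rw [if_neg h, if_neg (fun h3 => h (Int.natCast_dvd.1 h3))]
        simp
    unfold ri
    rw [e4, ro_prod G 0 T hTp]
    push_cast
    rw [prod_div_distrib]
    ring
  rw [sum_congr rfl e2, sum_add_distrib, sum_const, nsmul_eq_mul]

open Classical in
/-- **The linear sieve in residue classes.** -/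
theorem engC (K : ℕ) (A0 : ℝ) (F f : ℝ → ℝ) (hSF : SF A0 F f) (τ ζ δ ε : ℝ) (hζ : 0 < ζ)
    (h1 : ζ ≤ τ) (hτ : τ < 1) (hδ : 0 < δ) (hε : 0 < ε) :
    ∃ ε₁ η : ℝ, 0 < ε₁ ∧ ε₁ ≤ ζ ∧ 0 < η ∧ ∃ Y0 : ℕ, ∀ Y : ℕ, Y0 ≤ Y →
      ∀ (G : ℤ[X]) (N M Q : ℕ), (∀ p : ℕ, p.Prime → ro G 0 p ≤ K) → 0 < M → 0 < Q → Q ≤ Y →
        (Y : ℝ) ^ (-(ε / 32)) ≤ vq G Y ζ Q →
        Mer (pr Y ε₁ ζ) (tt Y) (fun p => if p ∣ Q then 0 else (ro G 0 p : ℝ) / p) ε₁ ζ η →
        (((range Q).filter (fun a =>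
          ¬ ((f (τ / ζ) - δ) * ((M : ℝ) / Q * vq G Y ζ Q) ≤ rgq G Y ζ N M Q a ∧
          rgq G Y ζ N M Q a ≤ (F (τ / ζ) + δ) * ((M : ℝ) / Q * vq G Y ζ Q)))).card : ℝ) ≤
          (M + (Y : ℝ) ^ (2 * τ)) * ((Q : ℝ) / M) ^ 2 * (Y : ℝ) ^ ε := by
  obtain ⟨s, hs0, hs1, hs2⟩ : ∃ s : ℝ, 0 < s ∧ s ≤ ε / 8 ∧ s ≤ 1 - τ :=
    ⟨min (ε / 8) (1 - τ), lt_min (by linarith) (by linarith), min_le_left _ _, min_le_right _ _⟩
  set τ' : ℝ := τ + s with hτ'
  have hττ' : τ < τ' := by linarith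
  obtain ⟨ε₁, η, hε₁, hε₁ζ, hη, Y1, HC⟩ :=
    core5 K A0 F f hSF τ ζ τ' (δ / 4) hζ h1 hτ.le hττ' (by linarith)
  obtain ⟨Y2, HE⟩ := few_cls K τ' ε (by linarith) (by linarith) hε
  have hs1' : 1 ≤ τ / ζ := by rw [le_div_iff₀ hζ]; linarith
  set Fs : ℝ := F (τ / ζ) with hFs
  set fs : ℝ := f (τ / ζ) with hfs
  have hFs1 : 1 ≤ Fs := hSF.F1 _ hs1'
  set Ct : ℝ := 4 * (Fs + |fs| + δ) / δ with hCt
  have hfs0 : 0 ≤ |fs| := abs_nonneg _
  have hCt0 : 0 < Ct := by positivity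
  have ev1 : ∀ᶠ Y : ℕ in atTop, 5 * Real.log Y ≤ (Y : ℝ) ^ (ε / 64) := by
    have h1 := (isLittleO_log_rpow_atTop (show 0 < ε / 64 by linarith)).bound
      (show (0 : ℝ) < 1 / 5 by norm_num)
    filter_upwards [tendsto_natCast_atTop_atTop.eventually h1, eventually_ge_atTop 1] with Y hY hY1
    have hY1r : (1 : ℝ) ≤ Y := by exact_mod_cast hY1
    rw [Real.norm_of_nonneg (Real.log_nonneg hY1r), Real.norm_of_nonneg (by positivity)] at hY
    linarith
  have ev2 : ∀ᶠ Y : ℕ in atTop, 4 / δ ≤ (Y : ℝ) ^ (ε / 32) :=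
    ((tendsto_rpow_atTop (by linarith)).comp tendsto_natCast_atTop_atTop).eventually_ge_atTop _
  have ev3 : ∀ᶠ Y : ℕ in atTop, 2 ≤ (Y : ℝ) ^ (ε / 4) :=
    ((tendsto_rpow_atTop (by linarith)).comp tendsto_natCast_atTop_atTop).eventually_ge_atTop _
  have ev4 : ∀ᶠ Y : ℕ in atTop, Ct ≤ (Y : ℝ) ^ ε :=
    ((tendsto_rpow_atTop (by linarith)).comp tendsto_natCast_atTop_atTop).eventually_ge_atTop _
  obtain ⟨Y3, hY3⟩ := eventually_atTop.1 (ev1.and (ev2.and (ev3.and (ev4.and (eventually_ge_atTop 3)))))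
  refine ⟨ε₁, η, hε₁, hε₁ζ, hη, max Y1 (max Y2 Y3), ?_⟩
  intro Y hY G N M Q hK hM hQ hQY hV hmer
  have hYY1 : Y1 ≤ Y := (le_max_left _ _).trans hY
  have hYY2 : Y2 ≤ Y := ((le_max_left _ _).trans (le_max_right _ _)).trans hY
  obtain ⟨e1, e2, e2', e4, e3⟩ := hY3 Y (((le_max_right _ _).trans (le_max_right _ _)).trans hY)
  have hYr : (3 : ℝ) ≤ Y := by exact_mod_cast e3
  have hY0 : (0 : ℝ) < Y := by linarith
  have hY1r : (1 : ℝ) ≤ Y := by linarith
  have hM0 : (0 : ℝ) < M := by exact_mod_cast hM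
  have hQ0 : (0 : ℝ) < Q := by exact_mod_cast hQ
  rcases lt_or_ge ((M : ℝ) / Q) Ct with hsm | hlg
  · -- the trivial case
    have h2 : (((range Q).filter (fun a =>
          ¬ ((f (τ / ζ) - δ) * ((M : ℝ) / Q * vq G Y ζ Q) ≤ rgq G Y ζ N M Q a ∧
          rgq G Y ζ N M Q a ≤ (F (τ / ζ) + δ) * ((M : ℝ) / Q * vq G Y ζ Q)))).card : ℝ) ≤ Q := by
      have := card_filter_le (range Q) (fun a =>
          ¬ ((f (τ / ζ) - δ) * ((M : ℝ) / Q * vq G Y ζ Q) ≤ rgq G Y ζ N M Q a ∧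
          rgq G Y ζ N M Q a ≤ (F (τ / ζ) + δ) * ((M : ℝ) / Q * vq G Y ζ Q)))
      rw [card_range] at this
      exact_mod_cast this
    refine h2.trans ?_
    have h3 : (Q : ℝ) = (M * ((Q : ℝ) / M) ^ 2) * (M / Q) := by
      field_simp
    calc (Q : ℝ) = (M * ((Q : ℝ) / M) ^ 2) * (M / Q) := h3
      _ ≤ (M * ((Q : ℝ) / M) ^ 2) * (Y : ℝ) ^ ε := by
          apply mul_le_mul_of_nonneg_left _ (by positivity)
          linarith
      _ ≤ _ := by
          apply mul_le_mul_of_nonneg_right _ (by positivity)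
          apply mul_le_mul_of_nonneg_right _ (by positivity)
          have : 0 ≤ (Y : ℝ) ^ (2 * τ) := by positivity
          linarith
  obtain ⟨wU, wL, c1, c2, c3, c4⟩ := HC Y hYY1
  have hPZ : ∀ p ∈ PZ Y ζ, p.Prime := by
    intro p hp
    unfold PZ at hp
    rw [mem_filter] at hp
    exact hp.2.1
  have hPQp : ∀ p ∈ PQ Y ζ Q, p.Prime := fun p hp => hPZ p (mem_filter.1 hp).1
  have hPQd : ∀ p ∈ PQ Y ζ Q, ¬ p ∣ Q := fun p hp => (mem_filter.1 hp).2
  have hsubP : ∀ T ⊆ PQ Y ζ Q, T ⊆ PZ Y ζ := fun T hT => hT.trans (filter_subset _ _)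
  have hA1 := HE Y hYY2 G (PQ Y ζ Q) wU N M Q hPQp hPQd (fun p hp => hK p (hPQp p hp))
    (fun T => (c1 T).1.trans e1) (fun T hT h0 => c2 T (hsubP T hT) (Or.inl h0)) hM hQ hQY
  have hA2 := HE Y hYY2 G (PQ Y ζ Q) wL N M Q hPQp hPQd (fun p hp => hK p (hPQp p hp))
    (fun T => (c1 T).2.trans e1) (fun T hT h0 => c2 T (hsubP T hT) (Or.inr h0)) hM hQ hQY
  set A1 := (range Q).filter (fun a => (M : ℝ) / Q * (Y : ℝ) ^ (-(ε / 16)) <
        |∑ n ∈ (Ioc N (N + M)).filter (fun n => n % Q = a), EW G (PQ Y ζ Q) wU n|) with hA1d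
  set A2 := (range Q).filter (fun a => (M : ℝ) / Q * (Y : ℝ) ^ (-(ε / 16)) <
        |∑ n ∈ (Ioc N (N + M)).filter (fun n => n % Q = a), EW G (PQ Y ζ Q) wL n|) with hA2d
  set g : ℕ → ℝ := fun p => if p ∣ Q then 0 else (ro G 0 p : ℝ) / p with hg
  obtain ⟨m1, m2⟩ := c4 g (fun p _ => by simp only [hg]; split_ifs <;> positivity) (by
    intro p hp
    have hp0 : (0 : ℝ) < p := by exact_mod_cast (hPZ p hp).pos
    have h1 : (ro G 0 p : ℝ) ≤ p := by exact_mod_cast ro_le_self G 0 p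
    simp only [hg]
    split_ifs
    · norm_num
    · rw [div_le_one hp0]
      exact h1) (by
    intro p hp _
    have hp0 : (2 : ℝ) ≤ p := by exact_mod_cast (hPZ p hp).two_le
    have h1 : (ro G 0 p : ℝ) ≤ K := by exact_mod_cast hK p (hPZ p hp)
    simp only [hg]
    split_ifs
    · apply div_nonneg (Nat.cast_nonneg _)
      linarith
    · apply div_le_div₀ (Nat.cast_nonneg _) h1 (by linarith) (by linarith)) hmer
  have hprod : ∏ p ∈ PZ Y ζ, (1 - g p) = vq G Y ζ Q := by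
    unfold vq PQ
    rw [prod_filter]
    apply prod_congr rfl
    intro p _
    simp only [hg]
    by_cases h : p ∣ Q
    · rw [if_pos h, if_neg (not_not.2 h), sub_zero]
    · rw [if_neg h, if_pos h]
  rw [hprod] at m1
  rw [hprod] at m2
  set v : ℝ := vq G Y ζ Q with hv
  have hv0 : 0 < v := lt_of_lt_of_le (by positivity) hV
  have hv1 : v ≤ 1 := by
    rw [hv]
    unfold vq
    apply prod_le_one
    · intro p hp
      have hp0 : (0 : ℝ) < p := by exact_mod_cast (hPQp p hp).pos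
      have h1 : (ro G 0 p : ℝ) ≤ p := by exact_mod_cast ro_le_self G 0 p
      rw [sub_nonneg, div_le_one hp0]
      exact h1
    · intro p hp
      have : 0 ≤ (ro G 0 p : ℝ) / p := by positivity
      linarith
  set H : ℝ := (M : ℝ) / Q with hH
  have hH0 : 0 < H := by positivity
  have herr : H * (Y : ℝ) ^ (-(ε / 16)) ≤ δ / 4 * (H * v) := by
    have h2 : (Y : ℝ) ^ (-(ε / 16)) = (Y : ℝ) ^ (-(ε / 32)) * (Y : ℝ) ^ (-(ε / 32)) := by
      rw [← Real.rpow_add hY0]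
      congr 1
      ring
    have h3 : (Y : ℝ) ^ (-(ε / 32)) ≤ δ / 4 := by
      rw [Real.rpow_neg hY0.le, inv_le_comm₀ (by positivity) (by positivity)]
      rw [inv_div]
      exact e2
    rw [h2]
    calc H * ((Y : ℝ) ^ (-(ε / 32)) * (Y : ℝ) ^ (-(ε / 32))) ≤
        H * (δ / 4 * v) := by
          apply mul_le_mul_of_nonneg_left _ hH0.le
          exact mul_le_mul h3 hV (by positivity) (by positivity)
      _ = _ := by ring
  have hCH : (Fs + |fs| + δ) ≤ δ / 4 * H := by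
    rw [hCt, div_le_iff₀ hδ] at hlg
    linarith
  have hsub : (range Q).filter (fun a => ¬ ((fs - δ) * (H * v) ≤ rgq G Y ζ N M Q a ∧
          rgq G Y ζ N M Q a ≤ (Fs + δ) * (H * v))) ⊆ A1 ∪ A2 := by
    intro a ha
    rw [mem_filter] at ha
    rw [mem_union]
    by_contra hcon
    push Not at hcon
    obtain ⟨hc1, hc2⟩ := hcon
    apply ha.2
    have haQ : a < Q := mem_range.1 ha.1
    have hcard := cls_card N M Q a hQ haQ
    rw [← hH] at hcard
    change |((SC N M Q a).card : ℝ) - H| ≤ 1 at hcard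
    obtain ⟨k1, k2⟩ := abs_le.1 hcard
    have g1 : |∑ n ∈ SC N M Q a, EW G (PQ Y ζ Q) wU n| ≤ H * (Y : ℝ) ^ (-(ε / 16)) := by
      by_contra h'
      exact hc1 (by rw [hA1d, mem_filter]; exact ⟨ha.1, not_le.1 h'⟩)
    have g2 : |∑ n ∈ SC N M Q a, EW G (PQ Y ζ Q) wL n| ≤ H * (Y : ℝ) ^ (-(ε / 16)) := by
      by_contra h'
      exact hc2 (by rw [hA2d, mem_filter]; exact ⟨ha.1, not_le.1 h'⟩)
    have hS1 : ∀ n ∈ SC N M Q a, 1 ≤ n := by
      intro n hn
      unfold SC at hn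
      rw [mem_filter, mem_Ioc] at hn
      omega
    have hiff : ∀ n : ℕ, (∀ p ∈ PZ Y ζ, ¬ p ∣ Nq G (PQ Y ζ Q) n) ↔
        (∀ p ∈ PQ Y ζ Q, ¬ p ∣ (G.eval (n : ℤ)).natAbs) := by
      intro n
      constructor
      · intro h p hp hd
        exact h p (mem_filter.1 hp).1 ((Nq_dvd G (PQ Y ζ Q) hPQp n p (hPQp p hp)).2 ⟨hp, hd⟩)
      · intro h p hp hd
        obtain ⟨h2, h3⟩ := (Nq_dvd G (PQ Y ζ Q) hPQp n p (hPZ p hp)).1 hd
        exact h p h2 h3
    have hr : rgq G Y ζ N M Q a = ∑ n ∈ SC N M Q a,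
        (if ∀ p ∈ PZ Y ζ, ¬ p ∣ Nq G (PQ Y ζ Q) n then (1 : ℝ) else 0) := by
      unfold rgq
      rw [card_filter]
      push_cast
      apply sum_congr rfl
      intro n _
      by_cases h : ∀ p ∈ PQ Y ζ Q, ¬ p ∣ (G.eval (n : ℤ)).natAbs
      · rw [if_pos h, if_pos ((hiff n).2 h)]
      · rw [if_neg h, if_neg (fun h2 => h ((hiff n).1 h2))]
    constructor
    · have g3 : ∑ n ∈ SC N M Q a, VV (PZ Y ζ) wL
          (fun p => if p ∣ Nq G (PQ Y ζ Q) n then 1 else 0) ≤ rgq G Y ζ N M Q a := by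
        rw [hr]
        exact sum_le_sum fun n _ => (c3 _).1
      have g3' := wsumC G (PZ Y ζ) hPZ wL Q (SC N M Q a) hS1
      change ∑ n ∈ SC N M Q a, VV (PZ Y ζ) wL (fun p => if p ∣ Nq G (PQ Y ζ Q) n then 1 else 0) =
        (SC N M Q a).card * VV (PZ Y ζ) wL g + ∑ n ∈ SC N M Q a, EW G (PQ Y ζ Q) wL n at g3'
      rw [g3'] at g3
      have g4 := mul_le_mul_of_nonneg_left m1 (Nat.cast_nonneg (SC N M Q a).card : (0 : ℝ) ≤ _)
      have g5 := neg_le_of_abs_le g2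
      have hfb : fs ≤ |fs| := le_abs_self _
      have hfb' : -|fs| ≤ fs := neg_abs_le _
      have g6 : (fs - δ) * (H * v) ≤ (SC N M Q a).card * ((fs - δ / 4) * v) -
          δ / 4 * (H * v) := by
        have q1 : (fs - δ / 4) * (H * v) - (SC N M Q a).card * ((fs - δ / 4) * v) =
            (fs - δ / 4) * v * (H - (SC N M Q a).card) := by ring
        have q2 : |(fs - δ / 4) * v * (H - (SC N M Q a).card)| ≤ δ / 4 * H * v := by
          rw [abs_mul, abs_mul, abs_of_pos hv0, abs_sub_comm H]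
          have q3 : |fs - δ / 4| ≤ Fs + |fs| + δ := by
            rw [abs_le]
            constructor <;> linarith
          calc |fs - δ / 4| * v * |((SC N M Q a).card : ℝ) - H| ≤ |fs - δ / 4| * v * 1 :=
                mul_le_mul_of_nonneg_left hcard (by positivity)
            _ ≤ (δ / 4 * H) * v := by
                rw [mul_one]
                exact mul_le_mul_of_nonneg_right (q3.trans hCH) hv0.le
            _ = _ := by ring
        have q4 := (abs_le.1 q2).2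
        have q5 : 0 ≤ H * v := by positivity
        have q6 : (fs - δ) * (H * v) = (fs - δ / 4) * (H * v) - 3 * (δ / 4 * (H * v)) := by ring
        rw [q6]
        have q7 : δ / 4 * H * v = δ / 4 * (H * v) := by ring
        rw [q7] at q4
        nlinarith
      linarith
    · have g3 : rgq G Y ζ N M Q a ≤ ∑ n ∈ SC N M Q a, VV (PZ Y ζ) wU
          (fun p => if p ∣ Nq G (PQ Y ζ Q) n then 1 else 0) := by
        rw [hr]
        exact sum_le_sum fun n _ => (c3 _).2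
      have g3' := wsumC G (PZ Y ζ) hPZ wU Q (SC N M Q a) hS1
      change ∑ n ∈ SC N M Q a, VV (PZ Y ζ) wU (fun p => if p ∣ Nq G (PQ Y ζ Q) n then 1 else 0) =
        (SC N M Q a).card * VV (PZ Y ζ) wU g + ∑ n ∈ SC N M Q a, EW G (PQ Y ζ Q) wU n at g3'
      rw [g3'] at g3
      have g4 := mul_le_mul_of_nonneg_left m2 (Nat.cast_nonneg (SC N M Q a).card : (0 : ℝ) ≤ _)
      have g5 := le_of_abs_le g1
      have g6 : (SC N M Q a).card * ((Fs + δ / 4) * v) + δ / 4 * (H * v) ≤ (Fs + δ) * (H * v) := by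
        have q1 : ((SC N M Q a).card : ℝ) * ((Fs + δ / 4) * v) ≤ (H + 1) * ((Fs + δ / 4) * v) := by
          apply mul_le_mul_of_nonneg_right (by linarith)
          positivity
        have q2 : (Fs + δ / 4) * v ≤ δ / 4 * H * v := by
          apply mul_le_mul_of_nonneg_right _ hv0.le
          linarith
        have q5 : 0 ≤ δ * (H * v) := by positivity
        nlinarith
      linarith
  calc (((range Q).filter (fun a => ¬ ((fs - δ) * (H * v) ≤ rgq G Y ζ N M Q a ∧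
          rgq G Y ζ N M Q a ≤ (Fs + δ) * (H * v)))).card : ℝ) ≤
      ((A1 ∪ A2).card : ℝ) := by exact_mod_cast card_le_card hsub
    _ ≤ A1.card + A2.card := by exact_mod_cast card_union_le _ _
    _ ≤ 2 * ((M + (Y : ℝ) ^ (2 * τ')) * ((Q : ℝ) / M) ^ 2 * (Y : ℝ) ^ (ε / 2)) := by linarith
    _ ≤ (Y : ℝ) ^ (ε / 4) * (((M + (Y : ℝ) ^ (2 * τ)) * (Y : ℝ) ^ (ε / 4)) * ((Q : ℝ) / M) ^ 2 *
          (Y : ℝ) ^ (ε / 2)) := by
        apply mul_le_mul e2' _ (by positivity) (by positivity)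
        apply mul_le_mul_of_nonneg_right _ (by positivity)
        apply mul_le_mul_of_nonneg_right _ (by positivity)
        have h1 : (Y : ℝ) ^ (2 * τ') ≤ (Y : ℝ) ^ (2 * τ) * (Y : ℝ) ^ (ε / 4) := by
          rw [← Real.rpow_add hY0]
          exact Real.rpow_le_rpow_of_exponent_le hY1r (by linarith)
        have h3 : (1 : ℝ) ≤ (Y : ℝ) ^ (ε / 4) := Real.one_le_rpow hY1r (by linarith)
        nlinarith
    _ = (M + (Y : ℝ) ^ (2 * τ)) * ((Q : ℝ) / M) ^ 2 *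
          ((Y : ℝ) ^ (ε / 4) * (Y : ℝ) ^ (ε / 4) * (Y : ℝ) ^ (ε / 2)) := by ring
    _ = _ := by
        rw [← Real.rpow_add hY0, ← Real.rpow_add hY0]
        congr 2
        ring

end Pool.Agent.L7h27.AP
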