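import Pool.Agent.L7h27.AP.Var2
import Pool.Agent.Y882.PY.Err2
import Pool.Agent.Y882.JR.Core5

/-! Few residue classes with a large error term; densities outside a modulus. -/

set_option autoImplicit false

namespace Pool.Agent.L7h27.AP

open Finset Polynomial Filter
open Pool.Agent.W23.DC
open Pool.Agent.Y882
open Pool.Agent.Y882.PX
open Pool.Agent.Y882.SI

open Classical in
/-- few residue classes with a large error term -/
theorem few_cls (K : ℕ) (τ' ε : ℝ) (hτ0 : 0 < τ') (hτ1 : τ' ≤ 1) (hε : 0 < ε) :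
    ∃ Y0 : ℕ, ∀ Y : ℕ, Y0 ≤ Y → ∀ (F : ℤ[X]) (P : Finset ℕ) (c : Finset ℕ → ℝ) (N M Q : ℕ),
      (∀ p ∈ P, p.Prime) → (∀ p ∈ P, ¬ p ∣ Q) → (∀ p ∈ P, ro F 0 p ≤ K) →
      (∀ T, |c T| ≤ (Y : ℝ) ^ (ε / 64)) →
      (∀ T ⊆ P, c T ≠ 0 → ((∏ p ∈ T, p : ℕ) : ℝ) ≤ (Y : ℝ) ^ τ') → 0 < M → 0 < Q → Q ≤ Y →
      (((range Q).filter (fun a => (M : ℝ) / Q * (Y : ℝ) ^ (-(ε / 16)) <
        |∑ n ∈ (Ioc N (N + M)).filter (fun n => n % Q = a), EW F P c n|)).card : ℝ) ≤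
      (M + (Y : ℝ) ^ (2 * τ')) * ((Q : ℝ) / M) ^ 2 * (Y : ℝ) ^ (ε / 2) := by
  obtain ⟨C, hC1, HC⟩ := pow_card_le K (ε / (32 * τ')) (by positivity)
  have ev1 : ∀ᶠ Y : ℕ in atTop, 32 * C ^ 2 * (6 * Real.log ((Y : ℝ))) ^ 6 ≤
      (Y : ℝ) ^ (ε / 32) := by
    have h1 : Tendsto (fun x : ℝ => Real.log x ^ (6 : ℝ) / x ^ (ε / 32)) atTop (nhds 0) := by
      have := isLittleO_log_rpow_rpow_atTop (6 : ℝ) (show 0 < ε / 32 by linarith)
      exact this.tendsto_div_nhds_zero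
    have h2 := h1.eventually_le_const (show (0 : ℝ) < 1 / (32 * C ^ 2 * 6 ^ 6) by
      positivity)
    have h3 := tendsto_natCast_atTop_atTop.eventually (h2.and (eventually_gt_atTop (0 : ℝ)))
    filter_upwards [h3] with X hX
    obtain ⟨h4, h5⟩ := hX
    have h6 : (0 : ℝ) < (X : ℝ) ^ (ε / 32) := by positivity
    rw [div_le_div_iff₀ h6 (by positivity), one_mul] at h4
    have h7 : Real.log (X : ℝ) ^ (6 : ℝ) = Real.log (X : ℝ) ^ (6 : ℕ) := by
      rw [← Real.rpow_natCast]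
      norm_num
    rw [h7] at h4
    rw [mul_pow]
    linarith
  obtain ⟨Y1, hY1⟩ := eventually_atTop.1 (ev1.and (eventually_ge_atTop 3))
  refine ⟨Y1, fun Y hY F P c N M Q hP hPQ hK hc1 hc2 hM hQ hQY => ?_⟩
  obtain ⟨e1, e3⟩ := hY1 Y hY
  have hY3 : (3 : ℝ) ≤ Y := by exact_mod_cast e3
  have hY0 : (0 : ℝ) < Y := by linarith
  have hY1r : (1 : ℝ) ≤ Y := by linarith
  have hM0 : (0 : ℝ) < M := by exact_mod_cast hM
  have hQ0 : (0 : ℝ) < Q := by exact_mod_cast hQ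
  have hlY1 : 1 ≤ Real.log Y := by
    rw [Real.le_log_iff_exp_le (by linarith)]
    linarith [Real.exp_one_lt_d9]
  set D : ℕ := ⌊(Y : ℝ) ^ τ'⌋₊ with hD
  have hYτ1 : (1 : ℝ) ≤ (Y : ℝ) ^ τ' := Real.one_le_rpow (by linarith) hτ0.le
  have hD1 : 1 ≤ D := by
    rw [hD]
    exact Nat.le_floor (by exact_mod_cast hYτ1)
  have hD0 : (0 : ℝ) < D := by exact_mod_cast hD1
  have hDle : (D : ℝ) ≤ (Y : ℝ) ^ τ' := Nat.floor_le (by positivity)
  have hDY : (D : ℝ) ≤ Y := by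
    refine hDle.trans ?_
    calc (Y : ℝ) ^ τ' ≤ (Y : ℝ) ^ (1 : ℝ) := Real.rpow_le_rpow_of_exponent_le (by linarith) hτ1
      _ = Y := Real.rpow_one _
  have hB : ∀ T ⊆ P, ∏ p ∈ T, p ≤ D →
      (ro F 0 (∏ p ∈ T, p) : ℝ) ≤ C * (Y : ℝ) ^ (ε / 32) := by
    intro T hT hTD
    have hTp : ∀ p ∈ T, p.Prime := fun p hp => hP p (hT hp)
    refine (Pool.Agent.Y882.PY.ro_le_pow2 F K 0 T hTp (fun p hp => hK p (hT hp))).trans
      ((HC T hTp).trans ?_)
    apply mul_le_mul_of_nonneg_left _ (by linarith)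
    have h1 : ((∏ p ∈ T, p : ℕ) : ℝ) ≤ (Y : ℝ) ^ τ' := le_trans (by exact_mod_cast hTD) hDle
    calc ((∏ p ∈ T, p : ℕ) : ℝ) ^ (ε / (32 * τ')) ≤
        ((Y : ℝ) ^ τ') ^ (ε / (32 * τ')) :=
          Real.rpow_le_rpow (Nat.cast_nonneg _) h1 (by positivity)
      _ = (Y : ℝ) ^ (ε / 32) := by
          rw [← Real.rpow_mul hY0.le]
          congr 1
          field_simp
  have herr := var_cls F P hP c ((Y : ℝ) ^ (ε / 64)) hc1 D hD1 (C * (Y : ℝ) ^ (ε / 32))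
    (by positivity) hB (by
    intro T hT hcT
    exact Nat.le_floor (hc2 T hT hcT)) N M Q hQ hPQ
  set A := (range Q).filter (fun a => (M : ℝ) / Q * (Y : ℝ) ^ (-(ε / 16)) <
        |∑ n ∈ (Ioc N (N + M)).filter (fun n => n % Q = a), EW F P c n|) with hA
  have hYe : (0 : ℝ) < (Y : ℝ) ^ (-(ε / 16)) := by positivity
  set Λ : ℝ := 1 + Real.log (4 * D ^ 2 * Q) with hΛ
  have h1 : (A.card : ℝ) * ((M : ℝ) / Q * (Y : ℝ) ^ (-(ε / 16))) ^ 2 ≤
      32 * ((Y : ℝ) ^ (ε / 64) * (C * (Y : ℝ) ^ (ε / 32))) ^ 2 * Λ ^ 6 * (M + (D : ℝ) ^ 2) := by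
    refine le_trans ?_ herr
    calc (A.card : ℝ) * ((M : ℝ) / Q * (Y : ℝ) ^ (-(ε / 16))) ^ 2 =
        ∑ k ∈ A, ((M : ℝ) / Q * (Y : ℝ) ^ (-(ε / 16))) ^ 2 := by rw [sum_const, nsmul_eq_mul]
      _ ≤ ∑ a ∈ A, (∑ n ∈ (Ioc N (N + M)).filter (fun n => n % Q = a), EW F P c n) ^ 2 := by
          apply sum_le_sum
          intro a ha
          rw [hA, mem_filter] at ha
          rw [← sq_abs (∑ n ∈ (Ioc N (N + M)).filter (fun n => n % Q = a), EW F P c n)]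
          exact pow_le_pow_left₀ (by positivity) ha.2.le 2
      _ ≤ _ := sum_le_sum_of_subset_of_nonneg (filter_subset _ _) (fun _ _ _ => by positivity)
  have hΛle : Λ ≤ 6 * Real.log Y := by
    have hQ1 : (1 : ℝ) ≤ Q := by exact_mod_cast hQ
    have hQY' : (Q : ℝ) ≤ Y := by exact_mod_cast hQY
    rw [hΛ, Real.log_mul (by positivity) (by positivity), Real.log_mul (by norm_num) (by positivity),
      Real.log_pow]
    have g1 : Real.log D ≤ Real.log Y := Real.log_le_log (by exact_mod_cast hD1) hDY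
    have g2 : Real.log Q ≤ Real.log Y := Real.log_le_log hQ0 hQY'
    have g3 : Real.log 4 ≤ 2 := by
      rw [show (4 : ℝ) = 2 ^ 2 by norm_num, Real.log_pow]
      have := Real.log_two_lt_d9
      push_cast
      linarith
    push_cast
    linarith
  have hΛ0 : 0 ≤ Λ := by
    have : (1 : ℝ) ≤ 4 * D ^ 2 * Q := by
      have hD1r : (1 : ℝ) ≤ D := by exact_mod_cast hD1
      have hQ1 : (1 : ℝ) ≤ Q := by exact_mod_cast hQ
      nlinarith [mul_self_nonneg ((D : ℝ) - 1), mul_nonneg (sub_nonneg.2 hD1r) (sub_nonneg.2 hQ1)]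
    have := Real.log_nonneg this
    linarith
  set E : ℝ := (M : ℝ) + (Y : ℝ) ^ (2 * τ') with hE
  have hE0 : 0 ≤ E := by positivity
  have hsum : (M : ℝ) + (D : ℝ) ^ 2 ≤ E := by
    have h3 : (D : ℝ) ^ 2 ≤ (Y : ℝ) ^ (2 * τ') := by
      calc (D : ℝ) ^ 2 ≤ ((Y : ℝ) ^ τ') ^ 2 := pow_le_pow_left₀ (Nat.cast_nonneg _) hDle 2
        _ = (Y : ℝ) ^ (2 * τ') := by
            rw [← Real.rpow_natCast, ← Real.rpow_mul hY0.le]
            congr 1
            push_cast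
            ring
    linarith
  have p1 : ((Y : ℝ) ^ (ε / 64) * (C * (Y : ℝ) ^ (ε / 32))) ^ 2 = C ^ 2 * (Y : ℝ) ^ (3 * ε / 32) := by
    rw [show (Y : ℝ) ^ (ε / 64) * (C * (Y : ℝ) ^ (ε / 32)) =
      C * ((Y : ℝ) ^ (ε / 64) * (Y : ℝ) ^ (ε / 32)) by ring, ← Real.rpow_add hY0, mul_pow,
      ← Real.rpow_natCast ((Y : ℝ) ^ (ε / 64 + ε / 32)), ← Real.rpow_mul hY0.le]
    congr 2
    push_cast
    ring
  have h2 : 32 * ((Y : ℝ) ^ (ε / 64) * (C * (Y : ℝ) ^ (ε / 32))) ^ 2 * Λ ^ 6 * (M + (D : ℝ) ^ 2) ≤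
      (32 * C ^ 2 * (6 * Real.log Y) ^ 6) * ((Y : ℝ) ^ (3 * ε / 32) * E) := by
    rw [p1]
    have h3 : Λ ^ 6 ≤ (6 * Real.log Y) ^ 6 := pow_le_pow_left₀ hΛ0 hΛle 6
    calc 32 * (C ^ 2 * (Y : ℝ) ^ (3 * ε / 32)) * Λ ^ 6 * (M + (D : ℝ) ^ 2) ≤
        32 * (C ^ 2 * (Y : ℝ) ^ (3 * ε / 32)) * (6 * Real.log Y) ^ 6 * E := by
          gcongr
      _ = _ := by ring
  have h3 : (32 * C ^ 2 * (6 * Real.log Y) ^ 6) * ((Y : ℝ) ^ (3 * ε / 32) * E) ≤
      (E * ((Q : ℝ) / M) ^ 2 * (Y : ℝ) ^ (ε / 2)) * ((M : ℝ) / Q * (Y : ℝ) ^ (-(ε / 16))) ^ 2 := by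
    calc (32 * C ^ 2 * (6 * Real.log Y) ^ 6) * ((Y : ℝ) ^ (3 * ε / 32) * E) ≤
        (Y : ℝ) ^ (ε / 32) * ((Y : ℝ) ^ (3 * ε / 32) * E) :=
          mul_le_mul_of_nonneg_right e1 (by positivity)
      _ = (Y : ℝ) ^ (ε / 8) * E := by
          rw [← mul_assoc, ← Real.rpow_add hY0]
          congr 2
          ring
      _ ≤ (Y : ℝ) ^ (ε / 2 + -(ε / 16) * 2) * E := by
          apply mul_le_mul_of_nonneg_right _ (by positivity)
          exact Real.rpow_le_rpow_of_exponent_le hY1r (by linarith)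
      _ = _ := by
          rw [Real.rpow_add hY0, Real.rpow_mul hY0.le (-(ε / 16)) 2]
          rw [show ((Y : ℝ) ^ (-(ε / 16))) ^ (2 : ℝ) = ((Y : ℝ) ^ (-(ε / 16))) ^ 2 by norm_num]
          field_simp
  exact le_of_mul_le_mul_right ((h1.trans h2).trans h3) (by positivity)

/-- the densities outside a modulus are regular -/
theorem mer_drop (ε₁ ζ η : ℝ) (hε₁ : 0 < ε₁) (hη : 0 < η) : ∃ Y0 : ℕ, ∀ Y : ℕ, Y0 ≤ Y →
    ∀ Q : ℕ, 0 < Q → Q ≤ Y → ∀ g : ℕ → ℝ, (∀ p : ℕ, p.Prime → |g p| ≤ 2 / p) →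
      Mer (pr Y ε₁ ζ) (tt Y) g ε₁ ζ (η / 2) →
      Mer (pr Y ε₁ ζ) (tt Y) (fun p => if p ∣ Q then 0 else g p) ε₁ ζ η := by
  classical
  have ev1 : ∀ᶠ Y : ℕ in atTop, 8 / η * Real.log Y ≤ (Y : ℝ) ^ ε₁ := by
    have h1 := (isLittleO_log_rpow_atTop (show 0 < ε₁ by linarith)).bound
      (show (0 : ℝ) < η / 8 by positivity)
    filter_upwards [tendsto_natCast_atTop_atTop.eventually h1, eventually_ge_atTop 1] with Y hY hY1
    have hY1r : (1 : ℝ) ≤ Y := by exact_mod_cast hY1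
    rw [Real.norm_of_nonneg (Real.log_nonneg hY1r), Real.norm_of_nonneg (by positivity)] at hY
    rw [div_mul_eq_mul_div, div_le_iff₀ hη]
    linarith
  obtain ⟨Y0, hY0⟩ := eventually_atTop.1 (ev1.and (eventually_ge_atTop 3))
  refine ⟨Y0, fun Y hY Q hQ hQY g hg hM a b ha hab hb => ?_⟩
  obtain ⟨e1, e3⟩ := hY0 Y hY
  have hYr : (3 : ℝ) ≤ Y := by exact_mod_cast e3
  have hYp : (0 : ℝ) < (Y : ℝ) ^ ε₁ := by positivity
  set S := (pr Y ε₁ ζ).filter (fun p => a ≤ tt Y p ∧ tt Y p < b) with hS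
  have h1 := hM a b ha hab hb
  rw [← hS] at h1
  have h2 : ∑ p ∈ S, (if p ∣ Q then 0 else g p) = ∑ p ∈ S, g p - ∑ p ∈ S.filter (fun p => p ∣ Q), g p := by
    have h0 : ∑ p ∈ S.filter (fun p => p ∣ Q), g p = ∑ p ∈ S, (if p ∣ Q then g p else 0) :=
      sum_filter _ _
    rw [h0, ← sum_sub_distrib]
    apply sum_congr rfl
    intro p _
    split_ifs <;> ring
  have hpr : ∀ p ∈ S, p.Prime ∧ (Y : ℝ) ^ ε₁ ≤ p := by
    intro p hp
    rw [hS, mem_filter] at hp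
    have h3 := hp.1
    unfold pr at h3
    rw [mem_filter] at h3
    obtain ⟨_, h4, h5, h6⟩ := h3
    refine ⟨h4, ?_⟩
    by_contra hc
    push Not at hc
    exact absurd ((tt_lt Y p ε₁ (by omega) h4.pos).2 hc) (not_lt.2 h5)
  have hcard : ((S.filter (fun p => p ∣ Q)).card : ℝ) ≤ 2 * Real.log Y := by
    have h3 : 2 ^ (S.filter (fun p => p ∣ Q)).card ≤ Q := by
      calc 2 ^ (S.filter (fun p => p ∣ Q)).card = ∏ _p ∈ S.filter (fun p => p ∣ Q), 2 := by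
            rw [prod_const]
        _ ≤ ∏ p ∈ S.filter (fun p => p ∣ Q), p := by
            apply Finset.prod_le_prod'
            intro p hp
            rw [mem_filter] at hp
            exact (hpr p hp.1).1.two_le
        _ ≤ Q := by
            apply Nat.le_of_dvd hQ
            apply Finset.prod_primes_dvd
            · intro p hp
              rw [mem_filter] at hp
              exact (hpr p hp.1).1.prime
            · intro p hp
              exact (mem_filter.1 hp).2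
    have h4 : ((2 : ℝ)) ^ (S.filter (fun p => p ∣ Q)).card ≤ Y := by
      exact_mod_cast h3.trans hQY
    have h5 := Real.log_le_log (by positivity) h4
    rw [Real.log_pow] at h5
    have h6 : (1 / 2 : ℝ) ≤ Real.log 2 := by
      have := Real.log_two_gt_d9
      linarith
    have h7 : (0 : ℝ) ≤ ((S.filter (fun p => p ∣ Q)).card : ℕ) := Nat.cast_nonneg _
    nlinarith
  have h3 : |∑ p ∈ S.filter (fun p => p ∣ Q), g p| ≤ η / 2 := by
    calc |∑ p ∈ S.filter (fun p => p ∣ Q), g p| ≤ ∑ p ∈ S.filter (fun p => p ∣ Q), |g p| :=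
          abs_sum_le_sum_abs _ _
      _ ≤ ∑ p ∈ S.filter (fun p => p ∣ Q), 2 / (Y : ℝ) ^ ε₁ := by
          apply sum_le_sum
          intro p hp
          rw [mem_filter] at hp
          obtain ⟨h4, h5⟩ := hpr p hp.1
          refine (hg p h4).trans ?_
          exact div_le_div_of_nonneg_left (by norm_num) hYp h5
      _ = (S.filter (fun p => p ∣ Q)).card * (2 / (Y : ℝ) ^ ε₁) := by rw [sum_const, nsmul_eq_mul]
      _ ≤ (2 * Real.log Y) * (2 / (Y : ℝ) ^ ε₁) :=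
          mul_le_mul_of_nonneg_right hcard (by positivity)
      _ ≤ η / 2 := by
          rw [mul_div_assoc', div_le_iff₀ hYp]
          rw [div_mul_eq_mul_div, div_le_iff₀ hη] at e1
          linarith
  have h4 : ∑ p ∈ S, (fun p => if p ∣ Q then 0 else g p) p = ∑ p ∈ S, (if p ∣ Q then 0 else g p) := rfl
  rw [h4, h2]
  calc |∑ p ∈ S, g p - ∑ p ∈ S.filter (fun p => p ∣ Q), g p - Real.log (b / a)| =
      |(∑ p ∈ S, g p - Real.log (b / a)) - ∑ p ∈ S.filter (fun p => p ∣ Q), g p| := by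
        congr 1
        ring
    _ ≤ |∑ p ∈ S, g p - Real.log (b / a)| + |∑ p ∈ S.filter (fun p => p ∣ Q), g p| := abs_sub _ _
    _ ≤ η := by linarith

/-- the number of the members of a residue class in an interval -/
theorem cls_card (N M Q a : ℕ) (hQ : 0 < Q) (ha : a < Q) :
    |(((Ioc N (N + M)).filter (fun n => n % Q = a)).card : ℝ) - (M : ℝ) / Q| ≤ 1 := by
  have hQ0 : (0 : ℝ) < Q := by exact_mod_cast hQ
  have h1 : (Ioc N (N + M)).filter (fun n => n % Q = a) =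
      (Ioc N (N + M)).filter (fun n => n ≡ a [MOD Q]) := by
    apply filter_congr
    intro n _
    unfold Nat.ModEq
    rw [Nat.mod_eq_of_lt ha]
  rw [h1]
  have h2 := Nat.Ioc_filter_modEq_card N (N + M) hQ a
  set x : ℚ := ((N + M : ℕ) - a : ℚ) / Q with hx
  set y : ℚ := ((N : ℕ) - a : ℚ) / Q with hy
  have hxy : x - y = M / Q := by
    rw [hx, hy]
    push_cast
    ring
  have h3 : y ≤ x := by
    have : (0 : ℚ) ≤ M / Q := by positivity
    linarith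
  have h4 : (⌊y⌋ : ℤ) ≤ ⌊x⌋ := Int.floor_le_floor h3
  have h5 : (((Ioc N (N + M)).filter (fun n => n ≡ a [MOD Q])).card : ℤ) = ⌊x⌋ - ⌊y⌋ := by
    rw [h2]
    exact max_eq_left (by omega)
  have h6 : (((Ioc N (N + M)).filter (fun n => n ≡ a [MOD Q])).card : ℚ) = (⌊x⌋ : ℚ) - ⌊y⌋ := by
    exact_mod_cast h5
  have h7 : |(((Ioc N (N + M)).filter (fun n => n ≡ a [MOD Q])).card : ℚ) - (M : ℚ) / Q| ≤ 1 := by
    rw [h6, ← hxy]
    have a1 := Int.floor_le x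
    have a2 := Int.lt_floor_add_one x
    have a3 := Int.floor_le y
    have a4 := Int.lt_floor_add_one y
    rw [abs_le]
    constructor <;> linarith
  have h8 := (Rat.cast_le (K := ℝ)).2 h7
  rw [Rat.cast_abs] at h8
  push_cast at h8
  exact h8

end Pool.Agent.L7h27.AP
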