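import Mathlib
import Pool.Agent.H343R2.Gauss

/-! Exponential sums over intervals at points of a grid. -/

set_option autoImplicit false

namespace Pool.Agent.L7h27.AP

open Finset
open H343 (ex)

/-- the sum over the interval -/
noncomputable def KI (N M : ℕ) (θ : ℝ) : ℂ := ∑ n ∈ Ioc N (N + M), ex ((n : ℝ) * θ)

theorem KI_le (N M : ℕ) (θ : ℝ) : ‖KI N M θ‖ ≤ M := by
  unfold KI
  refine (norm_sum_le _ _).trans ?_
  simp [H343.Gauss.norm_ex]

theorem sin_low (x : ℝ) (h0 : 0 < x) (h1 : x < 1) : 2 * (x * (1 - x)) ≤ Real.sin (Real.pi * x) := by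
  have hpi := Real.pi_pos
  rcases le_total x (1 / 2) with h | h
  · have h2 := Real.mul_le_sin (x := Real.pi * x) (by positivity) (by nlinarith)
    have h3 : 2 / Real.pi * (Real.pi * x) = 2 * x := by field_simp
    rw [h3] at h2
    nlinarith
  · have h2 := Real.mul_le_sin (x := Real.pi * (1 - x)) (by
      apply mul_nonneg hpi.le; linarith) (by nlinarith)
    have h3 : 2 / Real.pi * (Real.pi * (1 - x)) = 2 * (1 - x) := by field_simp
    rw [h3] at h2
    have h4 : Real.sin (Real.pi * (1 - x)) = Real.sin (Real.pi * x) := by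
      rw [show Real.pi * (1 - x) = Real.pi - Real.pi * x by ring, Real.sin_pi_sub]
    rw [h4] at h2
    nlinarith

theorem norm_one_sub (x : ℝ) : ‖ex x - 1‖ = 2 * |Real.sin (Real.pi * x)| := by
  unfold ex
  have h := Complex.norm_exp_I_mul_ofReal_sub_one (2 * Real.pi * x)
  rw [mul_comm (Complex.I)] at h
  rw [h]
  rw [show 2 * Real.pi * x / 2 = Real.pi * x by ring]
  rw [norm_mul, Real.norm_eq_abs, Real.norm_eq_abs]
  norm_num

theorem ex_fract (x : ℝ) : ex x = ex (Int.fract x) := by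
  conv_lhs => rw [← Int.fract_add_floor x]
  rw [H343.Gauss.ex_add, H343.Gauss.ex_int, mul_one]

theorem KI_fract (N M : ℕ) (θ : ℝ) (h0 : 0 < Int.fract θ) :
    ‖KI N M θ‖ ≤ 1 / (2 * Int.fract θ) + 1 / (2 * (1 - Int.fract θ)) := by
  set x := Int.fract θ with hx
  have h1 : x < 1 := Int.fract_lt_one θ
  have hs := sin_low x h0 h1
  have hp : 0 < 2 * (x * (1 - x)) := by
    have : 0 < 1 - x := by linarith
    positivity
  have hsum : ∀ m : ℕ, (ex θ - 1) * ∑ n ∈ Ioc N (N + m), ex ((n : ℝ) * θ) =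
      ex (((N + m + 1 : ℕ) : ℝ) * θ) - ex (((N + 1 : ℕ) : ℝ) * θ) := by
    intro m
    induction m with
    | zero => simp
    | succ m ih =>
      rw [← add_assoc, sum_Ioc_succ_top (by omega), mul_add, ih]
      have h2 : ex (((N + m + 1 + 1 : ℕ) : ℝ) * θ) = ex θ * ex (((N + m + 1 : ℕ) : ℝ) * θ) := by
        rw [← H343.Gauss.ex_add]
        congr 1
        push_cast
        ring
      rw [h2]
      ring
  have h3 : ‖(ex θ - 1) * KI N M θ‖ ≤ 2 := by
    unfold KI
    rw [hsum M]
    refine (norm_sub_le _ _).trans ?_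
    rw [H343.Gauss.norm_ex, H343.Gauss.norm_ex]
    norm_num
  rw [norm_mul, ex_fract θ, ← hx, norm_one_sub, abs_of_pos (by linarith)] at h3
  have h4 : ‖KI N M θ‖ ≤ 1 / (2 * (x * (1 - x))) := by
    rw [le_div_iff₀ hp]
    have h5 : 0 ≤ ‖KI N M θ‖ := norm_nonneg _
    nlinarith
  refine h4.trans (le_of_eq ?_)
  have h6 : x ≠ 0 := h0.ne'
  have h7 : 1 - x ≠ 0 := by linarith
  field_simp
  ring

/-- the bound in the `k`-th of `R` cells -/
noncomputable def hc (M R k : ℕ) : ℝ :=
  if k = 0 ∨ k = R - 1 then (M : ℝ) else (R : ℝ) / (2 * k) + R / (2 * ((R : ℝ) - 1 - k))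

theorem KI_cell (N M R : ℕ) (hR : 2 ≤ R) (θ : ℝ) : ‖KI N M θ‖ ≤ hc M R ⌊(R : ℝ) * Int.fract θ⌋₊ := by
  have hR0 : (0 : ℝ) < R := by exact_mod_cast (by omega : 0 < R)
  set x := Int.fract θ with hx
  have hx0 : 0 ≤ x := Int.fract_nonneg θ
  have hx1 : x < 1 := Int.fract_lt_one θ
  set k := ⌊(R : ℝ) * x⌋₊ with hk
  have k1 : (k : ℝ) ≤ R * x := Nat.floor_le (by positivity)
  have k2 : (R : ℝ) * x < k + 1 := Nat.lt_floor_add_one _
  have k3 : k < R := by
    have : (k : ℝ) < R := lt_of_le_of_lt k1 (by nlinarith)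
    exact_mod_cast this
  unfold hc
  split_ifs with h
  · exact KI_le N M θ
  · push Not at h
    obtain ⟨h1, h2⟩ := h
    have h3 : (1 : ℝ) ≤ k := by exact_mod_cast Nat.one_le_iff_ne_zero.2 h1
    have h4 : k + 2 ≤ R := by omega
    have h5 : (k : ℝ) + 2 ≤ R := by exact_mod_cast h4
    have h6 : 0 < x := by
      by_contra hc
      have : x = 0 := le_antisymm (not_lt.1 hc) hx0
      rw [this] at k1
      linarith
    refine (KI_fract N M θ h6).trans ?_
    rw [← hx]
    apply add_le_add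
    · rw [div_le_div_iff₀ (by positivity) (by positivity)]
      linarith
    · rw [div_le_div_iff₀ (by linarith) (by linarith)]
      linarith

theorem hc_nonneg (M R k : ℕ) (hk : k < R) : 0 ≤ hc M R k := by
  unfold hc
  split_ifs with h
  · positivity
  · push Not at h
    have h5 : k + 2 ≤ R := by omega
    have h6 : (k : ℝ) + 2 ≤ R := by exact_mod_cast h5
    apply add_nonneg (by positivity)
    apply div_nonneg (by positivity)
    linarith

theorem harm' (D : ℕ) : ∑ m ∈ Icc 1 D, 1 / (m : ℝ) ≤ 1 + Real.log D := by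
  have h := harmonic_le_one_add_log D
  rw [harmonic_eq_sum_Icc] at h
  push_cast at h
  simpa [one_div] using h

/-- the sum over all cells -/
theorem hc_sum (M R : ℕ) (hR : 2 ≤ R) :
    ∑ k ∈ range R, hc M R k ≤ 2 * M + R * (1 + Real.log R) := by
  have hR0 : (0 : ℝ) < R := by exact_mod_cast (by omega : 0 < R)
  have h1 : ∀ k ∈ range R, hc M R k ≤ (if k = 0 then (M : ℝ) else 0) + (if k = R - 1 then (M : ℝ) else 0) +
      ((if k ∈ Icc 1 R then (R : ℝ) / (2 * k) else 0) +
        (if R - 1 - k ∈ Icc 1 R then (R : ℝ) / (2 * ((R - 1 - k : ℕ) : ℝ)) else 0)) := by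
    intro k hk
    rw [mem_range] at hk
    unfold hc
    have p1 : (0 : ℝ) ≤ (if k ∈ Icc 1 R then (R : ℝ) / (2 * k) else 0) := by split_ifs <;> positivity
    have p2 : (0 : ℝ) ≤ (if R - 1 - k ∈ Icc 1 R then (R : ℝ) / (2 * ((R - 1 - k : ℕ) : ℝ)) else 0) := by
      split_ifs <;> positivity
    have p3 : (0 : ℝ) ≤ (if k = 0 then (M : ℝ) else 0) := by split_ifs <;> positivity
    have p4 : (0 : ℝ) ≤ (if k = R - 1 then (M : ℝ) else 0) := by split_ifs <;> positivity
    by_cases h : k = 0 ∨ k = R - 1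
    · rw [if_pos h]
      rcases h with h | h
      · rw [if_pos h] at p3 ⊢
        linarith
      · rw [if_pos h] at p4 ⊢
        linarith
    · rw [if_neg h]
      push Not at h
      have e1 : k ∈ Icc 1 R := by rw [mem_Icc]; omega
      have e2 : R - 1 - k ∈ Icc 1 R := by rw [mem_Icc]; omega
      have e3 : ((R - 1 - k : ℕ) : ℝ) = (R : ℝ) - 1 - k := by
        have : R - 1 - k + k + 1 = R := by omega
        have h3 : ((R - 1 - k : ℕ) : ℝ) + k + 1 = R := by exact_mod_cast this
        linarith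
      rw [if_pos e1, if_pos e2, e3]
      linarith
  refine (sum_le_sum h1).trans ?_
  rw [sum_add_distrib, sum_add_distrib, sum_add_distrib]
  have h2 : ∑ k ∈ range R, (if k = 0 then (M : ℝ) else 0) ≤ M := by
    rw [sum_ite_eq']
    split_ifs <;> simp
  have h3 : ∑ k ∈ range R, (if k = R - 1 then (M : ℝ) else 0) ≤ M := by
    rw [sum_ite_eq']
    split_ifs <;> simp
  have h4 : ∑ k ∈ range R, (if k ∈ Icc 1 R then (R : ℝ) / (2 * k) else 0) ≤
      R / 2 * (1 + Real.log R) := by
    rw [← sum_filter]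
    calc ∑ k ∈ (range R).filter (fun k => k ∈ Icc 1 R), (R : ℝ) / (2 * k) ≤
        ∑ k ∈ Icc 1 R, (R : ℝ) / (2 * k) := by
          apply sum_le_sum_of_subset_of_nonneg
          · intro k hk
            exact (mem_filter.1 hk).2
          · intro k _ _
            positivity
      _ = R / 2 * ∑ k ∈ Icc 1 R, 1 / (k : ℝ) := by
          rw [mul_sum]
          apply sum_congr rfl
          intro k hk
          have : (k : ℝ) ≠ 0 := by
            have := (mem_Icc.1 hk).1
            exact_mod_cast (by omega : k ≠ 0)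
          field_simp
      _ ≤ _ := mul_le_mul_of_nonneg_left (harm' R) (by positivity)
  have h5 : ∑ k ∈ range R, (if R - 1 - k ∈ Icc 1 R then (R : ℝ) / (2 * ((R - 1 - k : ℕ) : ℝ)) else 0) =
      ∑ k ∈ range R, (if k ∈ Icc 1 R then (R : ℝ) / (2 * k) else 0) := by
    exact sum_range_reflect (fun k => if k ∈ Icc 1 R then (R : ℝ) / (2 * k) else 0) R
  rw [h5]
  linarith

end Pool.Agent.L7h27.AP
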