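import Pool.Agent.L7h27.AP.Upper
import Pool.Agent.Y882.SI.Fin

/-! The weighted sieve for the values of a polynomial in residue classes: few exceptions. -/

set_option autoImplicit false

namespace Pool.Agent.L7h27.AP

open Finset Polynomial Filter
open Pool.Agent.W23.DC
open Pool.Agent.Y882
open Pool.Agent.Y882.PX
open Pool.Agent.Y882.SI
open Pool.Agent.Y882.KW

/-- the members at which the weight is positive -/
noncomputable def pW (G : ℤ[X]) (Y : ℕ) (ζ υ aw bw : ℝ) (N M Q a : ℕ) : Finset ℕ :=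
  (SC N M Q a).filter (fun n => 0 < WW Y ζ υ aw bw (G.eval (n : ℤ)).natAbs)

/-- the values in the class are prime to the modulus -/
def Adm (G : ℤ[X]) (Q a : ℕ) : Prop := ∀ p : ℕ, p.Prime → p ∣ Q → ¬ (p : ℤ) ∣ G.eval (a : ℤ)

/-- the number of roots, outside the modulus -/
noncomputable def rq (G : ℤ[X]) (Q p : ℕ) : ℕ := if p ∣ Q then 0 else ro G 0 p

/-- the local factor outside the modulus -/
noncomputable def loq (G : ℤ[X]) (Q Z : ℕ) : ℝ :=
  ∏ p ∈ (Icc 1 Z).filter Nat.Prime, (1 - (rq G Q p : ℝ) / p)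

theorem adm_mem (G : ℤ[X]) (N M Q a : ℕ) (h : Adm G Q a) (n : ℕ) (hn : n ∈ SC N M Q a) (p : ℕ)
    (hp : p.Prime) (hpQ : p ∣ Q) : ¬ p ∣ (G.eval (n : ℤ)).natAbs := by
  intro hd
  unfold SC at hn
  rw [mem_filter] at hn
  apply h p hp hpQ
  have h1 : (p : ℤ) ∣ G.eval (n : ℤ) := Int.natCast_dvd.2 hd
  have h2 : ((n : ℤ) - (a : ℤ)) ∣ G.eval (n : ℤ) - G.eval (a : ℤ) := sub_dvd_eval_sub _ _ _
  have h3 : (p : ℤ) ∣ (n : ℤ) - (a : ℤ) := by
    have h4 : (Q : ℤ) ∣ (n : ℤ) - ((n % Q : ℕ) : ℤ) := by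
      rw [Int.natCast_mod]
      exact Int.dvd_self_sub_emod
    rw [hn.2] at h4
    exact (Int.natCast_dvd_natCast.2 hpQ).trans h4
  have h5 := dvd_sub h1 (h3.trans h2)
  rwa [sub_sub_cancel] at h5

open Classical in
theorem wsumW (G : ℤ[X]) (P : Finset ℕ) (hP : ∀ p ∈ P, p.Prime) (c : Finset ℕ → ℝ) (N M Q a : ℕ)
    (h : Adm G Q a) :
    ∑ T ∈ P.powerset, c T * ((((SC N M Q a).filter (fun j : ℕ =>
      ∏ p ∈ T, p ∣ (G.eval (j : ℤ)).natAbs)).card : ℝ) -
      (SC N M Q a).card * ∏ p ∈ T, ((rq G Q p : ℝ) / p)) =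
    ∑ n ∈ SC N M Q a, EW G (P.filter (fun p => ¬ p ∣ Q)) c n := by
  set P' := P.filter (fun p => ¬ p ∣ Q) with hP'
  have hP'p : ∀ p ∈ P', p.Prime := fun p hp => hP p (mem_filter.1 hp).1
  have hsub : P'.powerset ⊆ P.powerset := powerset_mono.2 (filter_subset _ _)
  rw [← sum_subset hsub]
  · unfold EW
    rw [sum_comm]
    apply sum_congr rfl
    intro T hT
    rw [mem_powerset] at hT
    have hTp : ∀ p ∈ T, p.Prime := fun p hp => hP'p p (hT hp)
    rw [← mul_sum]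
    congr 1
    have e1 : ∏ p ∈ T, ((rq G Q p : ℝ) / p) = (ro G 0 (∏ p ∈ T, p) : ℝ) / ((∏ p ∈ T, p : ℕ) : ℝ) := by
      rw [ro_prod G 0 T hTp]
      push_cast
      rw [prod_div_distrib]
      congr 1
      apply prod_congr rfl
      intro p hp
      unfold rq
      rw [if_neg (mem_filter.1 (hT hp)).2]
    rw [e1, card_filter]
    push_cast
    rw [← nsmul_eq_mul, ← sum_const, ← sum_sub_distrib]
    apply sum_congr rfl
    intro n hn
    have hn1 : 1 ≤ n := by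
      unfold SC at hn
      rw [mem_filter, mem_Ioc] at hn
      omega
    have e4 : (ci G (∏ p ∈ T, p) 1 (n - 1) : ℝ) =
        if (∏ p ∈ T, p) ∣ (G.eval (n : ℤ)).natAbs then 1 else 0 := by
      unfold ci
      have h1 : Icc 1 1 = ({1} : Finset ℕ) := by simp
      rw [h1, filter_singleton]
      have h2 : ((n - 1 + 1 : ℕ) : ℤ) = (n : ℤ) := by
        have : n - 1 + 1 = n := by omega
        rw [this]
      rw [h2]
      by_cases h : (∏ p ∈ T, p) ∣ (G.eval (n : ℤ)).natAbs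
      · rw [if_pos h, if_pos (Int.natCast_dvd.2 h)]
        simp
      · rw [if_neg h, if_neg (fun h3 => h (Int.natCast_dvd.1 h3))]
        simp
    unfold ri
    rw [e4]
    push_cast
    ring
  · intro T hT hT'
    rw [mem_powerset] at hT hT'
    have h1 : ∃ p ∈ T, p ∣ Q := by
      by_contra hc
      push Not at hc
      exact hT' fun p hp => mem_filter.2 ⟨hT hp, hc p hp⟩
    obtain ⟨p, hp, hd⟩ := h1
    have e1 : ∏ p ∈ T, ((rq G Q p : ℝ) / p) = 0 := by
      apply prod_eq_zero hp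
      unfold rq
      rw [if_pos hd]
      simp
    have e2 : (SC N M Q a).filter (fun j : ℕ => ∏ p ∈ T, p ∣ (G.eval (j : ℤ)).natAbs) = ∅ := by
      apply filter_eq_empty_iff.2
      intro n hn hdv
      exact adm_mem G N M Q a h n hn p (hP p (hT hp)) hd ((dvd_prod_of_mem _ hp).trans hdv)
    rw [e1, e2]
    simp

open Classical in
/-- **The weighted sieve in residue classes.** -/
theorem engW (K : ℕ) (β τ ζ υ aw bw ε : ℝ) (hβ : 0 < β) (hζ : 0 < ζ) (h2 : 2 * ζ < τ)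
    (h4 : τ ≤ 4 * ζ) (hτ : τ < 1) (hζυ : ζ ≤ υ) (hυτ : υ < τ) (ha : 0 ≤ aw) (hb : 0 ≤ bw)
    (hab : bw * υ ≤ aw)
    (hJ0 : ∫ x in ζ..υ, (aw - bw * x) / (τ - x) / x < Real.log (τ / ζ - 1) / τ) (hε : 0 < ε) :
    ∃ δ ε₁ η : ℝ, 0 < δ ∧ 0 < ε₁ ∧ ε₁ ≤ ζ ∧ ε₁ ≤ β ∧ 0 < η ∧ ∃ Y0 : ℕ, ∀ Y : ℕ, Y0 ≤ Y →
      ∀ (G : ℤ[X]) (N M Q Z : ℕ), (∀ p : ℕ, p.Prime → ro G 0 p ≤ K) → 0 < M → 0 < Q → Q ≤ Y →
        (Y : ℝ) ^ β ≤ Z →
        Mer (pr Y ε₁ υ) (tt Y) (fun p => (rq G Q p : ℝ) / p) ε₁ υ η →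
        (((range Q).filter (fun a => Adm G Q a ∧ ((pW G Y ζ υ aw bw N M Q a).card : ℝ) <
          δ * ((M : ℝ) / Q) * loq G Q Z)).card : ℝ) ≤
          (M + (Y : ℝ) ^ (2 * τ)) * ((Q : ℝ) / M) ^ 2 * (Y : ℝ) ^ ε := by
  obtain ⟨s, hs0, hs1, hs2⟩ : ∃ s : ℝ, 0 < s ∧ s ≤ ε / 8 ∧ s ≤ 1 - τ :=
    ⟨min (ε / 8) (1 - τ), lt_min (by linarith) (by linarith), min_le_left _ _, min_le_right _ _⟩
  set τ' : ℝ := τ + s with hτ'
  have hττ' : τ < τ' := by linarith
  obtain ⟨δ, ε₁, η, hδ, hε₁, hε₁ζ, hε₁β, hη, Y1, HC⟩ :=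
    core4 K τ ζ υ aw bw τ' β (ε / 32) hζ h2 h4 hτ.le hζυ hυτ ha hb hab hJ0 hττ' hβ (by linarith)
  obtain ⟨Y2, HE⟩ := few_cls K τ' ε (by linarith) (by linarith) hε
  have ev1 : ∀ᶠ Y : ℕ in atTop, 5 * Real.log Y ≤ (Y : ℝ) ^ (ε / 64) := by
    have h1 := (isLittleO_log_rpow_atTop (show 0 < ε / 64 by linarith)).bound
      (show (0 : ℝ) < 1 / 5 by norm_num)
    filter_upwards [tendsto_natCast_atTop_atTop.eventually h1, eventually_ge_atTop 1] with Y hY hY1
    have hY1r : (1 : ℝ) ≤ Y := by exact_mod_cast hY1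
    rw [Real.norm_of_nonneg (Real.log_nonneg hY1r), Real.norm_of_nonneg (by positivity)] at hY
    linarith
  have ev2 : ∀ᶠ Y : ℕ in atTop, 2 ≤ (Y : ℝ) ^ (ε / 32) :=
    ((tendsto_rpow_atTop (by linarith)).comp tendsto_natCast_atTop_atTop).eventually_ge_atTop _
  obtain ⟨Y3, hY3⟩ := eventually_atTop.1 (ev1.and (ev2.and (eventually_ge_atTop 3)))
  refine ⟨δ / 2, ε₁, η, by positivity, hε₁, hε₁ζ, hε₁β, hη, max Y1 (max Y2 Y3), ?_⟩
  intro Y hY G N M Q Z hK hM hQ hQY hZ hmer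
  have hYY1 : Y1 ≤ Y := (le_max_left _ _).trans hY
  have hYY2 : Y2 ≤ Y := ((le_max_left _ _).trans (le_max_right _ _)).trans hY
  obtain ⟨e1, e2, e3⟩ := hY3 Y (((le_max_right _ _).trans (le_max_right _ _)).trans hY)
  have hYr : (3 : ℝ) ≤ Y := by exact_mod_cast e3
  have hY0 : (0 : ℝ) < Y := by linarith
  have hY1r : (1 : ℝ) ≤ Y := by linarith
  have hM0 : (0 : ℝ) < M := by exact_mod_cast hM
  have hQ0 : (0 : ℝ) < Q := by exact_mod_cast hQ
  rcases lt_or_ge ((M : ℝ) / Q) 2 with hsm | hlg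
  · -- the trivial case
    have h2 : (((range Q).filter (fun a => Adm G Q a ∧ ((pW G Y ζ υ aw bw N M Q a).card : ℝ) <
          δ / 2 * ((M : ℝ) / Q) * loq G Q Z)).card : ℝ) ≤ Q := by
      have := card_filter_le (range Q) (fun a =>
          Adm G Q a ∧ ((pW G Y ζ υ aw bw N M Q a).card : ℝ) <
          δ / 2 * ((M : ℝ) / Q) * loq G Q Z)
      rw [card_range] at this
      exact_mod_cast this
    refine h2.trans ?_
    have h3 : (Q : ℝ) = (M * ((Q : ℝ) / M) ^ 2) * (M / Q) := by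
      field_simp
    have h5 : (2 : ℝ) ≤ (Y : ℝ) ^ ε := e2.trans
      (Real.rpow_le_rpow_of_exponent_le hY1r (by linarith))
    calc (Q : ℝ) = (M * ((Q : ℝ) / M) ^ 2) * (M / Q) := h3
      _ ≤ (M * ((Q : ℝ) / M) ^ 2) * (Y : ℝ) ^ ε := by
          apply mul_le_mul_of_nonneg_left _ (by positivity)
          linarith
      _ ≤ _ := by
          apply mul_le_mul_of_nonneg_right _ (by positivity)
          apply mul_le_mul_of_nonneg_right _ (by positivity)
          have : 0 ≤ (Y : ℝ) ^ (2 * τ) := by positivity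
          linarith
  obtain ⟨c, hcL, hcD, hcM⟩ := HC Y hYY1
  have hPZ : ∀ p ∈ PZ Y υ, p.Prime := PZ_prime Y υ
  have hPQp : ∀ p ∈ PQ Y υ Q, p.Prime := fun p hp => hPZ p (mem_filter.1 hp).1
  have hPQd : ∀ p ∈ PQ Y υ Q, ¬ p ∣ Q := fun p hp => (mem_filter.1 hp).2
  have hA := HE Y hYY2 G (PQ Y υ Q) c N M Q hPQp hPQd (fun p hp => hK p (hPQp p hp))
    (fun T => (hcL T).trans e1) (fun T hT h0 => hcD T (hT.trans (filter_subset _ _)) h0) hM hQ hQY
  set H : ℝ := (M : ℝ) / Q with hH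
  have hH0 : 0 < H := by positivity
  have hsub : (range Q).filter (fun a => Adm G Q a ∧ ((pW G Y ζ υ aw bw N M Q a).card : ℝ) <
          δ / 2 * H * loq G Q Z) ⊆ (range Q).filter (fun a => H * (Y : ℝ) ^ (-(ε / 16)) <
        |∑ n ∈ (Ioc N (N + M)).filter (fun n => n % Q = a), EW G (PQ Y υ Q) c n|) := by
    intro a ha
    rw [mem_filter] at ha ⊢
    refine ⟨ha.1, ?_⟩
    by_contra hcon
    push Not at hcon
    obtain ⟨haA, haS⟩ := ha.2
    apply absurd haS (not_lt.2 _)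
    have haQ : a < Q := mem_range.1 ha.1
    have hcard := cls_card N M Q a hQ haQ
    rw [← hH] at hcard
    change |((SC N M Q a).card : ℝ) - H| ≤ 1 at hcard
    obtain ⟨k1, k2⟩ := abs_le.1 hcard
    have hcard2 : H / 2 ≤ ((SC N M Q a).card : ℝ) := by linarith
    have key := hcM (SC N M Q a) (fun j => (G.eval (j : ℤ)).natAbs) (rq G Q) Z
      hZ (by
        intro p hp
        unfold rq
        split_ifs
        · exact Nat.zero_le _
        · exact hK p hp) (by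
        intro p hp
        unfold rq
        split_ifs
        · exact Nat.zero_le _
        · exact ro_le_self G 0 p) hmer (by
        rw [wsumW G (PZ Y υ) hPZ c N M Q a haA]
        change |∑ n ∈ (Ioc N (N + M)).filter (fun n => n % Q = a), EW G (PQ Y υ Q) c n| ≤ _
        refine hcon.trans ?_
        have h3 : (Y : ℝ) ^ (-(ε / 16)) = (Y : ℝ) ^ (-(ε / 32)) * (Y : ℝ) ^ (-(ε / 32)) := by
          rw [← Real.rpow_add hY0]
          congr 1
          ring
        have h4 : (Y : ℝ) ^ (-(ε / 32)) ≤ 1 / 2 := by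
          rw [Real.rpow_neg hY0.le, inv_le_comm₀ (by positivity) (by positivity)]
          norm_num
          exact e2
        rw [h3]
        calc H * ((Y : ℝ) ^ (-(ε / 32)) * (Y : ℝ) ^ (-(ε / 32))) ≤
            H * (1 / 2 * (Y : ℝ) ^ (-(ε / 32))) := by
              apply mul_le_mul_of_nonneg_left _ hH0.le
              exact mul_le_mul_of_nonneg_right h4 (by positivity)
          _ = (H / 2) * (Y : ℝ) ^ (-(ε / 32)) := by ring
          _ ≤ _ := mul_le_mul_of_nonneg_right hcard2 (by positivity))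
    have hl0 : 0 ≤ loq G Q Z := by
      unfold loq
      apply prod_nonneg
      intro p hp
      have hpp := (mem_filter.1 hp).2
      have hp0 : (0 : ℝ) < p := by exact_mod_cast hpp.pos
      rw [sub_nonneg, div_le_one hp0]
      have : rq G Q p ≤ p := by
        unfold rq
        split_ifs
        · exact Nat.zero_le _
        · exact ro_le_self G 0 p
      exact_mod_cast this
    calc δ / 2 * H * loq G Q Z = δ * (H / 2) * loq G Q Z := by ring
      _ ≤ δ * ((SC N M Q a).card : ℝ) * loq G Q Z := by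
          apply mul_le_mul_of_nonneg_right _ hl0
          exact mul_le_mul_of_nonneg_left hcard2 hδ.le
      _ ≤ _ := key
  calc (((range Q).filter (fun a => Adm G Q a ∧ ((pW G Y ζ υ aw bw N M Q a).card : ℝ) <
          δ / 2 * H * loq G Q Z)).card : ℝ) ≤ _ := by exact_mod_cast card_le_card hsub
    _ ≤ _ := hA
    _ ≤ ((M + (Y : ℝ) ^ (2 * τ)) * (Y : ℝ) ^ (ε / 2)) * ((Q : ℝ) / M) ^ 2 * (Y : ℝ) ^ (ε / 2) := by
        apply mul_le_mul_of_nonneg_right _ (by positivity)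
        apply mul_le_mul_of_nonneg_right _ (by positivity)
        have h1 : (Y : ℝ) ^ (2 * τ') ≤ (Y : ℝ) ^ (2 * τ) * (Y : ℝ) ^ (ε / 2) := by
          rw [← Real.rpow_add hY0]
          exact Real.rpow_le_rpow_of_exponent_le hY1r (by linarith)
        have h3 : (1 : ℝ) ≤ (Y : ℝ) ^ (ε / 2) := Real.one_le_rpow hY1r (by linarith)
        nlinarith
    _ = (M + (Y : ℝ) ^ (2 * τ)) * ((Q : ℝ) / M) ^ 2 *
          ((Y : ℝ) ^ (ε / 2) * (Y : ℝ) ^ (ε / 2)) := by ring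
    _ = _ := by
        rw [← Real.rpow_add hY0]
        congr 2
        ring

end Pool.Agent.L7h27.AP
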