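import Pool.Agent.L7h27.AP.Low

/-! Almost primes of the form `n ^ 2 + 1` in almost all residue classes. -/

set_option autoImplicit false

namespace Pool.Agent.L7h27.AP

open Finset Polynomial Filter
open Pool.Agent.W23.DC
open Pool.Agent.Y882
open Pool.Agent.Y882.PX
open Pool.Agent.Y882.SI
open Pool.Agent.Y882.KW

open Classical in
/-- few classes with many bad members -/
theorem bad_cls (Pr : ℕ → Prop) (N M Q : ℕ) (hM : 0 < M) (hQ : 0 < Q) (t : ℝ) (ht : 0 < t) :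
    (((range Q).filter (fun a => ((M : ℝ) / Q) / t <
      (((SC N M Q a).filter Pr).card : ℝ))).card : ℝ) ≤
      (Q : ℝ) / M * t * (((Icc 1 (N + M)).filter Pr).card : ℝ) := by
  have hM0 : (0 : ℝ) < M := by exact_mod_cast hM
  have hQ0 : (0 : ℝ) < Q := by exact_mod_cast hQ
  set A := (range Q).filter (fun a => ((M : ℝ) / Q) / t <
      (((SC N M Q a).filter Pr).card : ℝ)) with hA
  have h1 : (A.card : ℝ) * (((M : ℝ) / Q) / t) ≤ ∑ a ∈ range Q, (((SC N M Q a).filter Pr).card : ℝ) := by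
    calc (A.card : ℝ) * (((M : ℝ) / Q) / t) = ∑ a ∈ A, (((M : ℝ) / Q) / t) := by
          rw [sum_const, nsmul_eq_mul]
      _ ≤ ∑ a ∈ A, (((SC N M Q a).filter Pr).card : ℝ) := by
          apply sum_le_sum
          intro a ha
          rw [hA, mem_filter] at ha
          exact ha.2.le
      _ ≤ _ := sum_le_sum_of_subset_of_nonneg (filter_subset _ _) (fun _ _ _ => Nat.cast_nonneg _)
  have h2 : ∑ a ∈ range Q, (((SC N M Q a).filter Pr).card : ℝ) ≤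
      (((Icc 1 (N + M)).filter Pr).card : ℝ) := by
    have h3 : ((Ioc N (N + M)).filter Pr).card =
        ∑ a ∈ range Q, (((Ioc N (N + M)).filter Pr).filter (fun n => n % Q = a)).card :=
      card_eq_sum_card_fiberwise (fun n _ => by
        rw [mem_coe, mem_range]
        exact Nat.mod_lt _ hQ)
    have h4 : ∑ a ∈ range Q, (((SC N M Q a).filter Pr).card : ℝ) =
        ((((Ioc N (N + M)).filter Pr).card : ℕ) : ℝ) := by
      rw [h3]
      push_cast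
      apply sum_congr rfl
      intro a _
      unfold SC
      rw [filter_filter, filter_filter]
      congr 2
      apply filter_congr
      intro n _
      exact and_comm
    rw [h4]
    have h5 : (Ioc N (N + M)).filter Pr ⊆ (Icc 1 (N + M)).filter Pr := by
      apply filter_subset_filter
      intro n hn
      rw [mem_Ioc] at hn
      rw [mem_Icc]
      omega
    exact_mod_cast card_le_card h5
  have h3 := h1.trans h2
  rw [div_div, mul_div_assoc', div_le_iff₀ (by positivity)] at h3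
  have h4 : (A.card : ℝ) * M ≤ ((Q : ℝ) / M * t * (((Icc 1 (N + M)).filter Pr).card : ℝ)) * M := by
    calc (A.card : ℝ) * M ≤ (((Icc 1 (N + M)).filter Pr).card : ℝ) * (Q * t) := h3
      _ = _ := by field_simp
  exact le_of_mul_le_mul_right h4 hM0

/-- the product outside the modulus -/
theorem loq_eq (Q X : ℕ) (hQ : 0 < Q) (hQX : Q ≤ X) : loq (QF 1) Q X = lo (QF 1) X * lf Q := by
  classical
  have hsub : Q.primeFactors ⊆ (Icc 1 X).filter Nat.Prime := by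
    intro p hp
    have hpp := Nat.prime_of_mem_primeFactors hp
    have hpQ := Nat.le_of_dvd hQ (Nat.dvd_of_mem_primeFactors hp)
    rw [mem_filter, mem_Icc]
    exact ⟨⟨hpp.one_le, by omega⟩, hpp⟩
  unfold loq lo lf
  rw [← prod_sdiff hsub, ← prod_sdiff hsub (f := fun p => (1 - (ro (QF 1) 0 p : ℝ) / p))]
  have e1 : ∏ p ∈ Q.primeFactors, (1 - (rq (QF 1) Q p : ℝ) / p) = 1 := by
    apply prod_eq_one
    intro p hp
    unfold rq
    rw [if_pos (Nat.dvd_of_mem_primeFactors hp)]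
    simp
  have e2 : ∏ p ∈ (Icc 1 X).filter Nat.Prime \ Q.primeFactors, (1 - (rq (QF 1) Q p : ℝ) / p) =
      ∏ p ∈ (Icc 1 X).filter Nat.Prime \ Q.primeFactors, (1 - (ro (QF 1) 0 p : ℝ) / p) := by
    apply prod_congr rfl
    intro p hp
    rw [Finset.mem_sdiff] at hp
    have hpp := (mem_filter.1 hp.1).2
    unfold rq
    rw [if_neg]
    intro hd
    exact hp.2 (Nat.mem_primeFactors.2 ⟨hpp, hd, hQ.ne'⟩)
  have h0 : ∏ p ∈ Q.primeFactors, (1 - (ro (QF 1) 0 p : ℝ) / p) ≠ 0 := by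
    apply prod_ne_zero_iff.2
    intro p hp
    exact (fac_pos 1 p (Nat.prime_of_mem_primeFactors hp)).1.ne'
  rw [e1, e2, mul_one, prod_inv_distrib, mul_assoc, mul_inv_cancel₀ h0, mul_one]

/-- the number of the `n ≡ a` modulo `Q` in `(N, N + M]` such that `n ^ 2 + 1` has at most `r` prime
factors, all at least `z` -/
noncomputable def apc (r : ℕ) (z : ℝ) (N M Q a : ℕ) : ℕ := by
  classical
  exact ((SC N M Q a).filter (fun n : ℕ => (n ^ 2 + 1).primeFactorsList.length ≤ r ∧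
    ∀ p : ℕ, p.Prime → p ∣ n ^ 2 + 1 → z ≤ p)).card

/-- the number of the bad members -/
noncomputable def bct (X : ℕ) (ζ υ : ℝ) (N M Q a : ℕ) : ℕ := by
  classical
  exact ((SC N M Q a).filter (Bad 1 X ζ υ)).card

/-- few classes with many bad members -/
theorem bct_cls (ζ υ : ℝ) (hζ : 0 < ζ) (hζυ : ζ ≤ υ) (hυ : υ ≤ 1) : ∃ Y0 : ℕ, ∀ X : ℕ, Y0 ≤ X →
    ∀ (N M Q : ℕ) (t : ℝ), 0 < M → 0 < Q → 0 < t →
      (((range Q).filter (fun a => ((M : ℝ) / Q) / t < (bct X ζ υ N M Q a : ℝ))).card : ℝ) ≤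
      (Q : ℝ) / M * t * (4 * ((((N + M : ℕ) : ℝ)) / (X : ℝ) ^ ζ) + 2 * (X : ℝ) ^ υ) := by
  classical
  obtain ⟨Y3, HB⟩ := bad_count 1 one_ne_zero ζ υ hζ hζυ hυ
  refine ⟨Y3, fun X hX N M Q t hM hQ ht => ?_⟩
  have h1 := bad_cls (Bad 1 X ζ υ) N M Q hM hQ t ht
  have h2 := HB X hX (N + M)
  refine le_trans (le_of_eq ?_) (h1.trans (mul_le_mul_of_nonneg_left h2 (by positivity)))
  unfold bct
  congr!

/-- the members at which the weight is positive -/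
theorem pW_le (X : ℕ) (hX : 2 ≤ X) (ζ υ lam S : ℝ) (r : ℕ) (hζυ : ζ ≤ υ) (hυ0 : 0 < υ) (hυ1 : υ ≤ 1)
    (hlam : 0 < lam) (hr : 1 / lam + S / υ ≤ r + 1) (h5 : 5 ≤ (X : ℝ) ^ (S - 2)) (N M Q a : ℕ)
    (hNX : N ≤ X) (hMX : M ≤ X) :
    (pW (QF 1) X ζ υ lam (lam / υ) N M Q a).card ≤
        apc r ((X : ℝ) ^ ζ) N M Q a + bct X ζ υ N M Q a := by
  classical
  have hX0 : (0 : ℝ) < X := by exact_mod_cast (by omega : 0 < X)
  have hX1 : (1 : ℝ) ≤ X := by exact_mod_cast (by omega : 1 ≤ X)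
  unfold apc bct
  refine (card_le_card ?_).trans (card_union_le _ _)
  intro n hn
  unfold pW at hn
  rw [mem_filter] at hn
  obtain ⟨hn1, hn2⟩ := hn
  rw [mem_union, mem_filter, mem_filter]
  by_cases hb : Bad 1 X ζ υ n
  · exact Or.inr ⟨hn1, hb⟩
  left
  refine ⟨hn1, ?_⟩
  have hnX : n ≤ 2 * X := by
    unfold SC at hn1
    rw [mem_filter, mem_Ioc] at hn1
    omega
  rw [QF_eval] at hn2
  have ee : ((n : ℤ) ^ 2 + 1).natAbs = n ^ 2 + 1 := by
    have : (n : ℤ) ^ 2 + 1 = ((n ^ 2 + 1 : ℕ) : ℤ) := by push_cast; ring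
    rw [this, Int.natAbs_natCast]
  rw [ee] at hn2
  have hsize : ((n ^ 2 + 1 : ℕ) : ℝ) ≤ (X : ℝ) ^ S := by
    have u2 : (n : ℝ) ≤ 2 * X := by exact_mod_cast hnX
    have u3 : (n : ℝ) ^ 2 ≤ 4 * (X : ℝ) ^ 2 := by
      have := pow_le_pow_left₀ (Nat.cast_nonneg n) u2 2
      linarith [mul_pow (2 : ℝ) X 2]
    have u4 : (1 : ℝ) ≤ (X : ℝ) ^ 2 := one_le_pow₀ hX1
    have u5 : ((n ^ 2 + 1 : ℕ) : ℝ) ≤ 5 * (X : ℝ) ^ 2 := by
      push_cast
      linarith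
    refine u5.trans ?_
    have u6 : 5 * (X : ℝ) ^ 2 ≤ (X : ℝ) ^ (S - 2) * (X : ℝ) ^ 2 :=
      mul_le_mul_of_nonneg_right h5 (by positivity)
    refine u6.trans (le_of_eq ?_)
    rw [← Real.rpow_natCast (X : ℝ) 2, ← Real.rpow_add hX0]
    congr 1
    push_cast
    ring
  exact almost X hX ζ υ lam S r hζυ hυ0 hυ1 hlam hr (n ^ 2 + 1) (Nat.succ_ne_zero _)
    hsize hn2 (by
      intro q hq hqd
      apply hb
      refine ⟨q, hq, ?_⟩
      exact_mod_cast hqd)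

open Classical in
theorem finW (r : ℕ) (τ ζ υ lam S : ℝ) (hζ : 0 < ζ) (h2 : 2 * ζ < τ)
    (h4 : τ ≤ 4 * ζ) (hτ : τ < 1) (hζυ : ζ ≤ υ) (hυτ : υ < τ) (hlam : 0 < lam)
    (hJ0 : ∫ x in ζ..υ, (lam - lam / υ * x) / (τ - x) / x < Real.log (τ / ζ - 1) / τ) (hS : 2 < S)
    (hr : 1 / lam + S / υ ≤ r + 1) (κ : ℝ) (hκ1 : υ ≤ κ) (hκ2 : 1 - ζ ≤ κ) (ε : ℝ) (hε : 0 < ε) :
    ∃ δ : ℝ, 0 < δ ∧ ∀ᶠ X : ℕ in atTop, ∀ N M Q : ℕ, N ≤ X → 1 ≤ M → M ≤ X → 1 ≤ Q → Q ≤ X →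
      (((range Q).filter (fun a => (a ^ 2 + 1).Coprime Q ∧ (apc r ((X : ℝ) ^ ζ) N M Q a : ℝ) <
        δ * (lf Q * ((M : ℝ) / Q) / Real.log X))).card : ℝ) ≤
      ((M + (X : ℝ) ^ (2 * τ)) * ((Q : ℝ) / M) ^ 2 + (Q : ℝ) / M * (X : ℝ) ^ κ) * (X : ℝ) ^ ε := by
  have hns : ¬ IsSquare (-(1 : ℤ)) := by
    rintro ⟨r, hr⟩
    nlinarith [mul_self_nonneg r]
  have hυ0 : 0 < υ := by linarith
  have hυ1 : υ ≤ 1 := by linarith
  obtain ⟨δ, ε₁, η, hδ, hε₁, hε₁ζ, hε₁β, hη, Y1, HE⟩ := engW 2 1 τ ζ υ lam (lam / υ) (ε / 2)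
    one_pos hζ h2 h4 hτ hζυ hυτ hlam.le (by positivity) (by rw [div_mul_cancel₀ _ hυ0.ne']) hJ0
    (by linarith)
  obtain ⟨Y2, HM⟩ := mer_quad 1 hns ε₁ υ (η / 2) hε₁ hυ1 (by linarith)
  obtain ⟨Y5, HD⟩ := mer_drop ε₁ υ η hε₁ hη
  obtain ⟨c, hc, HL⟩ := lo_quad 1 hns
  obtain ⟨Y3, HB⟩ := bct_cls ζ υ hζ hζυ hυ1
  have ev1 : ∀ᶠ Y : ℕ in atTop, (10 : ℝ) ≤ (Y : ℝ) ^ (ε / 2) :=
    ((tendsto_rpow_atTop (by linarith)).comp tendsto_natCast_atTop_atTop).eventually_ge_atTop _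
  have ev3 : ∀ᶠ Y : ℕ in atTop, 2 / (δ * c) * Real.log Y ≤ (Y : ℝ) ^ (ε / 2) := by
    have h1 := (isLittleO_log_rpow_atTop (show 0 < ε / 2 by linarith)).bound
      (show (0 : ℝ) < δ * c / 2 by positivity)
    filter_upwards [tendsto_natCast_atTop_atTop.eventually h1, eventually_ge_atTop 1] with Y hY hY1
    have hY1r : (1 : ℝ) ≤ Y := by exact_mod_cast hY1
    rw [Real.norm_of_nonneg (Real.log_nonneg hY1r), Real.norm_of_nonneg (by positivity)] at hY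
    rw [div_mul_eq_mul_div, div_le_iff₀ (by positivity)]
    linarith
  have ev4 : ∀ᶠ Y : ℕ in atTop, (5 : ℝ) ≤ (Y : ℝ) ^ (S - 2) :=
    ((tendsto_rpow_atTop (by linarith)).comp tendsto_natCast_atTop_atTop).eventually_ge_atTop _
  refine ⟨δ * c / 2, by positivity, ?_⟩
  filter_upwards [ev1, ev3, ev4, eventually_ge_atTop 3, eventually_ge_atTop Y1,
    eventually_ge_atTop Y2, eventually_ge_atTop Y3, eventually_ge_atTop Y5] with X e1 e3 e4 e5
    hX1 hX2 hX3 hX5 N M Q hNX hM hMX hQ hQX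
  have hXr : (3 : ℝ) ≤ X := by exact_mod_cast e5
  have hX0 : (0 : ℝ) < X := by linarith
  have hX1r : (1 : ℝ) ≤ X := by linarith
  have hlX : 0 < Real.log X := Real.log_pos (by linarith)
  have hM0 : (0 : ℝ) < M := by exact_mod_cast hM
  have hQ0 : (0 : ℝ) < Q := by exact_mod_cast hQ
  have hMer := HD X hX5 Q hQ hQX (fun p => (ro (QF 1) 0 p : ℝ) / p) (rho_abs 1) (HM X hX2)
  have hMer2 : Mer (pr X ε₁ υ) (tt X) (fun p => (rq (QF 1) Q p : ℝ) / p) ε₁ υ η := by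
    have : (fun p : ℕ => (rq (QF 1) Q p : ℝ) / p) =
        (fun p : ℕ => if p ∣ Q then 0 else (ro (QF 1) 0 p : ℝ) / p) := by
      funext p
      unfold rq
      split_ifs <;> simp
    rw [this]
    exact hMer
  have hA := HE X hX1 (QF 1) N M Q X (fun p hp => ro_quad_le 1 p hp) hM hQ hQX
    (by rw [Real.rpow_one]) hMer2
  rw [loq_eq Q X hQ hQX] at hA
  set H : ℝ := (M : ℝ) / Q with hH
  have hH0 : 0 < H := by positivity
  have hL := HL X e5
  set t : ℝ := (X : ℝ) ^ (ε / 2) with ht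
  have ht0 : 0 < t := by positivity
  have hB := HB X hX3 N M Q t hM hQ ht0
  have hlf := lf_one Q
  set A1 := (range Q).filter (fun a => Adm (QF 1) Q a ∧
    ((pW (QF 1) X ζ υ lam (lam / υ) N M Q a).card : ℝ) < δ * H * (lo (QF 1) X * lf Q)) with hA1
  set A2 := (range Q).filter (fun a => H / t < (bct X ζ υ N M Q a : ℝ)) with hA2
  have hsub : (range Q).filter (fun a => (a ^ 2 + 1).Coprime Q ∧
      (apc r ((X : ℝ) ^ ζ) N M Q a : ℝ) <
        δ * c / 2 * (lf Q * H / Real.log X)) ⊆ A1 ∪ A2 := by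
    intro a ha
    rw [mem_filter] at ha
    rw [mem_union]
    by_contra hcon
    push Not at hcon
    obtain ⟨hc1, hc2⟩ := hcon
    have hadm : Adm (QF 1) Q a := by
      intro p hp hpQ hd
      rw [QF_eval] at hd
      have h1 : p ∣ a ^ 2 + 1 := by exact_mod_cast hd
      have h2 := Nat.dvd_gcd h1 hpQ
      rw [ha.2.1] at h2
      exact hp.one_lt.ne' (Nat.dvd_one.1 h2)
    have g1 : δ * H * (lo (QF 1) X * lf Q) ≤
        ((pW (QF 1) X ζ υ lam (lam / υ) N M Q a).card : ℝ) := by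
      by_contra h'
      exact hc1 (by rw [hA1, mem_filter]; exact ⟨ha.1, hadm, not_le.1 h'⟩)
    have g2 : (bct X ζ υ N M Q a : ℝ) ≤ H / t := by
      by_contra h'
      exact hc2 (by rw [hA2, mem_filter]; exact ⟨ha.1, not_le.1 h'⟩)
    have g3 := pW_le X (by omega) ζ υ lam S r hζυ hυ0 hυ1 hlam hr e4 N M Q a hNX hMX
    have g3r : ((pW (QF 1) X ζ υ lam (lam / υ) N M Q a).card : ℝ) ≤
        (apc r ((X : ℝ) ^ ζ) N M Q a : ℝ) + (bct X ζ υ N M Q a : ℝ) := by exact_mod_cast g3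
    have g5 : δ * H * (c / Real.log X * lf Q) ≤ δ * H * (lo (QF 1) X * lf Q) := by
      apply mul_le_mul_of_nonneg_left _ (by positivity)
      exact mul_le_mul_of_nonneg_right hL (by linarith)
    have g6 : H / t ≤ δ * H * (c / Real.log X) / 2 := by
      rw [div_mul_eq_mul_div, div_le_iff₀ (by positivity)] at e3
      rw [div_le_iff₀ ht0]
      have u6 : δ * H * (c / Real.log X) / 2 * t = H * (δ * c * t / (2 * Real.log X)) := by
        field_simp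
      rw [u6]
      apply le_mul_of_one_le_right hH0.le
      rw [le_div_iff₀ (by positivity)]
      linarith
    have g8 : 0 ≤ δ * H * (c / Real.log X) / 2 := by positivity
    have g9 : δ * H * (c / Real.log X) / 2 ≤ δ * H * (c / Real.log X) / 2 * lf Q :=
      le_mul_of_one_le_right g8 hlf
    have g10 : δ * c / 2 * (lf Q * H / Real.log X) =
        δ * H * (c / Real.log X * lf Q) - δ * H * (c / Real.log X) / 2 * lf Q := by
      field_simp
      ring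
    linarith [ha.2.2]
  have r1 : (A1.card : ℝ) ≤ (M + (X : ℝ) ^ (2 * τ)) * ((Q : ℝ) / M) ^ 2 * (X : ℝ) ^ ε := by
    refine hA.trans ?_
    apply mul_le_mul_of_nonneg_left _ (by positivity)
    exact Real.rpow_le_rpow_of_exponent_le hX1r (by linarith)
  have r2 : (A2.card : ℝ) ≤ (Q : ℝ) / M * (X : ℝ) ^ κ * (X : ℝ) ^ ε := by
    refine hB.trans ?_
    have u2 : (X : ℝ) ^ υ ≤ (X : ℝ) ^ κ := Real.rpow_le_rpow_of_exponent_le hX1r hκ1
    have u5 : (X : ℝ) ^ (1 - ζ) ≤ (X : ℝ) ^ κ := Real.rpow_le_rpow_of_exponent_le hX1r hκ2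
    have u6 : (X : ℝ) ^ (1 - ζ) = X / (X : ℝ) ^ ζ := by
      rw [Real.rpow_sub hX0, Real.rpow_one]
    have u7 : (((N + M : ℕ) : ℝ)) ≤ 2 * X := by
      have : N + M ≤ 2 * X := by omega
      exact_mod_cast this
    have u3 : (((N + M : ℕ) : ℝ)) / (X : ℝ) ^ ζ ≤ 2 * (X : ℝ) ^ κ := by
      have u8 : (((N + M : ℕ) : ℝ)) / (X : ℝ) ^ ζ ≤ (2 * X) / (X : ℝ) ^ ζ :=
        div_le_div_of_nonneg_right u7 (by positivity)
      have u9 : (2 * (X : ℝ)) / (X : ℝ) ^ ζ = 2 * (X : ℝ) ^ (1 - ζ) := by rw [u6]; ring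
      linarith
    have u10 : 0 ≤ (Q : ℝ) / M * t := by positivity
    have u11 : 4 * ((((N + M : ℕ) : ℝ)) / (X : ℝ) ^ ζ) + 2 * (X : ℝ) ^ υ ≤ t * (X : ℝ) ^ κ := by
      have : 10 * (X : ℝ) ^ κ ≤ t * (X : ℝ) ^ κ := mul_le_mul_of_nonneg_right e1 (by positivity)
      linarith
    have u12 : (X : ℝ) ^ ε = t * t := by
      rw [ht, ← Real.rpow_add hX0]
      congr 1
      ring
    calc (Q : ℝ) / M * t * (4 * ((((N + M : ℕ) : ℝ)) / (X : ℝ) ^ ζ) + 2 * (X : ℝ) ^ υ) ≤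
        (Q : ℝ) / M * t * (t * (X : ℝ) ^ κ) := mul_le_mul_of_nonneg_left u11 u10
      _ = (Q : ℝ) / M * (X : ℝ) ^ κ * (t * t) := by ring
      _ = _ := by rw [u12]
  have r3 : (((range Q).filter (fun a => (a ^ 2 + 1).Coprime Q ∧
      (apc r ((X : ℝ) ^ ζ) N M Q a : ℝ) <
        δ * c / 2 * (lf Q * H / Real.log X))).card : ℝ) ≤ ((A1 ∪ A2).card : ℝ) := by
    exact_mod_cast card_le_card hsub
  have r4 : ((A1 ∪ A2).card : ℝ) ≤ A1.card + A2.card := by exact_mod_cast card_union_le _ _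
  rw [add_mul]
  linarith

end Pool.Agent.L7h27.AP
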