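import Pool.Agent.L7h27.AP.Low2

/-! Almost primes of the form `n ^ 2 + 1` in almost all residue classes: the numerical parameters. -/

set_option autoImplicit false

namespace Pool.Agent.L7h27.AP

open Finset Filter
open Pool.Agent.Y882
open Pool.Agent.Y882.KW

open Classical in
theorem finAllW (r : ℕ) (t z : ℝ)
    (hpar : (r = 5 ∧ 1 / 2 ≤ t ∧ z = 2 / 5 * t) ∨ (r = 4 ∧ 269 / 500 ≤ t ∧ z = t / 4) ∨
      (r = 3 ∧ 29 / 40 ≤ t ∧ z = t / 4)) (ht : t < 1) (ε : ℝ) (hε : 0 < ε) :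
    ∃ δ : ℝ, 0 < δ ∧ ∀ᶠ X : ℕ in atTop, ∀ N M Q : ℕ, N ≤ X → 1 ≤ M → M ≤ X → 1 ≤ Q → Q ≤ X →
      (((range Q).filter (fun a => (a ^ 2 + 1).Coprime Q ∧ (apc r ((X : ℝ) ^ z) N M Q a : ℝ) <
        δ * (lf Q * ((M : ℝ) / Q) / Real.log X))).card : ℝ) ≤
      ((M + (X : ℝ) ^ (2 * t)) * ((Q : ℝ) / M) ^ 2 + (Q : ℝ) / M * (X : ℝ) ^ (24 / 25 : ℝ)) *
        (X : ℝ) ^ ε := by
  have h3 : ∀ r : ℕ, 9 / 8 + 2001 / 1000 / (24 / 25 * t) ≤ (r : ℝ) + 1 → 29 / 100 < t →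
      ∃ δ : ℝ, 0 < δ ∧ ∀ᶠ X : ℕ in atTop, ∀ N M Q : ℕ, N ≤ X → 1 ≤ M → M ≤ X → 1 ≤ Q → Q ≤ X →
      (((range Q).filter (fun a => (a ^ 2 + 1).Coprime Q ∧
        (apc r ((X : ℝ) ^ (t / 4)) N M Q a : ℝ) <
        δ * (lf Q * ((M : ℝ) / Q) / Real.log X))).card : ℝ) ≤
      ((M + (X : ℝ) ^ (2 * t)) * ((Q : ℝ) / M) ^ 2 + (Q : ℝ) / M * (X : ℝ) ^ (24 / 25 : ℝ)) *
        (X : ℝ) ^ ε := by
    intro r hr h29
    exact finW r t (t / 4) (24 / 25 * t) (8 / 9) (2001 / 1000) (by linarith) (by linarith)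
      (by linarith) ht (by linarith) (by linarith) (by norm_num)
      (cond_A t (8 / 9) (by linarith) (by norm_num) (by norm_num)) (by norm_num)
      (by norm_num at hr ⊢; linarith) (24 / 25) (by linarith) (by linarith) ε hε
  rcases hpar with ⟨hr, h1, hz⟩ | ⟨hr, h1, hz⟩ | ⟨hr, h1, hz⟩
  · subst hr
    subst hz
    refine finW 5 t (2 / 5 * t) (9 / 10 * t) (20 / 31) (1001 / 500) (by linarith) (by linarith)
      (by linarith) ht (by linarith) (by linarith) (by norm_num)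
      (cond_B t (20 / 31) (by linarith) (by norm_num) (by norm_num)) (by norm_num) ?_
      (24 / 25) (by linarith) (by linarith) ε hε
    have : (1001 / 500 : ℝ) / (9 / 10 * t) ≤ (1001 / 500) / (9 / 10 * (1 / 2)) :=
      div_le_div_of_nonneg_left (by norm_num) (by norm_num) (by linarith)
    norm_num at this ⊢
    linarith
  · subst hr
    subst hz
    refine h3 4 ?_ (by linarith)
    have : (2001 / 1000 : ℝ) / (24 / 25 * t) ≤ (2001 / 1000) / (24 / 25 * (269 / 500)) :=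
      div_le_div_of_nonneg_left (by norm_num) (by norm_num) (by linarith)
    norm_num at this ⊢
    linarith
  · subst hr
    subst hz
    refine h3 3 ?_ (by linarith)
    have : (2001 / 1000 : ℝ) / (24 / 25 * t) ≤ (2001 / 1000) / (24 / 25 * (29 / 40)) :=
      div_le_div_of_nonneg_left (by norm_num) (by norm_num) (by linarith)
    norm_num at this ⊢
    linarith

end Pool.Agent.L7h27.AP
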