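import Pool.Agent.L7h27.AP.Upper
import Pool.Agent.L7h2.QS.Upper
import Pool.Agent.L7h2.QS.Dens2

/-! Prime values of a quadratic polynomial in residue classes: the upper bound. -/

set_option autoImplicit false

namespace Pool.Agent.L7h27.AP

open Finset Polynomial Filter Topology
open Pool.Agent.W23.DC
open Pool.Agent.Y882
open Pool.Agent.Y882.PX
open Pool.Agent.Y882.SI
open Pool.Agent.Y882.JR (vv A0_eq)
open Pool.Agent.R498.MT (QG QG_eval)
open Pool.Agent.L7h2.QS (Adm ro_QG_le ro_QG_two mer_QG' lo_QG densG vv_eqG RG densG_lim)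

/-- the number of the `n ≡ a` modulo `Q` in `(N, N + M]` with `A n ^ 2 + B n + C` prime -/
def prcG (A B C : ℤ) (N M Q a : ℕ) : ℕ :=
  ((SC N M Q a).filter (fun n : ℕ => (A * (n : ℤ) ^ 2 + B * n + C).toNat.Prime)).card

/-- the factor of the modulus -/
noncomputable def lfG (G : ℤ[X]) (Q : ℕ) : ℝ := ∏ p ∈ Q.primeFactors, (1 - (ro G 0 p : ℝ) / p)⁻¹

theorem facG (G : ℤ[X]) (h : ∀ p : ℕ, p.Prime → ro G 0 p < p) (p : ℕ) (hp : p.Prime) :
    0 < 1 - (ro G 0 p : ℝ) / p ∧ 1 - (ro G 0 p : ℝ) / p ≤ 1 := by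
  have hp0 : (0 : ℝ) < p := by exact_mod_cast hp.pos
  constructor
  · rw [sub_pos, div_lt_one hp0]
    exact_mod_cast h p hp
  · have : 0 ≤ (ro G 0 p : ℝ) / p := by positivity
    linarith

theorem lfG_one (G : ℤ[X]) (h : ∀ p : ℕ, p.Prime → ro G 0 p < p) (Q : ℕ) : 1 ≤ lfG G Q := by
  unfold lfG
  rw [prod_inv_distrib, one_le_inv_iff₀]
  constructor
  · apply prod_pos
    intro p hp
    exact (facG G h p (Nat.prime_of_mem_primeFactors hp)).1
  · apply prod_le_one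
    · intro p hp
      exact (facG G h p (Nat.prime_of_mem_primeFactors hp)).1.le
    · intro p hp
      exact (facG G h p (Nat.prime_of_mem_primeFactors hp)).2

/-- products over subsets -/
theorem prodG_sub (G : ℤ[X]) (h : ∀ p : ℕ, p.Prime → ro G 0 p < p) (S T : Finset ℕ) (hST : S ⊆ T)
    (hT : ∀ p ∈ T, p.Prime) :
    ∏ p ∈ T, (1 - (ro G 0 p : ℝ) / p) ≤ ∏ p ∈ S, (1 - (ro G 0 p : ℝ) / p) := by
  classical
  rw [← prod_sdiff hST]
  calc (∏ p ∈ T \ S, (1 - (ro G 0 p : ℝ) / p)) * ∏ p ∈ S, (1 - (ro G 0 p : ℝ) / p) ≤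
      1 * ∏ p ∈ S, (1 - (ro G 0 p : ℝ) / p) := by
        apply mul_le_mul_of_nonneg_right
        · apply prod_le_one
          · intro p hp
            exact (facG G h p (hT p (mem_sdiff.1 hp).1)).1.le
          · intro p hp
            exact (facG G h p (hT p (mem_sdiff.1 hp).1)).2
        · exact prod_nonneg fun p hp => (facG G h p (hT p (hST hp))).1.le
    _ = _ := one_mul _

theorem vqG_le (G : ℤ[X]) (h : ∀ p : ℕ, p.Prime → ro G 0 p < p) (Y : ℕ) (ζ : ℝ) (Q : ℕ)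
    (hQ : 0 < Q) : vq G Y ζ Q ≤ vv G Y ζ * lfG G Q := by
  classical
  have h1 : vv G Y ζ = (∏ p ∈ (PZ Y ζ).filter (fun p => p ∣ Q), (1 - (ro G 0 p : ℝ) / p)) *
      vq G Y ζ Q := by
    unfold vv vq PQ
    rw [prod_filter_mul_prod_filter_not]
  have h2 : 0 < vq G Y ζ Q := by
    unfold vq PQ
    apply prod_pos
    intro p hp
    exact (facG G h p (PZ_prime Y ζ p (mem_filter.1 hp).1)).1
  have h3 : ∏ p ∈ Q.primeFactors, (1 - (ro G 0 p : ℝ) / p) ≤
      ∏ p ∈ (PZ Y ζ).filter (fun p => p ∣ Q), (1 - (ro G 0 p : ℝ) / p) := by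
    apply prodG_sub G h
    · intro p hp
      rw [mem_filter] at hp
      exact Nat.mem_primeFactors.2 ⟨PZ_prime Y ζ p hp.1, hp.2, hQ.ne'⟩
    · intro p hp
      exact Nat.prime_of_mem_primeFactors hp
  have h4 : 0 < ∏ p ∈ Q.primeFactors, (1 - (ro G 0 p : ℝ) / p) :=
    prod_pos fun p hp => (facG G h p (Nat.prime_of_mem_primeFactors hp)).1
  unfold lfG
  rw [prod_inv_distrib, h1, ← div_eq_mul_inv, le_div_iff₀ h4]
  rw [mul_comm]
  exact mul_le_mul_of_nonneg_right h3 h2.le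

theorem lo_le_vqG (G : ℤ[X]) (h : ∀ p : ℕ, p.Prime → ro G 0 p < p) (Y : ℕ) (ζ : ℝ) (Q : ℕ) :
    lo G Y ≤ vq G Y ζ Q := by
  unfold lo vq PQ
  apply prodG_sub G h
  · intro p hp
    rw [mem_filter] at hp
    have h1 := hp.1
    unfold PZ at h1
    rw [mem_filter] at h1
    rw [mem_filter]
    exact ⟨h1.1, h1.2.1⟩
  · intro p hp
    exact (mem_filter.1 hp).2

theorem ro_lt {A B C : ℤ} (hQ : Adm A B C) (p : ℕ) (hp : p.Prime) : ro (QG A B C) 0 p < p := by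
  rcases hp.eq_two_or_odd' with h2 | h2
  · have := ro_QG_two hQ
    rw [h2]
    omega
  · have h3 := ro_QG_le hQ p hp
    have := hp.two_le
    rcases h2 with ⟨k, hk⟩
    omega

theorem rhoG_abs {A B C : ℤ} (hQ : Adm A B C) (p : ℕ) (hp : p.Prime) :
    |(ro (QG A B C) 0 p : ℝ) / p| ≤ 2 / p := by
  rw [abs_of_nonneg (by positivity)]
  apply div_le_div_of_nonneg_right _ (Nat.cast_nonneg _)
  exact_mod_cast ro_QG_le hQ p hp

/-- the values at large arguments -/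
theorem val_large (A B C : ℤ) (hA0 : 0 < A) (τ : ℝ) (hτ0 : 0 < τ) : ∀ᶠ X : ℕ in atTop, ∀ n : ℕ,
    ⌊2 * (X : ℝ) ^ (τ / 2)⌋₊ < n → (X : ℝ) ^ τ ≤ ((A * (n : ℤ) ^ 2 + B * n + C : ℤ) : ℝ) := by
  have hXr : Tendsto (fun X : ℕ => (X : ℝ)) atTop atTop := tendsto_natCast_atTop_atTop
  have ev0 : ∀ᶠ X : ℕ in atTop, |(B : ℝ)| + |(C : ℝ)| + 1 ≤ (X : ℝ) ^ (τ / 2) :=
    ((tendsto_rpow_atTop (by linarith)).comp hXr).eventually_ge_atTop _
  filter_upwards [eventually_gt_atTop 0, ev0] with X hX e0 n hn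
  have hX0 : (0 : ℝ) < X := by exact_mod_cast hX
  have h1 : 2 * (X : ℝ) ^ (τ / 2) < n := Nat.lt_of_floor_lt hn
  have h2 : (X : ℝ) ^ τ = ((X : ℝ) ^ (τ / 2)) ^ 2 := by
    rw [← Real.rpow_natCast, ← Real.rpow_mul hX0.le]
    norm_num
  rw [h2]
  have h3 : 0 ≤ (X : ℝ) ^ (τ / 2) := by positivity
  set y := (X : ℝ) ^ (τ / 2) with hy
  have hA1 : (1 : ℝ) ≤ A := by exact_mod_cast hA0
  have hn0 : (0 : ℝ) ≤ n := Nat.cast_nonneg _
  have hb := neg_abs_le (B : ℝ)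
  have hc := neg_abs_le (C : ℝ)
  have hb0 := abs_nonneg (B : ℝ)
  have hc0 := abs_nonneg (C : ℝ)
  push_cast
  have k1 : (n : ℝ) ^ 2 ≤ A * (n : ℝ) ^ 2 := by nlinarith [sq_nonneg (n : ℝ)]
  have k2 : -(|(B : ℝ)| * n) ≤ B * n := by nlinarith
  have k3 : (1 : ℝ) ≤ n := by linarith
  have k4 : |(C : ℝ)| ≤ |(C : ℝ)| * n := by nlinarith
  have k5 : (|(B : ℝ)| + |(C : ℝ)|) * n ≤ (n : ℝ) ^ 2 / 2 := by nlinarith
  have k6 : y ^ 2 ≤ (n : ℝ) ^ 2 / 2 := by nlinarith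
  nlinarith

/-- primes and rough values -/
theorem prcG_le (A B C : ℤ) (X : ℕ) (hX : 2 ≤ X) (τ : ℝ)
    (hv : ∀ n : ℕ, ⌊2 * (X : ℝ) ^ (τ / 2)⌋₊ < n →
      (X : ℝ) ^ τ ≤ ((A * (n : ℤ) ^ 2 + B * n + C : ℤ) : ℝ))
    (N M Q a : ℕ) (hQ : 0 < Q) (ha : a < Q) :
    (prcG A B C N M Q a : ℝ) ≤ rgq (QG A B C) X τ N M Q a + (2 * (X : ℝ) ^ (τ / 2) / Q + 1) := by
  classical
  have hX0 : (0 : ℝ) < X := by exact_mod_cast (by omega : 0 < X)
  set R : ℕ := ⌊2 * (X : ℝ) ^ (τ / 2)⌋₊ with hR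
  have hRle : (R : ℝ) ≤ 2 * (X : ℝ) ^ (τ / 2) := Nat.floor_le (by positivity)
  have h1 : (SC N M Q a).filter (fun n : ℕ => (A * (n : ℤ) ^ 2 + B * n + C).toNat.Prime) ⊆
      (SC N M Q a).filter
        (fun n : ℕ => ∀ p ∈ PQ X τ Q, ¬ p ∣ ((QG A B C).eval (n : ℤ)).natAbs) ∪ SC 0 R Q a := by
    intro n hn
    rw [mem_filter] at hn
    rw [mem_union]
    by_cases hnR : R < n
    · left
      rw [mem_filter]
      refine ⟨hn.1, fun p hp hd => ?_⟩
      have hpp := PZ_prime X τ p (mem_filter.1 hp).1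
      rw [QG_eval] at hd
      have hval := hv n hnR
      set v : ℤ := A * (n : ℤ) ^ 2 + B * n + C with hvd
      have hv0 : (0 : ℝ) < v := lt_of_lt_of_le (by positivity) hval
      have hv0' : 0 < v := by exact_mod_cast hv0
      have e0 : v.natAbs = v.toNat := by omega
      rw [e0] at hd
      have e2 : p = v.toNat := (Nat.prime_dvd_prime_iff_eq hpp hn.2).1 hd
      have e3 : (p : ℝ) < (X : ℝ) ^ τ := by
        have h3 := (mem_filter.1 hp).1
        unfold PZ at h3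
        rw [mem_filter] at h3
        exact (tt_lt X p τ hX hpp.pos).1 h3.2.2
      have e4 : ((v.toNat : ℕ) : ℤ) = v := Int.toNat_of_nonneg hv0'.le
      have e5 : (p : ℝ) = (v : ℝ) := by
        rw [e2]
        exact_mod_cast e4
      linarith
    · right
      push Not at hnR
      have h2 := hn.1
      unfold SC at h2 ⊢
      rw [mem_filter, mem_Ioc] at h2 ⊢
      refine ⟨⟨by omega, by omega⟩, h2.2⟩
  have h2 : (prcG A B C N M Q a : ℝ) ≤ rgq (QG A B C) X τ N M Q a + (SC 0 R Q a).card := by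
    unfold prcG rgq
    exact_mod_cast (card_le_card h1).trans (card_union_le _ _)
  have h3 := cls_card 0 R Q a hQ ha
  change |((SC 0 R Q a).card : ℝ) - (R : ℝ) / Q| ≤ 1 at h3
  have h4 := (abs_le.1 h3).2
  have h5 : (R : ℝ) / Q ≤ 2 * (X : ℝ) ^ (τ / 2) / Q :=
    div_le_div_of_nonneg_right hRle (Nat.cast_nonneg _)
  linarith

open Classical in
theorem mainCG {A B C : ℤ} (hQd : Adm A B C) (hA0 : 0 < A) (L : ℝ) (hL0 : 0 < L)
    (hL : Tendsto (RG A B C) atTop (𝓝 L)) : ∀ τ δ ε : ℝ, 0 < τ → τ < 1 → 0 < δ → 0 < ε →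
      ∀ᶠ X : ℕ in atTop, ∀ N M Q : ℕ, 1 ≤ M → 1 ≤ Q → Q ≤ X →
        (((range Q).filter (fun a =>
        (4 / τ + δ) * (L / 2 * lfG (QG A B C) Q * ((M : ℝ) / Q) / Real.log X) <
          (prcG A B C N M Q a : ℝ))).card : ℝ) ≤
        (M + (X : ℝ) ^ (2 * τ)) * ((Q : ℝ) / M) ^ 2 * (X : ℝ) ^ ε := by
  obtain ⟨A0, F, f, hSF⟩ := Pool.Agent.W366.DC.SFX
  have hA : A0 = 2 * Real.exp Real.eulerMascheroniConstant :=
    A0_eq Pool.Agent.Y445.JRB.t hSF
  intro τ δ ε hτ0 hτ hδ hε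
  have hz := densG_lim hQd L hL
  have hro := ro_lt hQd
  have hF1 : F 1 = A0 := by rw [hSF.F3 1 le_rfl (by norm_num), div_one]
  set γ := Real.eulerMascheroniConstant with hγ
  have hE : 0 < Real.exp γ := Real.exp_pos _
  have hXr : Tendsto (fun X : ℕ => (X : ℝ)) atTop atTop := tendsto_natCast_atTop_atTop
  have hz2 : Tendsto (fun X : ℕ => densG A B C ((X : ℝ) ^ τ) * Real.log X) atTop
      (𝓝 (L * Real.exp (-γ) / τ)) := by
    have h1 := (hz.comp ((tendsto_rpow_atTop hτ0).comp hXr)).div_const τ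
    refine h1.congr' ?_
    filter_upwards [eventually_gt_atTop 0] with X hX
    have hX0 : (0 : ℝ) < X := by exact_mod_cast hX
    simp only [Function.comp]
    rw [Real.log_rpow hX0]
    field_simp
  set δ' : ℝ := δ * Real.exp γ * τ / 8 with hδ'
  have hδ'0 : 0 < δ' := by positivity
  have hlim : Tendsto (fun X : ℕ => (A0 + δ') * (densG A B C ((X : ℝ) ^ τ) * Real.log X)) atTop
      (𝓝 ((A0 + δ') * (L * Real.exp (-γ) / τ))) := hz2.const_mul _
  have hval : (A0 + δ') * (L * Real.exp (-γ) / τ) = (4 / τ + δ / 4) * (L / 2) := by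
    rw [hA, hδ', Real.exp_neg]
    field_simp
    ring
  rw [hval] at hlim
  have ev1 : ∀ᶠ X : ℕ in atTop, (A0 + δ') * (densG A B C ((X : ℝ) ^ τ) * Real.log X) <
      (4 / τ + δ / 2) * (L / 2) := by
    apply hlim.eventually (gt_mem_nhds _)
    have : 0 < δ * L := by positivity
    nlinarith
  obtain ⟨ε₁, η, hε₁, hε₁ζ, hη, Y1, HE⟩ := engC 2 A0 F f hSF τ τ δ' ε hτ0 le_rfl hτ hδ'0 hε
  rw [div_self hτ0.ne', hF1] at HE
  obtain ⟨Y2, HM⟩ := mer_QG' hQd ε₁ τ (η / 2) hε₁ hτ.le (by linarith)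
  obtain ⟨Y3, HD⟩ := mer_drop ε₁ τ η hε₁ hη
  obtain ⟨c, hc, HL⟩ := lo_QG hQd
  have ev2 : ∀ᶠ Y : ℕ in atTop, Real.log Y / c ≤ (Y : ℝ) ^ (ε / 32) := by
    have h1 := (isLittleO_log_rpow_atTop (show 0 < ε / 32 by linarith)).bound hc
    filter_upwards [tendsto_natCast_atTop_atTop.eventually h1, eventually_ge_atTop 1] with Y hY hY1
    have hY1r : (1 : ℝ) ≤ Y := by exact_mod_cast hY1
    rw [Real.norm_of_nonneg (Real.log_nonneg hY1r), Real.norm_of_nonneg (by positivity)] at hY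
    rw [div_le_iff₀ hc]
    linarith
  have ev3 : ∀ᶠ Y : ℕ in atTop, 2 * (Y : ℝ) ^ (-(τ / 2)) + (Y : ℝ) ^ (-ε) ≤
      δ / 2 * (L / 2) / Real.log Y := by
    have h1 := (isLittleO_log_rpow_atTop (show 0 < τ / 2 by linarith)).bound
      (show (0 : ℝ) < δ * L / 16 by positivity)
    have h2 := (isLittleO_log_rpow_atTop hε).bound (show (0 : ℝ) < δ * L / 8 by positivity)
    filter_upwards [tendsto_natCast_atTop_atTop.eventually h1,
      tendsto_natCast_atTop_atTop.eventually h2, eventually_ge_atTop 3] with Y k1 k2 k3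
    have hYr : (3 : ℝ) ≤ Y := by exact_mod_cast k3
    have hY0 : (0 : ℝ) < Y := by linarith
    have hl : 0 < Real.log Y := Real.log_pos (by linarith)
    rw [Real.norm_of_nonneg hl.le, Real.norm_of_nonneg (by positivity)] at k1 k2
    rw [le_div_iff₀ hl, add_mul]
    have q1 : (Y : ℝ) ^ (-(τ / 2)) * Real.log Y ≤ δ * L / 16 := by
      rw [Real.rpow_neg hY0.le, inv_mul_le_iff₀ (by positivity)]
      linarith
    have q2 : (Y : ℝ) ^ (-ε) * Real.log Y ≤ δ * L / 8 := by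
      rw [Real.rpow_neg hY0.le, inv_mul_le_iff₀ (by positivity)]
      linarith
    linarith
  filter_upwards [ev1, ev2, ev3, eventually_ge_atTop 3, eventually_ge_atTop Y1,
    eventually_ge_atTop Y2, eventually_ge_atTop Y3, val_large A B C hA0 τ hτ0]
    with X e1 e2 e3 e5 hX1 hX2 hX3 hvl N M Q hM hQ hQX
  have hXr3 : (3 : ℝ) ≤ X := by exact_mod_cast e5
  have hX0 : (0 : ℝ) < X := by linarith
  have hX1r : (1 : ℝ) ≤ X := by linarith
  have hlX : 0 < Real.log X := Real.log_pos (by linarith)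
  have hM0 : (0 : ℝ) < M := by exact_mod_cast hM
  have hQ0 : (0 : ℝ) < Q := by exact_mod_cast hQ
  have hQ1 : (1 : ℝ) ≤ Q := by exact_mod_cast hQ
  set B' : ℝ := (M + (X : ℝ) ^ (2 * τ)) * ((Q : ℝ) / M) ^ 2 * (X : ℝ) ^ ε with hB
  rcases le_or_gt (Q : ℝ) B' with hQB | hQB
  · refine le_trans ?_ hQB
    have := card_filter_le (range Q) (fun a =>
        (4 / τ + δ) * (L / 2 * lfG (QG A B C) Q * ((M : ℝ) / Q) / Real.log X) <
          (prcG A B C N M Q a : ℝ))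
    rw [card_range] at this
    exact_mod_cast this
  have hX2τ : (0 : ℝ) < (X : ℝ) ^ (2 * τ) := by positivity
  have hXε : (0 : ℝ) < (X : ℝ) ^ ε := by positivity
  have n1 : (X : ℝ) ^ ε < M / Q := by
    have h1 : M * ((Q : ℝ) / M) ^ 2 * (X : ℝ) ^ ε < Q := by
      refine lt_of_le_of_lt ?_ hQB
      rw [hB]
      apply mul_le_mul_of_nonneg_right _ hXε.le
      apply mul_le_mul_of_nonneg_right _ (by positivity)
      linarith
    have h2 : M * ((Q : ℝ) / M) ^ 2 * (X : ℝ) ^ ε = (Q ^ 2 / M) * (X : ℝ) ^ ε := by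
      field_simp
    rw [h2, div_mul_eq_mul_div, div_lt_iff₀ hM0] at h1
    rw [lt_div_iff₀ hQ0]
    nlinarith
  have n2 : (X : ℝ) ^ τ < M := by
    have h1 : (X : ℝ) ^ (2 * τ) * ((Q : ℝ) / M) ^ 2 * (X : ℝ) ^ ε < Q := by
      refine lt_of_le_of_lt ?_ hQB
      rw [hB]
      apply mul_le_mul_of_nonneg_right _ hXε.le
      apply mul_le_mul_of_nonneg_right _ (by positivity)
      linarith
    have h3 : (1 : ℝ) ≤ (X : ℝ) ^ ε := Real.one_le_rpow hX1r hε.le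
    have h2 : (X : ℝ) ^ (2 * τ) * ((Q : ℝ) / M) ^ 2 ≤
        (X : ℝ) ^ (2 * τ) * ((Q : ℝ) / M) ^ 2 * (X : ℝ) ^ ε :=
      le_mul_of_one_le_right (by positivity) h3
    have h4 : (X : ℝ) ^ (2 * τ) * ((Q : ℝ) / M) ^ 2 < Q := lt_of_le_of_lt h2 h1
    rw [div_pow, mul_div_assoc', div_lt_iff₀ (by positivity)] at h4
    have h5 : (X : ℝ) ^ (2 * τ) * Q < (M : ℝ) ^ 2 := by
      have : ((X : ℝ) ^ (2 * τ) * Q) * Q < (M : ℝ) ^ 2 * Q := by nlinarith
      exact lt_of_mul_lt_mul_right this hQ0.le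
    have h6 : (X : ℝ) ^ (2 * τ) < (M : ℝ) ^ 2 := by nlinarith
    have h7 : (X : ℝ) ^ (2 * τ) = ((X : ℝ) ^ τ) ^ 2 := by
      rw [← Real.rpow_natCast, ← Real.rpow_mul hX0.le]
      congr 1
      push_cast
      ring
    rw [h7] at h6
    exact lt_of_pow_lt_pow_left₀ 2 hM0.le h6
  have hV : (X : ℝ) ^ (-(ε / 32)) ≤ vq (QG A B C) X τ Q := by
    refine le_trans ?_ ((HL X e5).trans (lo_le_vqG (QG A B C) hro X τ Q))
    rw [Real.rpow_neg hX0.le]
    have h6 := inv_anti₀ (show 0 < Real.log X / c by positivity) e2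
    rwa [inv_div] at h6
  have hMer := HD X hX3 Q hQ hQX (fun p => (ro (QG A B C) 0 p : ℝ) / p) (rhoG_abs hQd) (HM X hX2)
  have hAA := HE X hX1 (QG A B C) N M Q (fun p hp => ro_QG_le hQd p hp) hM hQ hQX hV hMer
  refine le_trans ?_ hAA
  norm_cast
  apply card_le_card
  intro a ha
  rw [mem_filter] at ha ⊢
  refine ⟨ha.1, fun hcon => ?_⟩
  have haQ : a < Q := mem_range.1 ha.1
  have h1 := prcG_le A B C X (by omega) τ hvl N M Q a hQ haQ
  have h2 := hcon.2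
  have h3 := vqG_le (QG A B C) hro X τ Q hQ
  rw [vv_eqG A B C X (by omega) τ hτ.le] at h3
  set d : ℝ := densG A B C ((X : ℝ) ^ τ) with hd
  set H : ℝ := (M : ℝ) / Q with hH
  have hH0 : 0 < H := by positivity
  have hlf := lfG_one (QG A B C) hro Q
  set l : ℝ := lfG (QG A B C) Q with hl
  have h4 : (A0 + δ') * (H * vq (QG A B C) X τ Q) ≤
      (4 / τ + δ / 2) * (L / 2 * l * H / Real.log X) := by
    have hA00 : 0 < A0 := hSF.pos
    calc (A0 + δ') * (H * vq (QG A B C) X τ Q) ≤ (A0 + δ') * (H * (d * l)) := by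
          apply mul_le_mul_of_nonneg_left _ (by linarith)
          exact mul_le_mul_of_nonneg_left h3 hH0.le
      _ = ((A0 + δ') * (d * Real.log X)) * (l * H / Real.log X) := by
          field_simp
      _ ≤ ((4 / τ + δ / 2) * (L / 2)) * (l * H / Real.log X) := by
          apply mul_le_mul_of_nonneg_right e1.le
          positivity
      _ = _ := by ring
  have h5 : 2 * (X : ℝ) ^ (τ / 2) / Q + 1 ≤ δ / 2 * (L / 2 * l * H / Real.log X) := by
    have q1 : 2 * (X : ℝ) ^ (τ / 2) / Q ≤ H * (2 * (X : ℝ) ^ (-(τ / 2))) := by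
      have : (X : ℝ) ^ (τ / 2) = (X : ℝ) ^ τ * (X : ℝ) ^ (-(τ / 2)) := by
        rw [← Real.rpow_add hX0]
        congr 1
        ring
      rw [this, hH, div_mul_eq_mul_div]
      apply div_le_div_of_nonneg_right _ hQ0.le
      have h8 := mul_le_mul_of_nonneg_right n2.le
        (show (0 : ℝ) ≤ (X : ℝ) ^ (-(τ / 2)) by positivity)
      linarith
    have q2 : 1 ≤ H * (X : ℝ) ^ (-ε) := by
      rw [Real.rpow_neg hX0.le, ← div_eq_mul_inv, le_div_iff₀ hXε]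
      linarith
    calc 2 * (X : ℝ) ^ (τ / 2) / Q + 1 ≤ H * (2 * (X : ℝ) ^ (-(τ / 2)) + (X : ℝ) ^ (-ε)) := by
          rw [mul_add]
          linarith
      _ ≤ H * (δ / 2 * (L / 2) / Real.log X) := mul_le_mul_of_nonneg_left e3 hH0.le
      _ = 1 * (δ / 2 * (L / 2 * H / Real.log X)) := by ring
      _ ≤ l * (δ / 2 * (L / 2 * H / Real.log X)) := by
          apply mul_le_mul_of_nonneg_right hlf
          positivity
      _ = _ := by ring
  have h6 := ha.2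
  have h7 : (4 / τ + δ) * (L / 2 * l * H / Real.log X) =
      (4 / τ + δ / 2) * (L / 2 * l * H / Real.log X) +
        δ / 2 * (L / 2 * l * H / Real.log X) := by ring
  linarith

end Pool.Agent.L7h27.AP
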