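import Pool.Agent.L7h27.AP.SqC
import Pool.Agent.L7h27.AP.UpperG

/-! Almost prime values of a quadratic polynomial in almost all residue classes. -/

set_option autoImplicit false

namespace Pool.Agent.L7h27.AP

open Finset Polynomial Filter
open Pool.Agent.W23.DC
open Pool.Agent.Y882
open Pool.Agent.Y882.PX
open Pool.Agent.Y882.SI
open Pool.Agent.Y882.KW
open Pool.Agent.R498.MT (QG QG_eval QG_ne_zero)
open Pool.Agent.L7h2.QS (ro_QG_le ro_QG_two mer_QG' lo_QG)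

/-- the product outside the modulus -/
theorem loqG_eq (G : ℤ[X]) (h : ∀ p : ℕ, p.Prime → ro G 0 p < p) (Q X : ℕ) (hQ : 0 < Q)
    (hQX : Q ≤ X) : loq G Q X = lo G X * lfG G Q := by
  classical
  have hsub : Q.primeFactors ⊆ (Icc 1 X).filter Nat.Prime := by
    intro p hp
    have hpp := Nat.prime_of_mem_primeFactors hp
    have hpQ := Nat.le_of_dvd hQ (Nat.dvd_of_mem_primeFactors hp)
    rw [mem_filter, mem_Icc]
    exact ⟨⟨hpp.one_le, by omega⟩, hpp⟩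
  unfold loq lo lfG
  rw [← prod_sdiff hsub, ← prod_sdiff hsub (f := fun p => (1 - (ro G 0 p : ℝ) / p))]
  have e1 : ∏ p ∈ Q.primeFactors, (1 - (rq G Q p : ℝ) / p) = 1 := by
    apply prod_eq_one
    intro p hp
    unfold rq
    rw [if_pos (Nat.dvd_of_mem_primeFactors hp)]
    simp
  have e2 : ∏ p ∈ (Icc 1 X).filter Nat.Prime \ Q.primeFactors, (1 - (rq G Q p : ℝ) / p) =
      ∏ p ∈ (Icc 1 X).filter Nat.Prime \ Q.primeFactors, (1 - (ro G 0 p : ℝ) / p) := by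
    apply prod_congr rfl
    intro p hp
    rw [Finset.mem_sdiff] at hp
    have hpp := (mem_filter.1 hp.1).2
    unfold rq
    rw [if_neg]
    intro hd
    exact hp.2 (Nat.mem_primeFactors.2 ⟨hpp, hd, hQ.ne'⟩)
  have h0 : ∏ p ∈ Q.primeFactors, (1 - (ro G 0 p : ℝ) / p) ≠ 0 := by
    apply prod_ne_zero_iff.2
    intro p hp
    exact (facG G h p (Nat.prime_of_mem_primeFactors hp)).1.ne'
  rw [e1, e2, mul_one, prod_inv_distrib, mul_assoc, mul_inv_cancel₀ h0, mul_one]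

/-- the number of the `n ≡ a` modulo `Q` in `(N, N + M]` such that `A n ^ 2 + B n + C` has at most `r`
prime factors, all at least `z` -/
noncomputable def apcG (A B C : ℤ) (r : ℕ) (z : ℝ) (N M Q a : ℕ) : ℕ := by
  classical
  exact ((SC N M Q a).filter (fun n : ℕ =>
    (A * (n : ℤ) ^ 2 + B * n + C).natAbs.primeFactorsList.length ≤ r ∧
    ∀ p : ℕ, p.Prime → (p : ℤ) ∣ A * (n : ℤ) ^ 2 + B * n + C → z ≤ p)).card

/-- the members at which the weight is positive -/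
theorem pWG_le {A B C : ℤ} (hQd : Pool.Agent.L7h2.QS.Adm A B C) (X : ℕ) (hX : 2 ≤ X) (ζ υ lam S : ℝ) (r : ℕ)
    (hζυ : ζ ≤ υ) (hυ0 : 0 < υ) (hυ1 : υ ≤ 1) (hlam : 0 < lam) (hr : 1 / lam + S / υ ≤ r + 1)
    (h5 : 4 * |(A : ℝ)| + 2 * |(B : ℝ)| + |(C : ℝ)| ≤ (X : ℝ) ^ (S - 2)) (N M Q a : ℕ)
    (hNX : N ≤ X) (hMX : M ≤ X) :
    (pW (QG A B C) X ζ υ lam (lam / υ) N M Q a).card ≤
        apcG A B C r ((X : ℝ) ^ ζ) N M Q a + dct A B C (pr X ζ υ) N M Q a := by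
  classical
  have hX0 : (0 : ℝ) < X := by exact_mod_cast (by omega : 0 < X)
  have hX1 : (1 : ℝ) ≤ X := by exact_mod_cast (by omega : 1 ≤ X)
  unfold apcG dct
  refine (card_le_card ?_).trans (card_union_le _ _)
  intro n hn
  unfold pW at hn
  rw [mem_filter] at hn
  obtain ⟨hn1, hn2⟩ := hn
  rw [mem_union]
  by_cases hb : DivS A B C (pr X ζ υ) n
  · exact Or.inr (mem_filter.2 ⟨hn1, hb⟩)
  refine Or.inl (mem_filter.2 ⟨hn1, ?_⟩)
  have hnX : n ≤ 2 * X := by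
    unfold SC at hn1
    rw [mem_filter, mem_Ioc] at hn1
    omega
  rw [QG_eval] at hn2
  have hne := QG_ne_zero A B C hQd.disc (n : ℤ)
  have hsize : ((A * (n : ℤ) ^ 2 + B * (n : ℤ) + C).natAbs : ℝ) ≤ (X : ℝ) ^ S := by
    have u1 : ((A * (n : ℤ) ^ 2 + B * (n : ℤ) + C).natAbs : ℝ) =
        |A * ((n : ℝ)) ^ 2 + B * (n : ℝ) + C| := by
      rw [Nat.cast_natAbs]
      push_cast
      rfl
    rw [u1]
    have u0 : (0 : ℝ) ≤ n := Nat.cast_nonneg n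
    have u2 : (n : ℝ) ≤ 2 * X := by exact_mod_cast hnX
    have u3 : (n : ℝ) ^ 2 ≤ 4 * (X : ℝ) ^ 2 := by
      have := pow_le_pow_left₀ u0 u2 2
      linarith [mul_pow (2 : ℝ) X 2]
    have u4 : (1 : ℝ) ≤ (X : ℝ) ^ 2 := one_le_pow₀ hX1
    have u7 : (X : ℝ) ≤ (X : ℝ) ^ 2 := by
      rw [pow_two]
      exact le_mul_of_one_le_left hX0.le hX1
    have u6 : (n : ℝ) ≤ 2 * (X : ℝ) ^ 2 := by linarith
    have k1 : |A * (n : ℝ) ^ 2 + B * n + C| ≤ |A * (n : ℝ) ^ 2| + |(B : ℝ) * n| + |(C : ℝ)| :=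
      (abs_add_le _ _).trans (add_le_add (abs_add_le _ _) le_rfl)
    rw [abs_mul, abs_mul, abs_of_nonneg u0, abs_of_nonneg (by positivity : 0 ≤ (n : ℝ) ^ 2)] at k1
    have k2 : |(A : ℝ)| * (n : ℝ) ^ 2 ≤ |(A : ℝ)| * (4 * (X : ℝ) ^ 2) :=
      mul_le_mul_of_nonneg_left u3 (abs_nonneg _)
    have k3 : |(B : ℝ)| * (n : ℝ) ≤ |(B : ℝ)| * (2 * (X : ℝ) ^ 2) :=
      mul_le_mul_of_nonneg_left u6 (abs_nonneg _)
    have k4 : |(C : ℝ)| ≤ |(C : ℝ)| * (X : ℝ) ^ 2 := le_mul_of_one_le_right (abs_nonneg _) u4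
    have k5 : (4 * |(A : ℝ)| + 2 * |(B : ℝ)| + |(C : ℝ)|) * (X : ℝ) ^ 2 ≤
        (X : ℝ) ^ (S - 2) * (X : ℝ) ^ 2 := mul_le_mul_of_nonneg_right h5 (by positivity)
    have k6 : (X : ℝ) ^ (S - 2) * (X : ℝ) ^ 2 = (X : ℝ) ^ S := by
      rw [← Real.rpow_natCast (X : ℝ) 2, ← Real.rpow_add hX0]
      congr 1
      push_cast
      ring
    linarith
  have hres := almost X hX ζ υ lam S r hζυ hυ0 hυ1 hlam hr
    (A * (n : ℤ) ^ 2 + B * (n : ℤ) + C).natAbs (Int.natAbs_ne_zero.2 hne) hsize hn2 (by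
      intro q hq hqd
      apply hb
      exact ⟨q, hq, Int.natCast_dvd.2 hqd⟩)
  exact ⟨hres.1, fun p hp hpd => hres.2 p hp (Int.natCast_dvd.1 hpd)⟩

open Classical in
theorem finWG {A B C : ℤ} (hQd : Pool.Agent.L7h2.QS.Adm A B C) (r : ℕ) (τ ζ υ lam S : ℝ) (hζ : 0 < ζ) (h2 : 2 * ζ < τ)
    (h4 : τ ≤ 4 * ζ) (hτ : τ < 1) (hζυ : ζ ≤ υ) (hυτ : υ < τ) (hlam : 0 < lam)
    (hJ0 : ∫ x in ζ..υ, (lam - lam / υ * x) / (τ - x) / x < Real.log (τ / ζ - 1) / τ) (hS : 2 < S)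
    (hr : 1 / lam + S / υ ≤ r + 1) (κ : ℝ) (hκ1 : υ ≤ κ) (ε : ℝ) (hε : 0 < ε) :
    ∃ δ : ℝ, 0 < δ ∧ ∀ᶠ X : ℕ in atTop, ∀ N M Q : ℕ, N ≤ X → 1 ≤ M → M ≤ X → 1 ≤ Q → Q ≤ X →
      (((range Q).filter (fun a : ℕ =>
        (∀ p : ℕ, p.Prime → p ∣ Q → ¬ (p : ℤ) ∣ A * (a : ℤ) ^ 2 + B * a + C) ∧
        (apcG A B C r ((X : ℝ) ^ ζ) N M Q a : ℝ) <
        δ * (lfG (QG A B C) Q * ((M : ℝ) / Q) / Real.log X))).card : ℝ) ≤
      ((M + (X : ℝ) ^ (2 * τ)) * ((Q : ℝ) / M) ^ 2 + (Q : ℝ) / M * (X : ℝ) ^ κ) * (X : ℝ) ^ ε := by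
  have hυ0 : 0 < υ := by linarith
  have hυ1 : υ ≤ 1 := by linarith
  have hro := ro_lt hQd
  have hΔ0 : B ^ 2 - 4 * A * C ≠ 0 := by
    intro h
    apply hQd.disc
    rw [h]
    exact ⟨0, by simp⟩
  obtain ⟨e', he'0, he'1, he'2⟩ : ∃ e' : ℝ, 0 < e' ∧ e' ≤ ε / 4 ∧ e' ≤ 2 * ζ :=
    ⟨min (ε / 4) (2 * ζ), lt_min (by linarith) (by linarith), min_le_left _ _, min_le_right _ _⟩
  obtain ⟨δ, ε₁, η, hδ, hε₁, hε₁ζ, hε₁β, hη, Y1, HE⟩ := engW 2 1 τ ζ υ lam (lam / υ) (ε / 2)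
    one_pos hζ h2 h4 hτ hζυ hυτ hlam.le (by positivity) (by rw [div_mul_cancel₀ _ hυ0.ne']) hJ0
    (by linarith)
  obtain ⟨Y2, HM⟩ := mer_QG' hQd ε₁ υ (η / 2) hε₁ hυ1 (by linarith)
  obtain ⟨Y5, HD⟩ := mer_drop ε₁ υ η hε₁ hη
  obtain ⟨c, hc, HL⟩ := lo_QG hQd
  obtain ⟨Y3, HB⟩ := dct_cls A B C hQd.ne hΔ0 ζ υ e' hζ he'0 he'2
  have ev1 : ∀ᶠ Y : ℕ in atTop, (2 : ℝ) ≤ (Y : ℝ) ^ (ε / 2) :=
    ((tendsto_rpow_atTop (by linarith)).comp tendsto_natCast_atTop_atTop).eventually_ge_atTop _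
  have ev3 : ∀ᶠ Y : ℕ in atTop, 14 / (δ * c) * Real.log Y ≤ (Y : ℝ) ^ (e' / 2) := by
    have h1 := (isLittleO_log_rpow_atTop (show 0 < e' / 2 by linarith)).bound
      (show (0 : ℝ) < δ * c / 14 by positivity)
    filter_upwards [tendsto_natCast_atTop_atTop.eventually h1, eventually_ge_atTop 1] with Y hY hY1
    have hY1r : (1 : ℝ) ≤ Y := by exact_mod_cast hY1
    rw [Real.norm_of_nonneg (Real.log_nonneg hY1r), Real.norm_of_nonneg (by positivity)] at hY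
    rw [div_mul_eq_mul_div, div_le_iff₀ (by positivity)]
    linarith
  have ev4 : ∀ᶠ Y : ℕ in atTop, 4 * |(A : ℝ)| + 2 * |(B : ℝ)| + |(C : ℝ)| ≤ (Y : ℝ) ^ (S - 2) :=
    ((tendsto_rpow_atTop (by linarith)).comp tendsto_natCast_atTop_atTop).eventually_ge_atTop _
  refine ⟨δ * c / 2, by positivity, ?_⟩
  filter_upwards [ev1, ev3, ev4, eventually_ge_atTop 3, eventually_ge_atTop Y1,
    eventually_ge_atTop Y2, eventually_ge_atTop Y3, eventually_ge_atTop Y5] with X e1 e3 e4 e5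
    hX1 hX2 hX3 hX5 N M Q hNX hM hMX hQ hQX
  have hXr : (3 : ℝ) ≤ X := by exact_mod_cast e5
  have hX0 : (0 : ℝ) < X := by linarith
  have hX1r : (1 : ℝ) ≤ X := by linarith
  have hlX : 0 < Real.log X := Real.log_pos (by linarith)
  have hM0 : (0 : ℝ) < M := by exact_mod_cast hM
  have hQ0 : (0 : ℝ) < Q := by exact_mod_cast hQ
  have hMer := HD X hX5 Q hQ hQX (fun p => (ro (QG A B C) 0 p : ℝ) / p) (rhoG_abs hQd) (HM X hX2)
  have hMer2 : Mer (pr X ε₁ υ) (tt X) (fun p => (rq (QG A B C) Q p : ℝ) / p) ε₁ υ η := by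
    have : (fun p : ℕ => (rq (QG A B C) Q p : ℝ) / p) =
        (fun p : ℕ => if p ∣ Q then 0 else (ro (QG A B C) 0 p : ℝ) / p) := by
      funext p
      unfold rq
      split_ifs <;> simp
    rw [this]
    exact hMer
  have hA := HE X hX1 (QG A B C) N M Q X (fun p hp => ro_QG_le hQd p hp) hM hQ hQX
    (by rw [Real.rpow_one]) hMer2
  rw [loqG_eq (QG A B C) hro Q X hQ hQX] at hA
  set H : ℝ := (M : ℝ) / Q with hH
  have hH0 : 0 < H := by positivity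
  have hL := HL X e5
  set t : ℝ := (X : ℝ) ^ (e' / 2) with ht
  have ht0 : 0 < t := by positivity
  have hB := HB X hX3 N M Q hM hQ
  rw [← hH] at hB
  have hlf := lfG_one (QG A B C) hro Q
  set l : ℝ := lfG (QG A B C) Q with hl
  set A1 := (range Q).filter (fun a => Adm (QG A B C) Q a ∧
    ((pW (QG A B C) X ζ υ lam (lam / υ) N M Q a).card : ℝ) < δ * H * (lo (QG A B C) X * l)) with hA1
  set A2 := (range Q).filter (fun a : ℕ =>
    (∀ p : ℕ, p.Prime → p ∣ Q → ¬ (p : ℤ) ∣ A * (a : ℤ) ^ 2 + B * a + C) ∧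
        7 * H / t < (dct A B C (pr X ζ υ) N M Q a : ℝ)) with hA2
  have hsub : (range Q).filter (fun a : ℕ =>
      (∀ p : ℕ, p.Prime → p ∣ Q → ¬ (p : ℤ) ∣ A * (a : ℤ) ^ 2 + B * a + C) ∧
      (apcG A B C r ((X : ℝ) ^ ζ) N M Q a : ℝ) <
        δ * c / 2 * (l * H / Real.log X)) ⊆ A1 ∪ A2 := by
    intro a ha
    rw [mem_filter] at ha
    rw [mem_union]
    by_contra hcon
    push Not at hcon
    obtain ⟨hc1, hc2⟩ := hcon
    have hadm : Adm (QG A B C) Q a := by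
      intro p hp hpQ hd
      rw [QG_eval] at hd
      exact ha.2.1 p hp hpQ hd
    have g1 : δ * H * (lo (QG A B C) X * l) ≤
        ((pW (QG A B C) X ζ υ lam (lam / υ) N M Q a).card : ℝ) := by
      by_contra h'
      exact hc1 (by rw [hA1, mem_filter]; exact ⟨ha.1, hadm, not_le.1 h'⟩)
    have g2 : (dct A B C (pr X ζ υ) N M Q a : ℝ) ≤ 7 * H / t := by
      by_contra h'
      exact hc2 (by rw [hA2, mem_filter]; exact ⟨ha.1, ha.2.1, not_le.1 h'⟩)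
    have g3 := pWG_le hQd X (by omega) ζ υ lam S r hζυ hυ0 hυ1 hlam hr e4 N M Q a hNX hMX
    have g3r : ((pW (QG A B C) X ζ υ lam (lam / υ) N M Q a).card : ℝ) ≤
        (apcG A B C r ((X : ℝ) ^ ζ) N M Q a : ℝ) + (dct A B C (pr X ζ υ) N M Q a : ℝ) := by
      exact_mod_cast g3
    have g5 : δ * H * (c / Real.log X * l) ≤ δ * H * (lo (QG A B C) X * l) := by
      apply mul_le_mul_of_nonneg_left _ (by positivity)
      exact mul_le_mul_of_nonneg_right hL (by linarith)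
    have g6 : 7 * H / t ≤ δ * H * (c / Real.log X) / 2 := by
      rw [div_mul_eq_mul_div, div_le_iff₀ (by positivity)] at e3
      rw [div_le_iff₀ ht0]
      have u6 : δ * H * (c / Real.log X) / 2 * t = H * (δ * c * t / (2 * Real.log X)) := by
        field_simp
      rw [u6, mul_comm 7 H]
      apply mul_le_mul_of_nonneg_left _ hH0.le
      rw [le_div_iff₀ (by positivity)]
      linarith
    have g8 : 0 ≤ δ * H * (c / Real.log X) / 2 := by positivity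
    have g9 : δ * H * (c / Real.log X) / 2 ≤ δ * H * (c / Real.log X) / 2 * l :=
      le_mul_of_one_le_right g8 hlf
    have g10 : δ * c / 2 * (l * H / Real.log X) =
        δ * H * (c / Real.log X * l) - δ * H * (c / Real.log X) / 2 * l := by
      field_simp
      ring
    linarith [ha.2.2]
  have hXε0 : (0 : ℝ) < (X : ℝ) ^ (ε / 2) := by positivity
  have hXε : (X : ℝ) ^ ε = (X : ℝ) ^ (ε / 2) * (X : ℝ) ^ (ε / 2) := by
    rw [← Real.rpow_add hX0]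
    congr 1
    ring
  set U : ℝ := (M + (X : ℝ) ^ (2 * τ)) * ((Q : ℝ) / M) ^ 2 with hU
  set V : ℝ := (Q : ℝ) / M * (X : ℝ) ^ κ with hV
  have hU0 : 0 ≤ U := by positivity
  have hV0 : 0 ≤ V := by positivity
  have r1 : (A1.card : ℝ) ≤ U * (X : ℝ) ^ (ε / 2) := hA
  have r2 : (A2.card : ℝ) ≤ (U + V) * (X : ℝ) ^ (ε / 2) := by
    refine hB.trans ?_
    have u1 : (X : ℝ) ^ (2 * e') ≤ (X : ℝ) ^ (ε / 2) :=
      Real.rpow_le_rpow_of_exponent_le hX1r (by linarith)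
    have u2 : (X : ℝ) ^ υ ≤ (X : ℝ) ^ κ := Real.rpow_le_rpow_of_exponent_le hX1r hκ1
    have u3 : M * ((Q : ℝ) / M) ^ 2 ≤ U := by
      rw [hU]
      apply mul_le_mul_of_nonneg_right _ (by positivity)
      have : 0 ≤ (X : ℝ) ^ (2 * τ) := by positivity
      linarith
    have u4 : (Q : ℝ) / M * (X : ℝ) ^ υ ≤ V := mul_le_mul_of_nonneg_left u2 (by positivity)
    exact mul_le_mul (add_le_add u3 u4) u1 (by positivity) (by positivity)
  have r3 : (((range Q).filter (fun a : ℕ =>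
      (∀ p : ℕ, p.Prime → p ∣ Q → ¬ (p : ℤ) ∣ A * (a : ℤ) ^ 2 + B * a + C) ∧
      (apcG A B C r ((X : ℝ) ^ ζ) N M Q a : ℝ) <
        δ * c / 2 * (l * H / Real.log X))).card : ℝ) ≤ ((A1 ∪ A2).card : ℝ) := by
    exact_mod_cast card_le_card hsub
  have r4 : ((A1 ∪ A2).card : ℝ) ≤ A1.card + A2.card := by exact_mod_cast card_union_le _ _
  have r5 : U * (X : ℝ) ^ (ε / 2) + (U + V) * (X : ℝ) ^ (ε / 2) ≤ (U + V) * (X : ℝ) ^ ε := by
    rw [hXε]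
    have w1 : U * (X : ℝ) ^ (ε / 2) ≤ (U + V) * (X : ℝ) ^ (ε / 2) :=
      mul_le_mul_of_nonneg_right (by linarith) hXε0.le
    have w2 : 2 * ((U + V) * (X : ℝ) ^ (ε / 2)) ≤ (X : ℝ) ^ (ε / 2) * ((U + V) * (X : ℝ) ^ (ε / 2)) :=
      mul_le_mul_of_nonneg_right e1 (by positivity)
    calc U * (X : ℝ) ^ (ε / 2) + (U + V) * (X : ℝ) ^ (ε / 2) ≤
        2 * ((U + V) * (X : ℝ) ^ (ε / 2)) := by linarith
      _ ≤ (X : ℝ) ^ (ε / 2) * ((U + V) * (X : ℝ) ^ (ε / 2)) := w2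
      _ = _ := by ring
  linarith

open Classical in
theorem finAllWG {A B C : ℤ} (hQd : Pool.Agent.L7h2.QS.Adm A B C) (r : ℕ) (t z : ℝ)
    (hpar : (r = 5 ∧ 1 / 2 ≤ t ∧ z = 2 / 5 * t) ∨ (r = 4 ∧ 269 / 500 ≤ t ∧ z = t / 4) ∨
      (r = 3 ∧ 29 / 40 ≤ t ∧ z = t / 4)) (ht : t < 1) (ε : ℝ) (hε : 0 < ε) :
    ∃ δ : ℝ, 0 < δ ∧ ∀ᶠ X : ℕ in atTop, ∀ N M Q : ℕ, N ≤ X → 1 ≤ M → M ≤ X → 1 ≤ Q → Q ≤ X →
      (((range Q).filter (fun a : ℕ =>
        (∀ p : ℕ, p.Prime → p ∣ Q → ¬ (p : ℤ) ∣ A * (a : ℤ) ^ 2 + B * a + C) ∧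
        (apcG A B C r ((X : ℝ) ^ z) N M Q a : ℝ) <
        δ * (lfG (QG A B C) Q * ((M : ℝ) / Q) / Real.log X))).card : ℝ) ≤
      ((M + (X : ℝ) ^ (2 * t)) * ((Q : ℝ) / M) ^ 2 + (Q : ℝ) / M * (X : ℝ) ^ (24 / 25 * t)) *
        (X : ℝ) ^ ε := by
  have h3 : ∀ r : ℕ, 9 / 8 + 2001 / 1000 / (24 / 25 * t) ≤ (r : ℝ) + 1 → 29 / 100 < t →
      ∃ δ : ℝ, 0 < δ ∧ ∀ᶠ X : ℕ in atTop, ∀ N M Q : ℕ, N ≤ X → 1 ≤ M → M ≤ X → 1 ≤ Q → Q ≤ X →
      (((range Q).filter (fun a : ℕ =>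
        (∀ p : ℕ, p.Prime → p ∣ Q → ¬ (p : ℤ) ∣ A * (a : ℤ) ^ 2 + B * a + C) ∧
        (apcG A B C r ((X : ℝ) ^ (t / 4)) N M Q a : ℝ) <
        δ * (lfG (QG A B C) Q * ((M : ℝ) / Q) / Real.log X))).card : ℝ) ≤
      ((M + (X : ℝ) ^ (2 * t)) * ((Q : ℝ) / M) ^ 2 + (Q : ℝ) / M * (X : ℝ) ^ (24 / 25 * t)) *
        (X : ℝ) ^ ε := by
    intro r hr h29
    exact finWG hQd r t (t / 4) (24 / 25 * t) (8 / 9) (2001 / 1000) (by linarith) (by linarith)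
      (by linarith) ht (by linarith) (by linarith) (by norm_num)
      (cond_A t (8 / 9) (by linarith) (by norm_num) (by norm_num)) (by norm_num)
      (by norm_num at hr ⊢; linarith) (24 / 25 * t) le_rfl ε hε
  rcases hpar with ⟨hr, h1, hz⟩ | ⟨hr, h1, hz⟩ | ⟨hr, h1, hz⟩
  · subst hr
    subst hz
    refine finWG hQd 5 t (2 / 5 * t) (9 / 10 * t) (20 / 31) (1001 / 500) (by linarith) (by linarith)
      (by linarith) ht (by linarith) (by linarith) (by norm_num)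
      (cond_B t (20 / 31) (by linarith) (by norm_num) (by norm_num)) (by norm_num) ?_
      (24 / 25 * t) (by linarith) ε hε
    have : (1001 / 500 : ℝ) / (9 / 10 * t) ≤ (1001 / 500) / (9 / 10 * (1 / 2)) :=
      div_le_div_of_nonneg_left (by norm_num) (by norm_num) (by linarith)
    norm_num at this ⊢
    linarith
  · subst hr
    subst hz
    refine h3 4 ?_ (by linarith)
    have : (2001 / 1000 : ℝ) / (24 / 25 * t) ≤ (2001 / 1000) / (24 / 25 * (269 / 500)) :=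
      div_le_div_of_nonneg_left (by norm_num) (by norm_num) (by linarith)
    norm_num at this ⊢
    linarith
  · subst hr
    subst hz
    refine h3 3 ?_ (by linarith)
    have : (2001 / 1000 : ℝ) / (24 / 25 * t) ≤ (2001 / 1000) / (24 / 25 * (29 / 40)) :=
      div_le_div_of_nonneg_left (by norm_num) (by norm_num) (by linarith)
    norm_num at this ⊢
    linarith

end Pool.Agent.L7h27.AP
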