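import Pool.Agent.L7h27.AP.Low
import Pool.Agent.Y882.MG.EngS

/-! Few values of a quadratic polynomial with a large square factor, in residue classes. -/

set_option autoImplicit false

namespace Pool.Agent.L7h27.AP

open Finset Filter
open Pool.Agent.W23.DC
open Pool.Agent.Y882
open Pool.Agent.Y882.PX
open Pool.Agent.Y882.SI
open Pool.Agent.Y882.MG (tail_sq card_lt)

/-- a set of integers in an interval which are congruent modulo `m` -/
theorem card_congr_class (S : Finset ℕ) (N M m : ℕ) (hm : 0 < m) (hS : ∀ n ∈ S, N < n ∧ n ≤ N + M)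
    (n0 : ℕ) (h : ∀ n ∈ S, n ≡ n0 [MOD m]) : (S.card : ℝ) ≤ (M : ℝ) / m + 1 := by
  have h1 : S ⊆ (Ioc N (N + M)).filter (fun n => n % m = n0 % m) := by
    intro n hn
    rw [mem_filter, mem_Ioc]
    exact ⟨hS n hn, h n hn⟩
  have h2 := cls_card N M m (n0 % m) hm (Nat.mod_lt _ hm)
  have h3 := (abs_le.1 h2).2
  have h4 : (S.card : ℝ) ≤ (((Ioc N (N + M)).filter (fun n => n % m = n0 % m)).card : ℝ) := by
    exact_mod_cast card_le_card h1
  linarith

/-- the value at `n` is divisible by the square of an element of `P` -/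
def DivS (A B C : ℤ) (P : Finset ℕ) (n : ℕ) : Prop :=
  ∃ q ∈ P, ((q ^ 2 : ℕ) : ℤ) ∣ A * (n : ℤ) ^ 2 + B * n + C

theorem sq_cls (A B C : ℤ) (q : ℕ) (hq : q.Prime) (hA : ¬ (q : ℤ) ∣ A)
    (hD : ¬ (q : ℤ) ∣ B ^ 2 - 4 * A * C) (Q : ℕ) (hQ : 0 < Q) (hqQ : ¬ q ∣ Q) (N M a : ℕ) :
    ((((SC N M Q a).filter
      (fun n : ℕ => ((q ^ 2 : ℕ) : ℤ) ∣ A * (n : ℤ) ^ 2 + B * n + C)).card : ℕ) : ℝ) ≤
      2 * ((M : ℝ) / Q * (1 / (q : ℝ) ^ 2) + 1) := by
  classical
  set S := (SC N M Q a).filter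
      (fun n : ℕ => ((q ^ 2 : ℕ) : ℤ) ∣ A * (n : ℤ) ^ 2 + B * n + C) with hS
  have hqZ : Prime (q : ℤ) := Nat.prime_iff_prime_int.1 hq
  have hcop : Nat.Coprime Q (q ^ 2) := by
    apply Nat.Coprime.pow_right
    exact ((Nat.Prime.coprime_iff_not_dvd hq).2 hqQ).symm
  have hmem : ∀ n ∈ S, (N < n ∧ n ≤ N + M) ∧ n % Q = a ∧
      ((q ^ 2 : ℕ) : ℤ) ∣ A * (n : ℤ) ^ 2 + B * n + C := by
    intro n hn
    rw [hS, mem_filter] at hn
    have h1 := hn.1
    unfold SC at h1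
    rw [mem_filter, mem_Ioc] at h1
    exact ⟨h1.1, h1.2, hn.2⟩
  have hpos : 0 ≤ (M : ℝ) / Q * (1 / (q : ℝ) ^ 2) := by positivity
  have hq0 : (0 : ℝ) < q := by exact_mod_cast hq.pos
  have hQ0 : (0 : ℝ) < Q := by exact_mod_cast hQ
  rcases S.eq_empty_or_nonempty with h | ⟨n0, hn0⟩
  · rw [h]
    simp only [card_empty, Nat.cast_zero]
    positivity
  obtain ⟨-, hn0a, hn0d⟩ := hmem n0 hn0
  set S1 := S.filter (fun n : ℕ => ((q ^ 2 : ℕ) : ℤ) ∣ (n : ℤ) - n0) with hS1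
  set S2 := S.filter (fun n : ℕ => ((q ^ 2 : ℕ) : ℤ) ∣ A * ((n : ℤ) + n0) + B) with hS2
  have hsub : S ⊆ S1 ∪ S2 := by
    intro n hn
    rw [mem_union]
    obtain ⟨-, -, hnd⟩ := hmem n hn
    have h3 : ((q ^ 2 : ℕ) : ℤ) ∣ ((n : ℤ) - n0) * (A * ((n : ℤ) + n0) + B) := by
      have := dvd_sub hnd hn0d
      have e : A * (n : ℤ) ^ 2 + B * n + C - (A * (n0 : ℤ) ^ 2 + B * n0 + C) =
        ((n : ℤ) - n0) * (A * ((n : ℤ) + n0) + B) := by ring
      rwa [e] at this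
    by_cases h4 : (q : ℤ) ∣ (n : ℤ) - n0
    · have h5 : ¬ (q : ℤ) ∣ A * ((n : ℤ) + n0) + B := by
        intro h6
        have h7 : (q : ℤ) ∣ 2 * A * n + B := by
          have := dvd_add (h4.mul_left A) h6
          have e : A * ((n : ℤ) - n0) + (A * ((n : ℤ) + n0) + B) = 2 * A * n + B := by ring
          rwa [e] at this
        have h9 : (q : ℤ) ∣ A * (n : ℤ) ^ 2 + B * n + C := by
          refine dvd_trans ?_ hnd
          push_cast
          exact dvd_pow_self _ (by norm_num)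
        apply hD
        have h11 : (q : ℤ) ∣ (2 * A * n + B) ^ 2 := dvd_pow h7 (by norm_num)
        have h12 := dvd_sub h11 (h9.mul_left (4 * A))
        have e : (2 * A * (n : ℤ) + B) ^ 2 - 4 * A * (A * (n : ℤ) ^ 2 + B * n + C) =
          B ^ 2 - 4 * A * C := by ring
        rwa [e] at h12
      left
      refine mem_filter.2 ⟨hn, ?_⟩
      have h6 : IsCoprime ((q ^ 2 : ℕ) : ℤ) (A * ((n : ℤ) + n0) + B) := by
        push_cast
        apply IsCoprime.pow_left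
        exact (Prime.coprime_iff_not_dvd hqZ).2 h5
      exact h6.dvd_of_dvd_mul_right h3
    · right
      refine mem_filter.2 ⟨hn, ?_⟩
      have h6 : IsCoprime ((q ^ 2 : ℕ) : ℤ) ((n : ℤ) - n0) := by
        push_cast
        apply IsCoprime.pow_left
        exact (Prime.coprime_iff_not_dvd hqZ).2 h4
      exact h6.dvd_of_dvd_mul_left h3
  have hm : 0 < Q * q ^ 2 := Nat.mul_pos hQ (pow_pos hq.pos 2)
  have hmod : ∀ n n' : ℕ, n ∈ S → n' ∈ S → ((q ^ 2 : ℕ) : ℤ) ∣ (n : ℤ) - n' →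
      n ≡ n' [MOD (Q * q ^ 2)] := by
    intro n n' hn hn' hd
    rw [← Nat.modEq_and_modEq_iff_modEq_mul hcop]
    constructor
    · unfold Nat.ModEq
      rw [(hmem n hn).2.1, (hmem n' hn').2.1]
    · have h1 : (n' : ℤ) ≡ (n : ℤ) [ZMOD ((q ^ 2 : ℕ) : ℤ)] := Int.modEq_iff_dvd.2 hd
      exact (Int.natCast_modEq_iff.1 h1).symm
  have e1 : (M : ℝ) / ((Q * q ^ 2 : ℕ) : ℝ) + 1 = (M : ℝ) / Q * (1 / (q : ℝ) ^ 2) + 1 := by
    push_cast
    field_simp
  have c1 : (S1.card : ℝ) ≤ (M : ℝ) / Q * (1 / (q : ℝ) ^ 2) + 1 := by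
    rw [← e1]
    apply card_congr_class S1 N M _ hm _ n0
    · intro n hn
      rw [hS1, mem_filter] at hn
      exact hmod n n0 hn.1 hn0 hn.2
    · intro n hn
      rw [hS1, mem_filter] at hn
      exact (hmem n hn.1).1
  have c2 : (S2.card : ℝ) ≤ (M : ℝ) / Q * (1 / (q : ℝ) ^ 2) + 1 := by
    rcases S2.eq_empty_or_nonempty with h | ⟨n1, hn1⟩
    · rw [h]
      simp only [card_empty, Nat.cast_zero]
      positivity
    rw [← e1]
    rw [hS2, mem_filter] at hn1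
    apply card_congr_class S2 N M _ hm _ n1
    · intro n hn
      rw [hS2, mem_filter] at hn
      apply hmod n n1 hn.1 hn1.1
      have h1 := dvd_sub hn.2 hn1.2
      have e : A * ((n : ℤ) + n0) + B - (A * ((n1 : ℤ) + n0) + B) = A * ((n : ℤ) - n1) := by ring
      rw [e] at h1
      have h6 : IsCoprime ((q ^ 2 : ℕ) : ℤ) A := by
        push_cast
        apply IsCoprime.pow_left
        exact (Prime.coprime_iff_not_dvd hqZ).2 hA
      exact h6.dvd_of_dvd_mul_left h1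
    · intro n hn
      rw [hS2, mem_filter] at hn
      exact (hmem n hn.1).1
  have h3 : (S.card : ℝ) ≤ S1.card + S2.card := by
    exact_mod_cast (card_le_card hsub).trans (card_union_le _ _)
  linarith

open Classical in
/-- the members divisible by the square of an element of a set of primes -/
theorem divS_card (A B C : ℤ) (P : Finset ℕ) (hP : ∀ q ∈ P, q.Prime ∧ ¬ (q : ℤ) ∣ A ∧
    ¬ (q : ℤ) ∣ B ^ 2 - 4 * A * C) (Q : ℕ) (hQ : 0 < Q) (hPQ : ∀ q ∈ P, ¬ q ∣ Q) (N M a : ℕ) :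
    (((SC N M Q a).filter (DivS A B C P)).card : ℝ) ≤
      2 * ((M : ℝ) / Q * ∑ q ∈ P, 1 / (q : ℝ) ^ 2 + P.card) := by
  have hsub : (SC N M Q a).filter (DivS A B C P) ⊆ P.biUnion
      (fun q => (SC N M Q a).filter
        (fun n : ℕ => ((q ^ 2 : ℕ) : ℤ) ∣ A * (n : ℤ) ^ 2 + B * n + C)) := by
    intro n hn
    rw [mem_filter] at hn
    obtain ⟨hn1, q, hq, hqn⟩ := hn
    rw [mem_biUnion]
    exact ⟨q, hq, by rw [mem_filter]; exact ⟨hn1, hqn⟩⟩
  calc (((SC N M Q a).filter (DivS A B C P)).card : ℝ) ≤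
      ((∑ q ∈ P, ((SC N M Q a).filter
        (fun n : ℕ => ((q ^ 2 : ℕ) : ℤ) ∣ A * (n : ℤ) ^ 2 + B * n + C)).card : ℕ) : ℝ) := by
        exact_mod_cast (card_le_card hsub).trans card_biUnion_le
    _ ≤ ∑ q ∈ P, 2 * ((M : ℝ) / Q * (1 / (q : ℝ) ^ 2) + 1) := by
        push_cast
        apply sum_le_sum
        intro q hq
        obtain ⟨h1, h2, h3⟩ := hP q hq
        have h5 := sq_cls A B C q h1 h2 h3 Q hQ (hPQ q hq) N M a
        push_cast at h5
        exact h5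
    _ = _ := by
        rw [← mul_sum, sum_add_distrib, sum_const, nsmul_eq_mul, mul_one, ← mul_sum]

open Classical in
/-- few classes with many members of a property -/
theorem bad_cls2 (Pr : ℕ → Prop) (N M Q : ℕ) (hM : 0 < M) (hQ : 0 < Q) (t : ℝ) (ht : 0 < t) :
    (((range Q).filter (fun a => ((M : ℝ) / Q) / t <
      (((SC N M Q a).filter Pr).card : ℝ))).card : ℝ) ≤
      (Q : ℝ) / M * t * (((SC N M 1 0).filter Pr).card : ℝ) := by
  have hM0 : (0 : ℝ) < M := by exact_mod_cast hM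
  have hQ0 : (0 : ℝ) < Q := by exact_mod_cast hQ
  set A := (range Q).filter (fun a => ((M : ℝ) / Q) / t <
      (((SC N M Q a).filter Pr).card : ℝ)) with hA
  have h1 : (A.card : ℝ) * (((M : ℝ) / Q) / t) ≤ ∑ a ∈ range Q, (((SC N M Q a).filter Pr).card : ℝ) := by
    calc (A.card : ℝ) * (((M : ℝ) / Q) / t) = ∑ a ∈ A, (((M : ℝ) / Q) / t) := by
          rw [sum_const, nsmul_eq_mul]
      _ ≤ ∑ a ∈ A, (((SC N M Q a).filter Pr).card : ℝ) := by
          apply sum_le_sum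
          intro a ha
          rw [hA, mem_filter] at ha
          exact ha.2.le
      _ ≤ _ := sum_le_sum_of_subset_of_nonneg (filter_subset _ _) (fun _ _ _ => Nat.cast_nonneg _)
  have h2 : ∑ a ∈ range Q, (((SC N M Q a).filter Pr).card : ℝ) =
      (((SC N M 1 0).filter Pr).card : ℝ) := by
    have h3 : ((SC N M 1 0).filter Pr).card =
        ∑ a ∈ range Q, (((SC N M 1 0).filter Pr).filter (fun n => n % Q = a)).card :=
      card_eq_sum_card_fiberwise (fun n _ => by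
        rw [mem_coe, mem_range]
        exact Nat.mod_lt _ hQ)
    rw [h3]
    push_cast
    apply sum_congr rfl
    intro a _
    congr 2
    ext n
    unfold SC
    simp only [mem_filter, Nat.mod_one, and_true]
    tauto
  rw [h2] at h1
  rw [div_div, mul_div_assoc', div_le_iff₀ (by positivity)] at h1
  have h4 : (A.card : ℝ) * M ≤ ((Q : ℝ) / M * t * (((SC N M 1 0).filter Pr).card : ℝ)) * M := by
    calc (A.card : ℝ) * M ≤ (((SC N M 1 0).filter Pr).card : ℝ) * (Q * t) := h1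
      _ = _ := by field_simp
  exact le_of_mul_le_mul_right h4 hM0

/-- the number of the members of a class whose value is divisible by the square of an element of `P` -/
noncomputable def dct (A B C : ℤ) (P : Finset ℕ) (N M Q a : ℕ) : ℕ := by
  classical
  exact ((SC N M Q a).filter (DivS A B C P)).card

open Classical in
/-- **Few classes with many values divisible by the square of a medium prime.** -/
theorem dct_cls (A B C : ℤ) (hA : A ≠ 0) (hΔ : B ^ 2 - 4 * A * C ≠ 0) (ζ υ ε : ℝ) (hζ : 0 < ζ)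
    (hε : 0 < ε) (hε2 : ε ≤ 2 * ζ) : ∃ Y0 : ℕ, ∀ X : ℕ, Y0 ≤ X → ∀ (N M Q : ℕ), 0 < M → 0 < Q →
      (((range Q).filter (fun a : ℕ => (∀ p : ℕ, p.Prime → p ∣ Q → ¬ (p : ℤ) ∣ A * (a : ℤ) ^ 2 + B * a + C) ∧
        7 * ((M : ℝ) / Q) / (X : ℝ) ^ (ε / 2) < (dct A B C (pr X ζ υ) N M Q a : ℝ))).card : ℝ) ≤
      (M * ((Q : ℝ) / M) ^ 2 + (Q : ℝ) / M * (X : ℝ) ^ υ) * (X : ℝ) ^ (2 * ε) := by
  classical
  have ev1 : ∀ᶠ Y : ℕ in atTop, ((A.natAbs + (B ^ 2 - 4 * A * C).natAbs : ℕ) : ℝ) + 4 ≤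
      (Y : ℝ) ^ ζ :=
    ((tendsto_rpow_atTop hζ).comp tendsto_natCast_atTop_atTop).eventually_ge_atTop _
  have ev2 : ∀ᶠ Y : ℕ in atTop, (8 : ℝ) ≤ (Y : ℝ) ^ ε :=
    ((tendsto_rpow_atTop hε).comp tendsto_natCast_atTop_atTop).eventually_ge_atTop _
  obtain ⟨Y0, hY0⟩ := eventually_atTop.1 (ev1.and (ev2.and (eventually_ge_atTop 3)))
  refine ⟨Y0, fun X hX N M Q hM hQ => ?_⟩
  obtain ⟨e1, e2, e3⟩ := hY0 X hX
  have hXr : (3 : ℝ) ≤ X := by exact_mod_cast e3
  have hX0 : (0 : ℝ) < X := by linarith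
  have hX1r : (1 : ℝ) ≤ X := by linarith
  have hM0 : (0 : ℝ) < M := by exact_mod_cast hM
  have hQ0 : (0 : ℝ) < Q := by exact_mod_cast hQ
  set t : ℝ := (X : ℝ) ^ (ε / 2) with ht
  have ht0 : 0 < t := by positivity
  have htt : t * t = (X : ℝ) ^ ε := by
    rw [ht, ← Real.rpow_add hX0]
    congr 1
    ring
  have htζ : t ≤ (X : ℝ) ^ ζ := Real.rpow_le_rpow_of_exponent_le hX1r (by linarith)
  have ht1 : 1 ≤ t := Real.one_le_rpow hX1r (by linarith)
  set H : ℝ := (M : ℝ) / Q with hH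
  have hH0 : 0 < H := by positivity
  have hXυ : (0 : ℝ) < (X : ℝ) ^ υ := by positivity
  have hX2ε : (X : ℝ) ^ (2 * ε) = (X : ℝ) ^ ε * (X : ℝ) ^ ε := by
    rw [← Real.rpow_add hX0]
    congr 1
    ring
  have hXε0 : (0 : ℝ) < (X : ℝ) ^ ε := by positivity
  have hpr : ∀ q ∈ pr X ζ υ, q.Prime ∧ (X : ℝ) ^ ζ ≤ q ∧ (q : ℝ) ≤ (X : ℝ) ^ υ := by
    intro q hq
    obtain ⟨u1, u2, u3⟩ := pr_mem X q ζ υ (by omega) hq
    exact ⟨u1, u2, u3.le⟩
  have hgood : ∀ q ∈ pr X ζ υ, q.Prime ∧ ¬ (q : ℤ) ∣ A ∧ ¬ (q : ℤ) ∣ B ^ 2 - 4 * A * C := by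
    intro q hq
    obtain ⟨u1, u2, -⟩ := hpr q hq
    have u3 : ((A.natAbs + (B ^ 2 - 4 * A * C).natAbs : ℕ) : ℝ) + 4 ≤ q := e1.trans u2
    have u4 : A.natAbs + (B ^ 2 - 4 * A * C).natAbs + 4 ≤ q := by exact_mod_cast u3
    refine ⟨u1, fun hd => ?_, fun hd => ?_⟩
    · have h5 := Nat.le_of_dvd (Int.natAbs_pos.2 hA) (Int.natCast_dvd.1 hd)
      omega
    · have h5 := Nat.le_of_dvd (Int.natAbs_pos.2 hΔ) (Int.natCast_dvd.1 hd)
      omega
  rcases lt_or_ge H (2 * t) with hsm | hbig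
  · -- the trivial case
    have h2 := card_filter_le (range Q) (fun a : ℕ =>
      (∀ p : ℕ, p.Prime → p ∣ Q → ¬ (p : ℤ) ∣ A * (a : ℤ) ^ 2 + B * a + C) ∧
        7 * H / t < (dct A B C (pr X ζ υ) N M Q a : ℝ))
    rw [card_range] at h2
    have h3 : (Q : ℝ) = (M * ((Q : ℝ) / M) ^ 2) * H := by
      rw [hH]
      field_simp
    have h4 : 2 * t ≤ (X : ℝ) ^ (2 * ε) := by
      rw [hX2ε, ← htt]
      nlinarith
    calc (((range Q).filter (fun a : ℕ =>
        (∀ p : ℕ, p.Prime → p ∣ Q → ¬ (p : ℤ) ∣ A * (a : ℤ) ^ 2 + B * a + C) ∧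
        7 * H / t < (dct A B C (pr X ζ υ) N M Q a : ℝ))).card : ℝ) ≤ Q := by exact_mod_cast h2
      _ = (M * ((Q : ℝ) / M) ^ 2) * H := h3
      _ ≤ (M * ((Q : ℝ) / M) ^ 2) * (X : ℝ) ^ (2 * ε) := by
          apply mul_le_mul_of_nonneg_left _ (by positivity)
          linarith
      _ ≤ (M * ((Q : ℝ) / M) ^ 2 + (Q : ℝ) / M * (X : ℝ) ^ υ) * (X : ℝ) ^ (2 * ε) := by
          apply mul_le_mul_of_nonneg_right _ (by positivity)
          have : 0 ≤ (Q : ℝ) / M * (X : ℝ) ^ υ := by positivity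
          linarith
  set R : ℝ := H / t with hR
  have hR2 : 2 ≤ R := by
    rw [hR, le_div_iff₀ ht0]
    exact hbig
  set P1 := (pr X ζ υ).filter (fun q : ℕ => (q : ℝ) < R ∧ ¬ q ∣ Q) with hP1
  set P2 := (pr X ζ υ).filter (fun q : ℕ => R ≤ (q : ℝ)) with hP2
  have hsub : (range Q).filter (fun a : ℕ =>
        (∀ p : ℕ, p.Prime → p ∣ Q → ¬ (p : ℤ) ∣ A * (a : ℤ) ^ 2 + B * a + C) ∧
        7 * H / t < (dct A B C (pr X ζ υ) N M Q a : ℝ)) ⊆
      (range Q).filter (fun a => H / t < (((SC N M Q a).filter (DivS A B C P2)).card : ℝ)) := by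
    intro a ha
    rw [mem_filter] at ha ⊢
    obtain ⟨ha1, ha2, ha3⟩ := ha
    refine ⟨ha1, ?_⟩
    have h1 : dct A B C (pr X ζ υ) N M Q a ≤ ((SC N M Q a).filter (DivS A B C P1)).card +
        ((SC N M Q a).filter (DivS A B C P2)).card := by
      unfold dct
      refine (card_le_card ?_).trans (card_union_le _ _)
      intro n hn
      rw [mem_filter] at hn
      obtain ⟨hn1, q, hq, hqn⟩ := hn
      rw [mem_union, mem_filter, mem_filter]
      rcases lt_or_ge (q : ℝ) R with h5 | h5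
      · left
        refine ⟨hn1, q, ?_, hqn⟩
        rw [hP1, mem_filter]
        refine ⟨hq, h5, fun hqQ => ?_⟩
        have hqp := (hpr q hq).1
        apply ha2 q hqp hqQ
        unfold SC at hn1
        rw [mem_filter] at hn1
        have h6 : (q : ℤ) ∣ A * (n : ℤ) ^ 2 + B * n + C := by
          refine dvd_trans ?_ hqn
          push_cast
          exact dvd_pow_self _ (by norm_num)
        have h7 : (q : ℤ) ∣ (n : ℤ) - (a : ℤ) := by
          have h4 : (Q : ℤ) ∣ (n : ℤ) - ((n % Q : ℕ) : ℤ) := by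
            rw [Int.natCast_mod]
            exact Int.dvd_self_sub_emod
          rw [hn1.2] at h4
          exact (Int.natCast_dvd_natCast.2 hqQ).trans h4
        have h8 := dvd_sub h6 (h7.mul_right (A * ((n : ℤ) + a) + B))
        have e : A * (n : ℤ) ^ 2 + B * n + C - ((n : ℤ) - a) * (A * ((n : ℤ) + a) + B) =
          A * (a : ℤ) ^ 2 + B * a + C := by ring
        rwa [e] at h8
      · right
        refine ⟨hn1, q, ?_, hqn⟩
        rw [hP2, mem_filter]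
        exact ⟨hq, h5⟩
    have h2 : (((SC N M Q a).filter (DivS A B C P1)).card : ℝ) ≤ 6 * (H / t) := by
      have h3 := divS_card A B C P1 (fun q hq => hgood q (mem_filter.1 hq).1) Q hQ
        (fun q hq => (mem_filter.1 hq).2.2) N M a
      have h4 : ∑ q ∈ P1, 1 / (q : ℝ) ^ 2 ≤ 2 / (X : ℝ) ^ ζ := by
        apply tail_sq P1 _ (by
          have : (0 : ℝ) ≤ ((A.natAbs + (B ^ 2 - 4 * A * C).natAbs : ℕ) : ℝ) := Nat.cast_nonneg _
          linarith)
        intro q hq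
        exact (hpr q (mem_filter.1 hq).1).2.1
      have h5 : (P1.card : ℝ) ≤ R := by
        apply card_lt P1 R (by linarith)
        intro q hq
        exact ⟨(hpr q (mem_filter.1 hq).1).1.one_le, (mem_filter.1 hq).2.1.le⟩
      have h6 : H * (2 / (X : ℝ) ^ ζ) ≤ 2 * (H / t) := by
        have : 2 / (X : ℝ) ^ ζ ≤ 2 / t := div_le_div_of_nonneg_left (by norm_num) ht0 htζ
        calc H * (2 / (X : ℝ) ^ ζ) ≤ H * (2 / t) := mul_le_mul_of_nonneg_left this hH0.le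
          _ = _ := by ring
      have h7 : H * ∑ q ∈ P1, 1 / (q : ℝ) ^ 2 ≤ 2 * (H / t) :=
        (mul_le_mul_of_nonneg_left h4 hH0.le).trans h6
      rw [← hH] at h3
      linarith
    have h3 : (dct A B C (pr X ζ υ) N M Q a : ℝ) ≤
        (((SC N M Q a).filter (DivS A B C P1)).card : ℝ) +
        (((SC N M Q a).filter (DivS A B C P2)).card : ℝ) := by exact_mod_cast h1
    have h4 : 7 * H / t = 6 * (H / t) + H / t := by ring
    linarith
  have hB := bad_cls2 (DivS A B C P2) N M Q hM hQ t ht0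
  have hB2 := divS_card A B C P2 (fun q hq => hgood q (mem_filter.1 hq).1) 1 one_pos
    (fun q hq hd => by
      have h1 := (hpr q (mem_filter.1 hq).1).1
      have h2 := Nat.le_of_dvd one_pos hd
      have h3 := h1.two_le
      omega) N M 0
  have hB3 : ∑ q ∈ P2, 1 / (q : ℝ) ^ 2 ≤ 2 / R :=
    tail_sq P2 R hR2 (fun q hq => (mem_filter.1 hq).2)
  have hB4 : (P2.card : ℝ) ≤ (X : ℝ) ^ υ := by
    apply card_lt P2 _ hXυ.le
    intro q hq
    exact ⟨(hpr q (mem_filter.1 hq).1).1.one_le, (hpr q (mem_filter.1 hq).1).2.2⟩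
  have hB5 : (((SC N M 1 0).filter (DivS A B C P2)).card : ℝ) ≤ 4 * t * Q + 2 * (X : ℝ) ^ υ := by
    refine hB2.trans ?_
    rw [Nat.cast_one, div_one]
    have h1 : (M : ℝ) * ∑ q ∈ P2, 1 / (q : ℝ) ^ 2 ≤ 2 * t * Q := by
      calc (M : ℝ) * ∑ q ∈ P2, 1 / (q : ℝ) ^ 2 ≤ M * (2 / R) :=
            mul_le_mul_of_nonneg_left hB3 hM0.le
        _ = 2 * t * Q := by
            rw [hR, hH]
            field_simp
    linarith
  calc (((range Q).filter (fun a : ℕ =>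
        (∀ p : ℕ, p.Prime → p ∣ Q → ¬ (p : ℤ) ∣ A * (a : ℤ) ^ 2 + B * a + C) ∧
        7 * H / t < (dct A B C (pr X ζ υ) N M Q a : ℝ))).card : ℝ) ≤ _ := by
        exact_mod_cast card_le_card hsub
    _ ≤ (Q : ℝ) / M * t * (((SC N M 1 0).filter (DivS A B C P2)).card : ℝ) := hB
    _ ≤ (Q : ℝ) / M * t * (4 * t * Q + 2 * (X : ℝ) ^ υ) :=
        mul_le_mul_of_nonneg_left hB5 (by positivity)
    _ = 4 * (t * t) * (M * ((Q : ℝ) / M) ^ 2) + 2 * t * ((Q : ℝ) / M * (X : ℝ) ^ υ) := by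
        field_simp
    _ ≤ (X : ℝ) ^ (2 * ε) * (M * ((Q : ℝ) / M) ^ 2) +
        (X : ℝ) ^ (2 * ε) * ((Q : ℝ) / M * (X : ℝ) ^ υ) := by
        apply add_le_add
        · apply mul_le_mul_of_nonneg_right _ (by positivity)
          rw [hX2ε, htt]
          nlinarith
        · apply mul_le_mul_of_nonneg_right _ (by positivity)
          rw [hX2ε, ← htt]
          nlinarith
    _ = (M * ((Q : ℝ) / M) ^ 2 + (Q : ℝ) / M * (X : ℝ) ^ υ) * (X : ℝ) ^ (2 * ε) := by ring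

end Pool.Agent.L7h27.AP
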