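import Pool.Agent.L7h27.AP.Eng
import Pool.Agent.R498.ShortUpper

/-! Primes of the form `n ^ 2 + 1` in residue classes: the upper bound. -/

set_option autoImplicit false

namespace Pool.Agent.L7h27.AP

open Finset Polynomial Filter Topology
open Pool.Agent.W23.DC
open Pool.Agent.Y882
open Pool.Agent.Y882.PX
open Pool.Agent.Y882.SI
open Pool.Agent.Y882.JR
open Pool.Agent.Y781.JR

/-- the number of the primes `n ^ 2 + 1` with `n ≡ a` modulo `Q` in `(N, N + M]` -/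
def prc (N M Q a : ℕ) : ℕ := ((SC N M Q a).filter (fun n => (n ^ 2 + 1).Prime)).card

/-- the factor of the modulus -/
noncomputable def lf (Q : ℕ) : ℝ := ∏ p ∈ Q.primeFactors, (1 - (ro (QF 1) 0 p : ℝ) / p)⁻¹

theorem fac_pos (a : ℤ) (p : ℕ) (hp : p.Prime) : 0 < 1 - (ro (QF a) 0 p : ℝ) / p ∧
    1 - (ro (QF a) 0 p : ℝ) / p ≤ 1 := by
  have hp0 : (0 : ℝ) < p := by exact_mod_cast hp.pos
  constructor
  · rw [sub_pos, div_lt_one hp0]
    have h : ro (QF a) 0 p < p := by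
      rcases hp.eq_two_or_odd' with h2 | h2
      · rw [h2, ro_quad_two]
        norm_num
      · have h3 := ro_quad_le a p hp
        have h4 : 2 < p := by
          have := hp.two_le
          rcases h2 with ⟨k, hk⟩
          omega
        omega
    exact_mod_cast h
  · have : 0 ≤ (ro (QF a) 0 p : ℝ) / p := by positivity
    linarith

theorem lf_one (Q : ℕ) : 1 ≤ lf Q := by
  unfold lf
  rw [prod_inv_distrib]
  rw [one_le_inv_iff₀]
  constructor
  · apply prod_pos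
    intro p hp
    exact (fac_pos 1 p (Nat.prime_of_mem_primeFactors hp)).1
  · apply prod_le_one
    · intro p hp
      exact (fac_pos 1 p (Nat.prime_of_mem_primeFactors hp)).1.le
    · intro p hp
      exact (fac_pos 1 p (Nat.prime_of_mem_primeFactors hp)).2

theorem PZ_prime (Y : ℕ) (ζ : ℝ) : ∀ p ∈ PZ Y ζ, p.Prime := by
  intro p hp
  unfold PZ at hp
  rw [mem_filter] at hp
  exact hp.2.1

/-- the density outside the modulus -/
theorem vq_le (Y : ℕ) (ζ : ℝ) (Q : ℕ) (hQ : 0 < Q) : vq (QF 1) Y ζ Q ≤ vv (QF 1) Y ζ * lf Q := by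
  classical
  have h1 : vv (QF 1) Y ζ = (∏ p ∈ (PZ Y ζ).filter (fun p => p ∣ Q), (1 - (ro (QF 1) 0 p : ℝ) / p)) *
      vq (QF 1) Y ζ Q := by
    unfold vv vq PQ
    rw [prod_filter_mul_prod_filter_not]
  have h2 : 0 < vq (QF 1) Y ζ Q := by
    unfold vq PQ
    apply prod_pos
    intro p hp
    exact (fac_pos 1 p (PZ_prime Y ζ p (mem_filter.1 hp).1)).1
  have hpf : ∀ p ∈ Q.primeFactors, 0 < 1 - (ro (QF 1) 0 p : ℝ) / p ∧
      1 - (ro (QF 1) 0 p : ℝ) / p ≤ 1 := fun p hp => fac_pos 1 p (Nat.prime_of_mem_primeFactors hp)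
  have h3 : ∏ p ∈ Q.primeFactors, (1 - (ro (QF 1) 0 p : ℝ) / p) ≤
      ∏ p ∈ (PZ Y ζ).filter (fun p => p ∣ Q), (1 - (ro (QF 1) 0 p : ℝ) / p) := by
    have hsub : (PZ Y ζ).filter (fun p => p ∣ Q) ⊆ Q.primeFactors := by
      intro p hp
      rw [mem_filter] at hp
      exact Nat.mem_primeFactors.2 ⟨PZ_prime Y ζ p hp.1, hp.2, hQ.ne'⟩
    rw [← prod_sdiff hsub]
    calc (∏ p ∈ Q.primeFactors \ (PZ Y ζ).filter (fun p => p ∣ Q), (1 - (ro (QF 1) 0 p : ℝ) / p)) *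
        ∏ p ∈ (PZ Y ζ).filter (fun p => p ∣ Q), (1 - (ro (QF 1) 0 p : ℝ) / p) ≤
        1 * ∏ p ∈ (PZ Y ζ).filter (fun p => p ∣ Q), (1 - (ro (QF 1) 0 p : ℝ) / p) := by
          apply mul_le_mul_of_nonneg_right
          · apply prod_le_one
            · intro p hp
              exact (hpf p (mem_sdiff.1 hp).1).1.le
            · intro p hp
              exact (hpf p (mem_sdiff.1 hp).1).2
          · exact prod_nonneg fun p hp => (hpf p (hsub hp)).1.le
      _ = _ := one_mul _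
  have h4 : 0 < ∏ p ∈ Q.primeFactors, (1 - (ro (QF 1) 0 p : ℝ) / p) :=
    prod_pos fun p hp => (hpf p hp).1
  unfold lf
  rw [prod_inv_distrib, h1, ← div_eq_mul_inv, le_div_iff₀ h4]
  rw [mul_comm]
  exact mul_le_mul_of_nonneg_right h3 h2.le

/-- the density outside the modulus is at least the full one -/
theorem vv_le_vq (a : ℤ) (Y : ℕ) (ζ : ℝ) (Q : ℕ) : vv (QF a) Y ζ ≤ vq (QF a) Y ζ Q := by
  classical
  have h1 : vv (QF a) Y ζ = (∏ p ∈ (PZ Y ζ).filter (fun p => p ∣ Q), (1 - (ro (QF a) 0 p : ℝ) / p)) *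
      vq (QF a) Y ζ Q := by
    unfold vv vq PQ
    rw [prod_filter_mul_prod_filter_not]
  rw [h1]
  calc _ ≤ 1 * vq (QF a) Y ζ Q := by
        apply mul_le_mul_of_nonneg_right
        · apply prod_le_one
          · intro p hp
            exact (fac_pos a p (PZ_prime Y ζ p (mem_filter.1 hp).1)).1.le
          · intro p hp
            exact (fac_pos a p (PZ_prime Y ζ p (mem_filter.1 hp).1)).2
        · unfold vq PQ
          apply prod_nonneg
          intro p hp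
          exact (fac_pos a p (PZ_prime Y ζ p (mem_filter.1 hp).1)).1.le
    _ = _ := one_mul _

theorem lo_le_vv (a : ℤ) (Y : ℕ) (ζ : ℝ) : lo (QF a) Y ≤ vv (QF a) Y ζ := by
  classical
  unfold lo vv
  have hsub : PZ Y ζ ⊆ (Icc 1 Y).filter Nat.Prime := by
    intro p hp
    unfold PZ at hp
    rw [mem_filter] at hp
    rw [mem_filter]
    exact ⟨hp.1, hp.2.1⟩
  rw [← prod_sdiff hsub]
  calc (∏ p ∈ (Icc 1 Y).filter Nat.Prime \ PZ Y ζ, (1 - (ro (QF a) 0 p : ℝ) / p)) *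
      ∏ p ∈ PZ Y ζ, (1 - (ro (QF a) 0 p : ℝ) / p) ≤
      1 * ∏ p ∈ PZ Y ζ, (1 - (ro (QF a) 0 p : ℝ) / p) := by
        apply mul_le_mul_of_nonneg_right
        · apply prod_le_one
          · intro p hp
            exact (fac_pos a p (mem_filter.1 (mem_sdiff.1 hp).1).2).1.le
          · intro p hp
            exact (fac_pos a p (mem_filter.1 (mem_sdiff.1 hp).1).2).2
        · exact prod_nonneg fun p hp => (fac_pos a p (PZ_prime Y ζ p hp)).1.le
    _ = _ := one_mul _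

theorem rho_abs (a : ℤ) (p : ℕ) (hp : p.Prime) : |(ro (QF a) 0 p : ℝ) / p| ≤ 2 / p := by
  rw [abs_of_nonneg (by positivity)]
  apply div_le_div_of_nonneg_right _ (Nat.cast_nonneg _)
  exact_mod_cast ro_quad_le a p hp

/-- primes and rough values -/
theorem prc_le (X : ℕ) (hX : 2 ≤ X) (τ : ℝ) (hτ : 0 < τ) (N M Q a : ℕ) (hQ : 0 < Q) (ha : a < Q) :
    (prc N M Q a : ℝ) ≤ rgq (QF 1) X τ N M Q a + ((X : ℝ) ^ (τ / 2) / Q + 1) := by
  classical
  have hX0 : (0 : ℝ) < X := by exact_mod_cast (by omega : 0 < X)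
  set R : ℕ := ⌊(X : ℝ) ^ (τ / 2)⌋₊ with hR
  have hRle : (R : ℝ) ≤ (X : ℝ) ^ (τ / 2) := Nat.floor_le (by positivity)
  have h1 : (SC N M Q a).filter (fun n => (n ^ 2 + 1).Prime) ⊆
      (SC N M Q a).filter (fun n : ℕ => ∀ p ∈ PQ X τ Q, ¬ p ∣ ((QF 1).eval (n : ℤ)).natAbs) ∪
      SC 0 R Q a := by
    intro n hn
    rw [mem_filter] at hn
    rw [mem_union]
    by_cases hnR : R < n
    · left
      rw [mem_filter]
      refine ⟨hn.1, fun p hp hd => ?_⟩
      have hpp := PZ_prime X τ p (mem_filter.1 hp).1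
      have e1 : ((QF 1).eval (n : ℤ)).natAbs = n ^ 2 + 1 := by
        rw [QF_eval]
        have : (n : ℤ) ^ 2 + 1 = ((n ^ 2 + 1 : ℕ) : ℤ) := by push_cast; ring
        rw [this, Int.natAbs_natCast]
      rw [e1] at hd
      have e2 : p = n ^ 2 + 1 := (Nat.prime_dvd_prime_iff_eq hpp hn.2).1 hd
      have e3 : (p : ℝ) < (X : ℝ) ^ τ := by
        have h3 := (mem_filter.1 hp).1
        unfold PZ at h3
        rw [mem_filter] at h3
        exact (tt_lt X p τ hX hpp.pos).1 h3.2.2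
      have e4 : (X : ℝ) ^ (τ / 2) < n := Nat.lt_of_floor_lt hnR
      have e5 : (X : ℝ) ^ τ = ((X : ℝ) ^ (τ / 2)) ^ 2 := by
        rw [← Real.rpow_natCast, ← Real.rpow_mul hX0.le]
        norm_num
      have e6 : (p : ℝ) = (n : ℝ) ^ 2 + 1 := by rw [e2]; push_cast; ring
      rw [e5, e6] at e3
      have e7 : 0 ≤ (X : ℝ) ^ (τ / 2) := by positivity
      nlinarith
    · right
      push Not at hnR
      have h2 := hn.1
      unfold SC at h2 ⊢
      rw [mem_filter, mem_Ioc] at h2 ⊢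
      refine ⟨⟨by omega, by omega⟩, h2.2⟩
  have h2 : (prc N M Q a : ℝ) ≤ rgq (QF 1) X τ N M Q a + (SC 0 R Q a).card := by
    unfold prc rgq
    exact_mod_cast (card_le_card h1).trans (card_union_le _ _)
  have h3 := cls_card 0 R Q a hQ ha
  change |((SC 0 R Q a).card : ℝ) - (R : ℝ) / Q| ≤ 1 at h3
  have h4 := (abs_le.1 h3).2
  have h5 : (R : ℝ) / Q ≤ (X : ℝ) ^ (τ / 2) / Q := div_le_div_of_nonneg_right hRle (Nat.cast_nonneg _)
  linarith

open Classical in
theorem mainC : ∃ L : ℝ, 0 < L ∧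
    Tendsto (fun x : ℕ => ∏ p ∈ (Finset.range (x + 1)).filter (fun p => p.Prime ∧ Odd p),
            (1 - (((ZMod.χ₄ (p : ZMod 4) : ℤ) : ℝ)) / ((p : ℝ) - 1))) atTop (𝓝 L) ∧
    ∀ τ δ ε : ℝ, 0 < τ → τ < 1 → 0 < δ → 0 < ε →
      ∀ᶠ X : ℕ in atTop, ∀ N M Q : ℕ, 1 ≤ M → 1 ≤ Q → Q ≤ X →
        (((range Q).filter (fun a =>
        (4 / τ + δ) * (L / 2 * lf Q * ((M : ℝ) / Q) / Real.log X) < (prc N M Q a : ℝ))).card : ℝ) ≤
        (M + (X : ℝ) ^ (2 * τ)) * ((Q : ℝ) / M) ^ 2 * (X : ℝ) ^ ε := by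
  obtain ⟨A0, F, f, hSF⟩ := Pool.Agent.W366.DC.SFX
  have hA : A0 = 2 * Real.exp Real.eulerMascheroniConstant :=
    A0_eq Pool.Agent.Y445.JRB.t hSF
  have hns : ¬ IsSquare (-(1 : ℤ)) := by
    rintro ⟨r, hr⟩
    nlinarith [mul_self_nonneg r]
  obtain ⟨C, hC, hR⟩ := RR_conv 1 hns
  refine ⟨C, hC, ?_, ?_⟩
  · have := hR.comp (tendsto_add_atTop_nat 1)
    refine this.congr (fun x => ?_)
    exact Pool.Agent.R498.SU.RR_one x
  intro τ δ ε hτ0 hτ hδ hε
  obtain ⟨C', hC', hN', hz⟩ := Pool.Agent.Y781.JR.t 1 hns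
  -- the two constants agree
  have hCC : C' = C := by
    refine tendsto_nhds_unique hN' ?_
    refine hR.congr (fun N => ?_)
    rw [dens_eq, Nat.ceil_natCast]
    change RR 1 N = GG N * RR 1 N / GG N
    rw [mul_div_cancel_left₀ _ (GG_pos N).ne']
  rw [hCC] at hz
  have hF1 : F 1 = A0 := by rw [hSF.F3 1 le_rfl (by norm_num), div_one]
  set γ := Real.eulerMascheroniConstant with hγ
  have hE : 0 < Real.exp γ := Real.exp_pos _
  have hXr : Tendsto (fun X : ℕ => (X : ℝ)) atTop atTop := tendsto_natCast_atTop_atTop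
  have hz2 : Tendsto (fun X : ℕ => dens 1 ((X : ℝ) ^ τ) * Real.log X) atTop
      (𝓝 (C * Real.exp (-γ) / τ)) := by
    have h1 := (hz.comp ((tendsto_rpow_atTop hτ0).comp hXr)).div_const τ
    refine h1.congr' ?_
    filter_upwards [eventually_gt_atTop 0] with X hX
    have hX0 : (0 : ℝ) < X := by exact_mod_cast hX
    simp only [Function.comp]
    rw [Real.log_rpow hX0]
    field_simp
  set δ' : ℝ := δ * Real.exp γ * τ / 8 with hδ'
  have hδ'0 : 0 < δ' := by positivity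
  have hlim : Tendsto (fun X : ℕ => (A0 + δ') * (dens 1 ((X : ℝ) ^ τ) * Real.log X)) atTop
      (𝓝 ((A0 + δ') * (C * Real.exp (-γ) / τ))) := hz2.const_mul _
  have hval : (A0 + δ') * (C * Real.exp (-γ) / τ) = (4 / τ + δ / 4) * (C / 2) := by
    rw [hA, hδ', Real.exp_neg]
    field_simp
    ring
  rw [hval] at hlim
  have ev1 : ∀ᶠ X : ℕ in atTop, (A0 + δ') * (dens 1 ((X : ℝ) ^ τ) * Real.log X) <
      (4 / τ + δ / 2) * (C / 2) := by
    apply hlim.eventually (gt_mem_nhds _)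
    have : 0 < δ * C := by positivity
    nlinarith
  obtain ⟨ε₁, η, hε₁, hε₁ζ, hη, Y1, HE⟩ := engC 2 A0 F f hSF τ τ δ' ε hτ0 le_rfl hτ hδ'0 hε
  rw [div_self hτ0.ne', hF1] at HE
  obtain ⟨Y2, HM⟩ := mer_quad 1 hns ε₁ τ (η / 2) hε₁ hτ.le (by linarith)
  obtain ⟨Y3, HD⟩ := mer_drop ε₁ τ η hε₁ hη
  obtain ⟨c, hc, HL⟩ := lo_quad 1 hns
  have ev2 : ∀ᶠ Y : ℕ in atTop, Real.log Y / c ≤ (Y : ℝ) ^ (ε / 32) := by
    have h1 := (isLittleO_log_rpow_atTop (show 0 < ε / 32 by linarith)).bound hc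
    filter_upwards [tendsto_natCast_atTop_atTop.eventually h1, eventually_ge_atTop 1] with Y hY hY1
    have hY1r : (1 : ℝ) ≤ Y := by exact_mod_cast hY1
    rw [Real.norm_of_nonneg (Real.log_nonneg hY1r), Real.norm_of_nonneg (by positivity)] at hY
    rw [div_le_iff₀ hc]
    linarith
  have ev3 : ∀ᶠ Y : ℕ in atTop, (Y : ℝ) ^ (-(τ / 2)) + (Y : ℝ) ^ (-ε) ≤
      δ / 2 * (C / 2) / Real.log Y := by
    have h1 := (isLittleO_log_rpow_atTop (show 0 < τ / 2 by linarith)).bound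
      (show (0 : ℝ) < δ * C / 8 by positivity)
    have h2 := (isLittleO_log_rpow_atTop hε).bound (show (0 : ℝ) < δ * C / 8 by positivity)
    filter_upwards [tendsto_natCast_atTop_atTop.eventually h1,
      tendsto_natCast_atTop_atTop.eventually h2, eventually_ge_atTop 3] with Y k1 k2 k3
    have hYr : (3 : ℝ) ≤ Y := by exact_mod_cast k3
    have hY0 : (0 : ℝ) < Y := by linarith
    have hl : 0 < Real.log Y := Real.log_pos (by linarith)
    rw [Real.norm_of_nonneg hl.le, Real.norm_of_nonneg (by positivity)] at k1 k2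
    rw [le_div_iff₀ hl, add_mul]
    have q1 : (Y : ℝ) ^ (-(τ / 2)) * Real.log Y ≤ δ * C / 8 := by
      rw [Real.rpow_neg hY0.le, inv_mul_le_iff₀ (by positivity)]
      linarith
    have q2 : (Y : ℝ) ^ (-ε) * Real.log Y ≤ δ * C / 8 := by
      rw [Real.rpow_neg hY0.le, inv_mul_le_iff₀ (by positivity)]
      linarith
    linarith
  filter_upwards [ev1, ev2, ev3, eventually_ge_atTop 3, eventually_ge_atTop Y1,
    eventually_ge_atTop Y2, eventually_ge_atTop Y3] with X e1 e2 e3 e5 hX1 hX2 hX3 N M Q hM hQ hQX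
  have hXr3 : (3 : ℝ) ≤ X := by exact_mod_cast e5
  have hX0 : (0 : ℝ) < X := by linarith
  have hX1r : (1 : ℝ) ≤ X := by linarith
  have hlX : 0 < Real.log X := Real.log_pos (by linarith)
  have hM0 : (0 : ℝ) < M := by exact_mod_cast hM
  have hQ0 : (0 : ℝ) < Q := by exact_mod_cast hQ
  have hQ1 : (1 : ℝ) ≤ Q := by exact_mod_cast hQ
  set B : ℝ := (M + (X : ℝ) ^ (2 * τ)) * ((Q : ℝ) / M) ^ 2 * (X : ℝ) ^ ε with hB
  rcases le_or_gt (Q : ℝ) B with hQB | hQB
  · refine le_trans ?_ hQB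
    have := card_filter_le (range Q) (fun a =>
        (4 / τ + δ) * (C / 2 * lf Q * ((M : ℝ) / Q) / Real.log X) < (prc N M Q a : ℝ))
    rw [card_range] at this
    exact_mod_cast this
  have hX2τ : (0 : ℝ) < (X : ℝ) ^ (2 * τ) := by positivity
  have hXε : (0 : ℝ) < (X : ℝ) ^ ε := by positivity
  have n1 : (X : ℝ) ^ ε < M / Q := by
    have h1 : M * ((Q : ℝ) / M) ^ 2 * (X : ℝ) ^ ε < Q := by
      refine lt_of_le_of_lt ?_ hQB
      rw [hB]
      apply mul_le_mul_of_nonneg_right _ hXε.le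
      apply mul_le_mul_of_nonneg_right _ (by positivity)
      linarith
    have h2 : M * ((Q : ℝ) / M) ^ 2 * (X : ℝ) ^ ε = (Q ^ 2 / M) * (X : ℝ) ^ ε := by
      field_simp
    rw [h2, div_mul_eq_mul_div, div_lt_iff₀ hM0] at h1
    rw [lt_div_iff₀ hQ0]
    nlinarith
  have n2 : (X : ℝ) ^ τ < M := by
    have h1 : (X : ℝ) ^ (2 * τ) * ((Q : ℝ) / M) ^ 2 * (X : ℝ) ^ ε < Q := by
      refine lt_of_le_of_lt ?_ hQB
      rw [hB]
      apply mul_le_mul_of_nonneg_right _ hXε.le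
      apply mul_le_mul_of_nonneg_right _ (by positivity)
      linarith
    have h3 : (1 : ℝ) ≤ (X : ℝ) ^ ε := Real.one_le_rpow hX1r hε.le
    have h2 : (X : ℝ) ^ (2 * τ) * ((Q : ℝ) / M) ^ 2 ≤
        (X : ℝ) ^ (2 * τ) * ((Q : ℝ) / M) ^ 2 * (X : ℝ) ^ ε :=
      le_mul_of_one_le_right (by positivity) h3
    have h4 : (X : ℝ) ^ (2 * τ) * ((Q : ℝ) / M) ^ 2 < Q := lt_of_le_of_lt h2 h1
    rw [div_pow, mul_div_assoc', div_lt_iff₀ (by positivity)] at h4
    have h5 : (X : ℝ) ^ (2 * τ) * Q < (M : ℝ) ^ 2 := by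
      have : ((X : ℝ) ^ (2 * τ) * Q) * Q < (M : ℝ) ^ 2 * Q := by nlinarith
      exact lt_of_mul_lt_mul_right this hQ0.le
    have h6 : (X : ℝ) ^ (2 * τ) < (M : ℝ) ^ 2 := by nlinarith
    have h7 : (X : ℝ) ^ (2 * τ) = ((X : ℝ) ^ τ) ^ 2 := by
      rw [← Real.rpow_natCast, ← Real.rpow_mul hX0.le]
      congr 1
      push_cast
      ring
    rw [h7] at h6
    exact lt_of_pow_lt_pow_left₀ 2 hM0.le h6
  have hV : (X : ℝ) ^ (-(ε / 32)) ≤ vq (QF 1) X τ Q := by
    refine le_trans ?_ (((HL X e5).trans (lo_le_vv 1 X τ)).trans (vv_le_vq 1 X τ Q))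
    rw [Real.rpow_neg hX0.le]
    have h6 := inv_anti₀ (show 0 < Real.log X / c by positivity) e2
    rwa [inv_div] at h6
  have hMer := HD X hX3 Q hQ hQX (fun p => (ro (QF 1) 0 p : ℝ) / p) (rho_abs 1) (HM X hX2)
  have hAA := HE X hX1 (QF 1) N M Q (fun p hp => ro_quad_le 1 p hp) hM hQ hQX hV hMer
  refine le_trans ?_ hAA
  norm_cast
  apply card_le_card
  intro a ha
  rw [mem_filter] at ha ⊢
  refine ⟨ha.1, fun hcon => ?_⟩
  have haQ : a < Q := mem_range.1 ha.1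
  have h1 := prc_le X (by omega) τ hτ0 N M Q a hQ haQ
  have h2 := hcon.2
  have h3 := vq_le X τ Q hQ
  rw [vv_eq 1 X (by omega) τ hτ.le] at h3
  set d : ℝ := dens 1 ((X : ℝ) ^ τ) with hd
  set H : ℝ := (M : ℝ) / Q with hH
  have hH0 : 0 < H := by positivity
  have hlf := lf_one Q
  have h4 : (A0 + δ') * (H * vq (QF 1) X τ Q) ≤ (4 / τ + δ / 2) * (C / 2 * lf Q * H / Real.log X) := by
    have hA00 : 0 < A0 := hSF.pos
    calc (A0 + δ') * (H * vq (QF 1) X τ Q) ≤ (A0 + δ') * (H * (d * lf Q)) := by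
          apply mul_le_mul_of_nonneg_left _ (by linarith)
          exact mul_le_mul_of_nonneg_left h3 hH0.le
      _ = ((A0 + δ') * (d * Real.log X)) * (lf Q * H / Real.log X) := by
          field_simp
      _ ≤ ((4 / τ + δ / 2) * (C / 2)) * (lf Q * H / Real.log X) := by
          apply mul_le_mul_of_nonneg_right e1.le
          positivity
      _ = _ := by ring
  have h5 : (X : ℝ) ^ (τ / 2) / Q + 1 ≤ δ / 2 * (C / 2 * lf Q * H / Real.log X) := by
    have q1 : (X : ℝ) ^ (τ / 2) / Q ≤ H * (X : ℝ) ^ (-(τ / 2)) := by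
      have : (X : ℝ) ^ (τ / 2) = (X : ℝ) ^ τ * (X : ℝ) ^ (-(τ / 2)) := by
        rw [← Real.rpow_add hX0]
        congr 1
        ring
      rw [this, hH, div_mul_eq_mul_div]
      apply div_le_div_of_nonneg_right _ hQ0.le
      exact mul_le_mul_of_nonneg_right n2.le (by positivity)
    have q2 : 1 ≤ H * (X : ℝ) ^ (-ε) := by
      rw [Real.rpow_neg hX0.le, ← div_eq_mul_inv, le_div_iff₀ hXε]
      linarith
    calc (X : ℝ) ^ (τ / 2) / Q + 1 ≤ H * ((X : ℝ) ^ (-(τ / 2)) + (X : ℝ) ^ (-ε)) := by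
          rw [mul_add]
          linarith
      _ ≤ H * (δ / 2 * (C / 2) / Real.log X) := mul_le_mul_of_nonneg_left e3 hH0.le
      _ = 1 * (δ / 2 * (C / 2 * H / Real.log X)) := by ring
      _ ≤ lf Q * (δ / 2 * (C / 2 * H / Real.log X)) := by
          apply mul_le_mul_of_nonneg_right hlf
          positivity
      _ = _ := by ring
  have h6 := ha.2
  have h7 : (4 / τ + δ) * (C / 2 * lf Q * H / Real.log X) =
      (4 / τ + δ / 2) * (C / 2 * lf Q * H / Real.log X) +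
        δ / 2 * (C / 2 * lf Q * H / Real.log X) := by ring
  linarith

end Pool.Agent.L7h27.AP
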