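import Pool.Agent.Y882.SI.Var
import Pool.Agent.L7h27.AP.Geo

/-! Values of polynomials in an interval: mean square of the error terms over the residue classes
modulo an arbitrary number. -/

set_option autoImplicit false

namespace Pool.Agent.L7h27.AP

open Finset Polynomial
open H343 (ex)
open Pool.Agent.Y882.PX
open Pool.Agent.Y882.SI

/-- the coefficient of the fraction `b / f` -/
noncomputable def GP (F : ℤ[X]) (P : Finset ℕ) (c : Finset ℕ → ℝ) (D f b : ℕ) : ℂ :=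
  ex (-((b : ℝ) / f)) * ∑ T ∈ P.powerset.filter (fun T => ∏ p ∈ T, p ≤ D ∧ f ∣ ∏ p ∈ T, p),
    ((c T / ((∏ p ∈ T, p : ℕ) : ℝ) : ℝ) : ℂ) * Q2 F (∏ p ∈ T, p) 1 f b

/-- the weighted error at `n` -/
noncomputable def EW (F : ℤ[X]) (P : Finset ℕ) (c : Finset ℕ → ℝ) (n : ℕ) : ℝ :=
  ∑ T ∈ P.powerset, c T * ri F (∏ p ∈ T, p) 1 (n - 1)

theorem key (F : ℤ[X]) (P : Finset ℕ) (hP : ∀ p ∈ P, p.Prime) (c : Finset ℕ → ℝ) (D : ℕ)
    (hc : ∀ T ⊆ P, c T ≠ 0 → ∏ p ∈ T, p ≤ D) (n : ℕ) (hn : 1 ≤ n) :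
    ((EW F P c n : ℝ) : ℂ) = ∑ f ∈ Icc 1 D, ∑ b ∈ (range f).filter (fun b => b.Coprime f),
      ex ((n : ℝ) * ((b : ℝ) / f)) * GP F P c D f b := by
  classical
  have hpos : ∀ T ⊆ P, 0 < ∏ p ∈ T, p := fun T hT =>
    Nat.pos_of_ne_zero (prod_ne_zero_iff.2 fun p hp => (hP p (hT hp)).ne_zero)
  have h1 : ∀ f ∈ Icc 1 D, ∑ b ∈ (range f).filter (fun b => b.Coprime f),
      ex ((n : ℝ) * ((b : ℝ) / f)) * GP F P c D f b =
        ∑ T ∈ P.powerset, if (∏ p ∈ T, p ≤ D ∧ f ∣ ∏ p ∈ T, p) then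
        ((c T / ((∏ p ∈ T, p : ℕ) : ℝ) : ℝ) : ℂ) *
          ∑ b ∈ (range f).filter (fun b => b.Coprime f),
            ex ((b : ℝ) * ((n - 1 : ℕ) : ℝ) / f) * Q2 F (∏ p ∈ T, p) 1 f b else 0 := by
    intro f _
    rw [← sum_filter]
    simp_rw [mul_sum]
    rw [sum_comm]
    apply sum_congr rfl
    intro b _
    unfold GP
    rw [← mul_assoc, mul_sum]
    apply sum_congr rfl
    intro T _
    have e : ex ((n : ℝ) * ((b : ℝ) / f)) * ex (-((b : ℝ) / f)) =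
        ex ((b : ℝ) * ((n - 1 : ℕ) : ℝ) / f) := by
      rw [← H343.Gauss.ex_add]
      congr 1
      rw [Nat.cast_sub hn]
      push_cast
      ring
    rw [e]
    ring
  rw [sum_congr rfl h1, sum_comm]
  unfold EW
  rw [Complex.ofReal_sum]
  apply sum_congr rfl
  intro T hT
  rw [mem_powerset] at hT
  by_cases hcT : c T = 0
  · simp [hcT]
  have hTD := hc T hT hcT
  have h2 : ∀ f ∈ Icc 1 D, (if (∏ p ∈ T, p ≤ D ∧ f ∣ ∏ p ∈ T, p) then
        ((c T / ((∏ p ∈ T, p : ℕ) : ℝ) : ℝ) : ℂ) *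
          ∑ b ∈ (range f).filter (fun b => b.Coprime f),
            ex ((b : ℝ) * ((n - 1 : ℕ) : ℝ) / f) * Q2 F (∏ p ∈ T, p) 1 f b else 0) =
      if f ∣ ∏ p ∈ T, p then ((c T / ((∏ p ∈ T, p : ℕ) : ℝ) : ℝ) : ℂ) *
          ∑ b ∈ (range f).filter (fun b => b.Coprime f),
            ex ((b : ℝ) * ((n - 1 : ℕ) : ℝ) / f) * Q2 F (∏ p ∈ T, p) 1 f b else 0 := by
    intro f _
    simp only [hTD, true_and]
  rw [sum_congr rfl h2, ← sum_filter]
  have h3 : (Icc 1 D).filter (fun f => f ∣ ∏ p ∈ T, p) = (∏ p ∈ T, p).divisors := by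
    ext f
    rw [mem_filter, mem_Icc, Nat.mem_divisors]
    constructor
    · rintro ⟨_, h⟩
      exact ⟨h, (hpos T hT).ne'⟩
    · rintro ⟨h, _⟩
      exact ⟨⟨Nat.pos_of_dvd_of_pos h (hpos T hT),
        (Nat.le_of_dvd (hpos T hT) h).trans hTD⟩, h⟩
  rw [h3, ← mul_sum]
  rw [Complex.ofReal_mul, ri_four F _ 1 (n - 1) (hpos T hT)]
  push_cast
  ring

theorem Q2_one (F : ℤ[X]) (q f b : ℕ) : ‖Q2 F q 1 f b‖ ≤ ro F 0 q := by
  unfold Q2
  split_ifs with h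
  · simp
  · rw [norm_mul]
    have h1 : ‖RS F q f b‖ ≤ ro F 0 q := by
      unfold RS
      refine (norm_sum_le _ _).trans ?_
      simp [norm_ex, RT_card]
    have h2 : ‖KS 1 f b‖ = 1 := by
      unfold KS
      simp [norm_ex]
    rw [h2, mul_one]
    exact h1

theorem GP_le (F : ℤ[X]) (P : Finset ℕ) (hP : ∀ p ∈ P, p.Prime) (c : Finset ℕ → ℝ) (L : ℝ)
    (hL : ∀ T, |c T| ≤ L) (D : ℕ) (B : ℝ) (hB0 : 0 ≤ B)
    (hB : ∀ T ⊆ P, ∏ p ∈ T, p ≤ D → (ro F 0 (∏ p ∈ T, p) : ℝ) ≤ B) (f b : ℕ) (hf : 0 < f) :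
    ‖GP F P c D f b‖ ≤ L * B * (1 + Real.log D) / f := by
  classical
  have hL0 : 0 ≤ L := (abs_nonneg _).trans (hL ∅)
  unfold GP
  rw [norm_mul, norm_ex, one_mul]
  refine (norm_sum_le _ _).trans ?_
  calc ∑ T ∈ P.powerset.filter (fun T => ∏ p ∈ T, p ≤ D ∧ f ∣ ∏ p ∈ T, p),
      ‖((c T / ((∏ p ∈ T, p : ℕ) : ℝ) : ℝ) : ℂ) * Q2 F (∏ p ∈ T, p) 1 f b‖
      ≤ ∑ T ∈ P.powerset.filter (fun T => ∏ p ∈ T, p ≤ D ∧ f ∣ ∏ p ∈ T, p),
        L * B * (1 / ((∏ p ∈ T, p : ℕ) : ℝ)) := by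
        apply sum_le_sum
        intro T hT
        rw [mem_filter, mem_powerset] at hT
        rw [norm_mul, Complex.norm_real, Real.norm_eq_abs, abs_div, Nat.abs_cast]
        have h1 := Q2_one F (∏ p ∈ T, p) f b
        have h2 := hB T hT.1 hT.2.1
        calc |c T| / ((∏ p ∈ T, p : ℕ) : ℝ) * ‖Q2 F (∏ p ∈ T, p) 1 f b‖ ≤
            L / ((∏ p ∈ T, p : ℕ) : ℝ) * B := by
              apply mul_le_mul _ (h1.trans h2) (norm_nonneg _) (by positivity)
              exact div_le_div_of_nonneg_right (hL T) (Nat.cast_nonneg _)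
          _ = _ := by ring
    _ = L * B * ∑ T ∈ P.powerset.filter (fun T => ∏ p ∈ T, p ≤ D ∧ f ∣ ∏ p ∈ T, p),
        (1 / ((∏ p ∈ T, p : ℕ) : ℝ)) := by rw [mul_sum]
    _ ≤ L * B * ((1 + Real.log D) / f) :=
        mul_le_mul_of_nonneg_left (tail_le P hP D f hf) (mul_nonneg hL0 hB0)
    _ = _ := by ring

theorem GP_zero (F : ℤ[X]) (P : Finset ℕ) (c : Finset ℕ → ℝ) (D f : ℕ) : GP F P c D f 0 = 0 := by
  unfold GP
  rw [sum_eq_zero, mul_zero]
  intro T _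
  unfold Q2
  rw [if_pos rfl, mul_zero]

theorem GP_ncop (F : ℤ[X]) (P : Finset ℕ) (hP : ∀ p ∈ P, p.Prime) (c : Finset ℕ → ℝ) (D Q f b : ℕ)
    (hPQ : ∀ p ∈ P, ¬ p ∣ Q) (hf : ¬ f.Coprime Q) : GP F P c D f b = 0 := by
  unfold GP
  rw [filter_false_of_mem, sum_empty, mul_zero]
  rintro T hT ⟨-, h⟩
  apply hf
  rw [mem_powerset] at hT
  refine Nat.Coprime.coprime_dvd_left h ?_
  apply Nat.Coprime.prod_left
  intro p hp
  exact ((hP p (hT hp)).coprime_iff_not_dvd).2 (hPQ p (hT hp))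

/-- the fractions of the `i`-th block -/
def FB (Q D i : ℕ) : Finset ((_ : ℕ) × ℕ) :=
  ((Icc 2 D).filter (fun f => Nat.log 2 f = i ∧ f.Coprime Q)).sigma
    (fun f => (range f).filter (fun b => b.Coprime f))

theorem FB_mem (Q D i : ℕ) (x : (_ : ℕ) × ℕ) (hx : x ∈ FB Q D i) :
    2 ≤ x.1 ∧ x.1 ≤ D ∧ 2 ^ i ≤ x.1 ∧ x.1 < 2 ^ (i + 1) ∧ x.1.Coprime Q ∧ x.2 < x.1 ∧
      x.2.Coprime x.1 := by
  unfold FB at hx
  rw [mem_sigma, mem_filter, mem_filter, mem_Icc, mem_range] at hx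
  obtain ⟨⟨⟨h1, h2⟩, h3, h4⟩, h5, h6⟩ := hx
  refine ⟨h1, h2, ?_, ?_, h4, h5, h6⟩
  · rw [← h3]
    exact Nat.pow_log_le_self 2 (by omega)
  · rw [← h3]
    exact Nat.lt_pow_succ_log_self (by norm_num) _

/-- the sum over the fractions of a block, one residue class of frequencies -/
theorem row (N M Q D i r : ℕ) :
    ∑ x ∈ FB Q D i, ‖KI N M ((x.2 : ℝ) / x.1 + (r : ℝ) / Q)‖ ≤
      2 * M + 4 ^ (i + 1) * (1 + Real.log (4 ^ (i + 1))) := by
  classical
  set R : ℕ := 4 ^ (i + 1) with hR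
  have hR2 : 2 ≤ R := by
    rw [hR, pow_succ]
    have : 1 ≤ 4 ^ i := Nat.one_le_pow _ _ (by norm_num)
    omega
  have hR0 : (0 : ℝ) < R := by exact_mod_cast (by omega : 0 < R)
  set φ : ((_ : ℕ) × ℕ) → ℕ := fun x => ⌊(R : ℝ) * Int.fract ((x.2 : ℝ) / x.1 + (r : ℝ) / Q)⌋₊ with hφ
  have h1 : ∑ x ∈ FB Q D i, ‖KI N M ((x.2 : ℝ) / x.1 + (r : ℝ) / Q)‖ ≤
      ∑ x ∈ FB Q D i, hc M R (φ x) := by
    apply sum_le_sum
    intro x _
    exact KI_cell N M R hR2 _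
  have hinj : Set.InjOn φ (FB Q D i) := by
    intro x hx y hy hxy
    rw [mem_coe] at hx hy
    obtain ⟨x1, x2, x3, x4, x5, x6, x7⟩ := FB_mem Q D i x hx
    obtain ⟨y1, y2, y3, y4, y5, y6, y7⟩ := FB_mem Q D i y hy
    set u := (x.2 : ℝ) / x.1 + (r : ℝ) / Q with hu
    set v := (y.2 : ℝ) / y.1 + (r : ℝ) / Q with hv
    have hxp : (0 : ℝ) < x.1 := by exact_mod_cast (by omega : 0 < x.1)
    have hyp : (0 : ℝ) < y.1 := by exact_mod_cast (by omega : 0 < y.1)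
    have e1 : ((φ x : ℕ) : ℝ) ≤ R * Int.fract u := Nat.floor_le (mul_nonneg hR0.le (Int.fract_nonneg _))
    have e2 : (R : ℝ) * Int.fract u < (φ x : ℕ) + 1 := Nat.lt_floor_add_one _
    have e3 : ((φ y : ℕ) : ℝ) ≤ R * Int.fract v := Nat.floor_le (mul_nonneg hR0.le (Int.fract_nonneg _))
    have e4 : (R : ℝ) * Int.fract v < (φ y : ℕ) + 1 := Nat.lt_floor_add_one _
    rw [hxy] at e1 e2
    have e5 : |(R : ℝ) * (Int.fract u - Int.fract v)| < 1 := by
      rw [abs_lt]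
      constructor <;> linarith
    have hxy4 : ((x.1 : ℝ) * y.1) ≤ R := by
      have h5 : x.1 * y.1 ≤ 2 ^ (i + 1) * 2 ^ (i + 1) := Nat.mul_le_mul x4.le y4.le
      have h6 : 2 ^ (i + 1) * 2 ^ (i + 1) = R := by
        rw [hR, ← mul_pow]
        norm_num
      rw [h6] at h5
      exact_mod_cast h5
    set m : ℤ := ⌊u⌋ - ⌊v⌋ with hm
    have e6 : Int.fract u - Int.fract v = (x.2 : ℝ) / x.1 - (y.2 : ℝ) / y.1 - m := by
      rw [hm]
      unfold Int.fract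
      push_cast
      rw [hu, hv]
      ring
    have e7 : ((x.1 : ℝ) * y.1) * (Int.fract u - Int.fract v) =
        (((x.2 : ℤ) * y.1 - (y.2 : ℤ) * x.1 - m * x.1 * y.1 : ℤ) : ℝ) := by
      rw [e6]
      push_cast
      field_simp
    have e8 : |(((x.2 : ℤ) * y.1 - (y.2 : ℤ) * x.1 - m * x.1 * y.1 : ℤ) : ℝ)| < 1 := by
      rw [← e7, abs_mul, abs_of_pos (mul_pos hxp hyp)]
      rw [abs_mul, abs_of_pos hR0] at e5
      refine lt_of_le_of_lt ?_ e5
      exact mul_le_mul_of_nonneg_right hxy4 (abs_nonneg _)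
    have e9 : (x.2 : ℤ) * y.1 - (y.2 : ℤ) * x.1 - m * x.1 * y.1 = 0 := by
      have : |((x.2 : ℤ) * y.1 - (y.2 : ℤ) * x.1 - m * x.1 * y.1)| < 1 := by exact_mod_cast e8
      exact Int.abs_lt_one_iff.1 this
    -- the integer `m` vanishes
    have hxp' : (0 : ℤ) < x.1 := by exact_mod_cast (by omega : 0 < x.1)
    have hyp' : (0 : ℤ) < y.1 := by exact_mod_cast (by omega : 0 < y.1)
    have f1 : (x.2 : ℤ) < x.1 := by exact_mod_cast x6
    have f2 : (y.2 : ℤ) < y.1 := by exact_mod_cast y6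
    have f3 : (0 : ℤ) ≤ x.2 := by positivity
    have f4 : (0 : ℤ) ≤ y.2 := by positivity
    have g1 : (x.2 : ℤ) * y.1 < x.1 * y.1 := mul_lt_mul_of_pos_right f1 hyp'
    have g2 : (y.2 : ℤ) * x.1 < y.1 * x.1 := mul_lt_mul_of_pos_right f2 hxp'
    have g3 : 0 ≤ (x.2 : ℤ) * y.1 := mul_nonneg f3 hyp'.le
    have g4 : 0 ≤ (y.2 : ℤ) * x.1 := mul_nonneg f4 hxp'.le
    have hm0 : m = 0 := by
      have hp : (0 : ℤ) < x.1 * y.1 := mul_pos hxp' hyp'
      by_contra hne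
      rcases lt_or_gt_of_ne hne with h | h
      · have : m ≤ -1 := by omega
        nlinarith
      · have : 1 ≤ m := by omega
        nlinarith
    rw [hm0] at e9
    have e10 : x.2 * y.1 = y.2 * x.1 := by
      have : (x.2 : ℤ) * y.1 = (y.2 : ℤ) * x.1 := by linarith
      exact_mod_cast this
    have d1 : x.1 ∣ y.1 := by
      have : x.1 ∣ x.2 * y.1 := by rw [e10]; exact Dvd.intro_left _ rfl
      exact (Nat.Coprime.dvd_of_dvd_mul_left (Nat.coprime_comm.1 x7) this)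
    have d2 : y.1 ∣ x.1 := by
      have : y.1 ∣ y.2 * x.1 := by rw [← e10]; exact Dvd.intro_left _ rfl
      exact (Nat.Coprime.dvd_of_dvd_mul_left (Nat.coprime_comm.1 y7) this)
    have d3 : x.1 = y.1 := Nat.dvd_antisymm d1 d2
    have d4 : x.2 = y.2 := by
      rw [d3] at e10
      exact Nat.eq_of_mul_eq_mul_right (by omega) e10
    exact Sigma.ext d3 (heq_of_eq d4)
  have hmap : ∀ x ∈ FB Q D i, φ x ∈ range R := by
    intro x _
    rw [mem_range]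
    have e1 : ((φ x : ℕ) : ℝ) ≤ R * Int.fract ((x.2 : ℝ) / x.1 + (r : ℝ) / Q) :=
      Nat.floor_le (mul_nonneg hR0.le (Int.fract_nonneg _))
    have e2 := Int.fract_lt_one ((x.2 : ℝ) / x.1 + (r : ℝ) / Q)
    have e3 : ((φ x : ℕ) : ℝ) < R := lt_of_le_of_lt e1 (by nlinarith)
    exact_mod_cast e3
  refine h1.trans ?_
  rw [← sum_image (f := fun k => hc M R k) hinj]
  calc ∑ k ∈ (FB Q D i).image φ, hc M R k ≤ ∑ k ∈ range R, hc M R k := by
        apply sum_le_sum_of_subset_of_nonneg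
        · intro k hk
          rw [mem_image] at hk
          obtain ⟨x, hx, rfl⟩ := hk
          exact hmap x hx
        · intro k hk _
          exact hc_nonneg M R k (mem_range.1 hk)
    _ ≤ 2 * M + R * (1 + Real.log R) := hc_sum M R hR2
    _ = _ := by
        rw [hR]
        push_cast
        rfl

/-- one denominator, all residue classes of frequencies -/
theorem col1 (N M Q f : ℕ) (hQ : 0 < Q) (hf : 2 ≤ f) (hfQ : f.Coprime Q) :
    ∑ b ∈ (range f).filter (fun b => b.Coprime f), ∑ r ∈ range Q,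
      ‖KI N M ((b : ℝ) / f + (r : ℝ) / Q)‖ ≤ f * Q * (1 + Real.log (f * Q)) := by
  classical
  set R : ℕ := f * Q with hR
  have hR0 : 0 < R := Nat.mul_pos (by omega) hQ
  have hRr : (0 : ℝ) < R := by exact_mod_cast hR0
  have hf0 : (0 : ℝ) < f := by exact_mod_cast (by omega : 0 < f)
  have hQ0 : (0 : ℝ) < Q := by exact_mod_cast hQ
  set S : Finset (ℕ × ℕ) := ((range f).filter (fun b => b.Coprime f)) ×ˢ range Q with hS
  set φ : ℕ × ℕ → ℕ := fun x => (x.1 * Q + x.2 * f) % R with hφ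
  set h2 : ℕ → ℝ := fun k => (R : ℝ) / (2 * k) + R / (2 * ((R - k : ℕ) : ℝ)) with hh2
  have hne : ∀ x ∈ S, 1 ≤ φ x ∧ φ x < R := by
    intro x hx
    rw [hS, mem_product, mem_filter, mem_range, mem_range] at hx
    refine ⟨?_, Nat.mod_lt _ hR0⟩
    rw [Nat.one_le_iff_ne_zero]
    intro h0
    have h3 : R ∣ x.1 * Q + x.2 * f := Nat.dvd_of_mod_eq_zero h0
    have h4 : f ∣ x.1 * Q + x.2 * f := (Dvd.intro _ rfl : f ∣ R).trans h3
    have h5 : f ∣ x.1 * Q := (Nat.dvd_add_left (Dvd.intro_left _ rfl)).1 h4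
    have h6 : f ∣ x.1 := Nat.Coprime.dvd_of_dvd_mul_right hfQ h5
    have h7 := Nat.eq_one_of_dvd_coprimes hx.1.2 h6 dvd_rfl
    omega
  have hinj : Set.InjOn φ S := by
    intro x hx y hy hxy
    rw [mem_coe, hS, mem_product, mem_filter, mem_range, mem_range] at hx hy
    have h3 : x.1 * Q + x.2 * f ≡ y.1 * Q + y.2 * f [MOD f * Q] := hxy
    have h4 : x.1 * Q ≡ y.1 * Q [MOD f] := by
      have h5 := h3.of_mul_right Q
      have h6 : x.1 * Q + x.2 * f ≡ x.1 * Q [MOD f] := by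
        unfold Nat.ModEq
        rw [Nat.add_mul_mod_self_right]
      have h7 : y.1 * Q + y.2 * f ≡ y.1 * Q [MOD f] := by
        unfold Nat.ModEq
        rw [Nat.add_mul_mod_self_right]
      exact (h6.symm.trans h5).trans h7
    have h5 : x.1 = y.1 := by
      have h6 : x.1 ≡ y.1 [MOD f] := Nat.ModEq.cancel_right_of_coprime hfQ h4
      exact Nat.ModEq.eq_of_lt_of_lt h6 hx.1.1 hy.1.1
    have h6 : x.2 = y.2 := by
      have h7 : x.2 * f ≡ y.2 * f [MOD Q] := by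
        have h8 := h3.of_mul_left f
        rw [h5] at h8
        exact Nat.ModEq.add_left_cancel' _ h8
      have h8 : x.2 ≡ y.2 [MOD Q] :=
        Nat.ModEq.cancel_right_of_coprime (Nat.coprime_comm.1 hfQ) h7
      exact Nat.ModEq.eq_of_lt_of_lt h8 hx.2 hy.2
    exact Prod.ext h5 h6
  have hb : ∀ x ∈ S, ‖KI N M ((x.1 : ℝ) / f + (x.2 : ℝ) / Q)‖ ≤ h2 (φ x) := by
    intro x hx
    obtain ⟨k1, k2⟩ := hne x hx
    have e1 : (x.1 : ℝ) / f + (x.2 : ℝ) / Q = ((x.1 * Q + x.2 * f : ℕ) : ℝ) / R := by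
      rw [hR]
      push_cast
      field_simp
    have e2 : ((x.1 * Q + x.2 * f : ℕ) : ℝ) = (φ x : ℝ) + R * (((x.1 * Q + x.2 * f) / R : ℕ) : ℝ) := by
      have := Nat.mod_add_div (x.1 * Q + x.2 * f) R
      exact_mod_cast this.symm
    have e3 : (x.1 : ℝ) / f + (x.2 : ℝ) / Q =
        (φ x : ℝ) / R + ((((x.1 * Q + x.2 * f) / R : ℕ) : ℤ) : ℝ) := by
      rw [e1, e2, Int.cast_natCast]
      field_simp
    have k1r : (1 : ℝ) ≤ φ x := by exact_mod_cast k1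
    have k2r : ((φ x : ℕ) : ℝ) < R := by exact_mod_cast k2
    have e4 : Int.fract ((x.1 : ℝ) / f + (x.2 : ℝ) / Q) = (φ x : ℝ) / R := by
      rw [e3, Int.fract_add_intCast, Int.fract_eq_self]
      refine ⟨by positivity, ?_⟩
      rw [div_lt_one hRr]
      exact k2r
    have e5 : 0 < Int.fract ((x.1 : ℝ) / f + (x.2 : ℝ) / Q) := by
      rw [e4]
      positivity
    refine (KI_fract N M _ e5).trans (le_of_eq ?_)
    rw [e4, hh2]
    have e6 : ((R - φ x : ℕ) : ℝ) = R - φ x := by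
      rw [Nat.cast_sub k2.le]
    have e7 : (R : ℝ) - φ x ≠ 0 := by linarith
    have e8 : (φ x : ℝ) ≠ 0 := by linarith
    simp only [e6]
    have e9 : (1 : ℝ) - (φ x : ℝ) / R = (R - φ x) / R := by
      field_simp
    rw [e9]
    congr 1
    · field_simp
    · field_simp
  have hR1 : ∑ k ∈ Icc 1 (R - 1), h2 k ≤ R * (1 + Real.log R) := by
    rw [hh2, sum_add_distrib]
    have a1 : ∑ k ∈ Icc 1 (R - 1), (R : ℝ) / (2 * k) ≤ R / 2 * (1 + Real.log R) := by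
      calc ∑ k ∈ Icc 1 (R - 1), (R : ℝ) / (2 * k) ≤ ∑ k ∈ Icc 1 R, (R : ℝ) / (2 * k) := by
            apply sum_le_sum_of_subset_of_nonneg
            · intro k hk
              rw [mem_Icc] at hk ⊢
              omega
            · intro k _ _
              positivity
        _ = R / 2 * ∑ k ∈ Icc 1 R, 1 / (k : ℝ) := by
            rw [mul_sum]
            apply sum_congr rfl
            intro k hk
            have : (k : ℝ) ≠ 0 := by
              have := (mem_Icc.1 hk).1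
              exact_mod_cast (by omega : k ≠ 0)
            field_simp
        _ ≤ _ := mul_le_mul_of_nonneg_left (harm' R) (by positivity)
    have a2 : ∑ k ∈ Icc 1 (R - 1), (R : ℝ) / (2 * ((R - k : ℕ) : ℝ)) =
        ∑ k ∈ Icc 1 (R - 1), (R : ℝ) / (2 * (k : ℝ)) := by
      apply sum_bij' (i := fun k _ => R - k) (j := fun k _ => R - k)
      · intro k hk; rw [mem_Icc] at hk ⊢; omega
      · intro k hk; rw [mem_Icc] at hk ⊢; omega
      · intro k hk; rw [mem_Icc] at hk; show R - (R - k) = k; omega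
      · intro k hk; rw [mem_Icc] at hk; show R - (R - k) = k; omega
      · intro k _; rfl
    rw [a2]
    linarith
  calc ∑ b ∈ (range f).filter (fun b => b.Coprime f), ∑ r ∈ range Q,
      ‖KI N M ((b : ℝ) / f + (r : ℝ) / Q)‖ = ∑ x ∈ S, ‖KI N M ((x.1 : ℝ) / f + (x.2 : ℝ) / Q)‖ := by
        rw [hS, sum_product]
    _ ≤ ∑ x ∈ S, h2 (φ x) := sum_le_sum hb
    _ = ∑ k ∈ S.image φ, h2 k := (sum_image (f := h2) hinj).symm
    _ ≤ ∑ k ∈ Icc 1 (R - 1), h2 k := by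
        apply sum_le_sum_of_subset_of_nonneg
        · intro k hk
          rw [mem_image] at hk
          obtain ⟨x, hx, rfl⟩ := hk
          obtain ⟨k1, k2⟩ := hne x hx
          rw [mem_Icc]
          omega
        · intro k _ _
          rw [hh2]
          positivity
    _ ≤ R * (1 + Real.log R) := hR1
    _ = _ := by
        rw [hR]
        push_cast
        rfl

end Pool.Agent.L7h27.AP
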