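import Pool.Agent.L7h27.AP.Var

/-! Values of polynomials in an interval: mean square of the error terms over the residue classes
modulo an arbitrary number, assembly. -/

set_option autoImplicit false

namespace Pool.Agent.L7h27.AP

open Finset Polynomial
open H343 (ex)
open Pool.Agent.Y882.PX
open Pool.Agent.Y882.SI

theorem colA (N M Q D i : ℕ) (hQ : 0 < Q) :
    ∑ r ∈ range Q, ∑ x ∈ FB Q D i, ‖KI N M ((x.2 : ℝ) / x.1 + (r : ℝ) / Q)‖ ≤
      2 ^ i * (2 ^ (i + 1) * Q * (1 + Real.log (D * Q))) := by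
  classical
  have hQ0 : (1 : ℝ) ≤ Q := by exact_mod_cast hQ
  rw [sum_comm]
  unfold FB
  rw [sum_sigma]
  have h1 : ∀ f ∈ (Icc 2 D).filter (fun f => Nat.log 2 f = i ∧ f.Coprime Q),
      ∑ b ∈ (range f).filter (fun b => b.Coprime f), ∑ r ∈ range Q,
      ‖KI N M ((b : ℝ) / f + (r : ℝ) / Q)‖ ≤ 2 ^ (i + 1) * Q * (1 + Real.log (D * Q)) := by
    intro f hf
    rw [mem_filter, mem_Icc] at hf
    obtain ⟨⟨f1, f2⟩, f3, f4⟩ := hf
    refine (col1 N M Q f hQ f1 f4).trans ?_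
    have g1 : (f : ℝ) ≤ 2 ^ (i + 1) := by
      have : f < 2 ^ (i + 1) := by
        rw [← f3]
        exact Nat.lt_pow_succ_log_self (by norm_num) _
      exact_mod_cast this.le
    have g2 : (f : ℝ) ≤ D := by exact_mod_cast f2
    have g3 : (2 : ℝ) ≤ f := by exact_mod_cast f1
    have g4 : (1 : ℝ) ≤ f * Q := by nlinarith
    have g5 : Real.log (f * Q) ≤ Real.log (D * Q) := by
      apply Real.log_le_log (by linarith)
      exact mul_le_mul_of_nonneg_right g2 (by linarith)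
    have g6 := Real.log_nonneg g4
    apply mul_le_mul _ (by linarith) (by linarith) (by positivity)
    exact mul_le_mul_of_nonneg_right g1 (by linarith)
  refine (sum_le_sum h1).trans ?_
  rw [sum_const, nsmul_eq_mul]
  have h2 : ((Icc 2 D).filter (fun f => Nat.log 2 f = i ∧ f.Coprime Q)).card ≤ 2 ^ i := by
    calc ((Icc 2 D).filter (fun f => Nat.log 2 f = i ∧ f.Coprime Q)).card ≤
        (Ico (2 ^ i) (2 ^ (i + 1))).card := by
          apply card_le_card
          intro f hf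
          rw [mem_filter, mem_Icc] at hf
          rw [mem_Ico, ← hf.2.1]
          exact ⟨Nat.pow_log_le_self 2 (by omega), Nat.lt_pow_succ_log_self (by norm_num) _⟩
      _ = 2 ^ i := by
          rw [Nat.card_Ico, pow_succ]
          omega
  rcases Nat.eq_zero_or_pos D with hD | hD
  · subst hD
    have : (Icc 2 0).filter (fun f => Nat.log 2 f = i ∧ f.Coprime Q) = ∅ := by simp
    rw [this]
    simp only [card_empty, Nat.cast_zero, zero_mul, Real.log_zero, add_zero, mul_one]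
    positivity
  have hD1 : (1 : ℝ) ≤ D := by exact_mod_cast hD
  have g7 : 0 ≤ Real.log (D * Q) := Real.log_nonneg (by nlinarith)
  apply mul_le_mul_of_nonneg_right _ (by positivity)
  exact_mod_cast h2

theorem Tr_le (F : ℤ[X]) (P : Finset ℕ) (hP : ∀ p ∈ P, p.Prime) (c : Finset ℕ → ℝ) (L : ℝ)
    (hL : ∀ T, |c T| ≤ L) (D : ℕ) (B : ℝ) (hB0 : 0 ≤ B)
    (hB : ∀ T ⊆ P, ∏ p ∈ T, p ≤ D → (ro F 0 (∏ p ∈ T, p) : ℝ) ≤ B)
    (hc : ∀ T ⊆ P, c T ≠ 0 → ∏ p ∈ T, p ≤ D) (N M Q : ℕ) (hPQ : ∀ p ∈ P, ¬ p ∣ Q) (r : ℕ) :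
    ‖∑ n ∈ Ioc N (N + M), ex ((n : ℝ) * ((r : ℝ) / Q)) * ((EW F P c n : ℝ) : ℂ)‖ ≤
      ∑ i ∈ range (Nat.log 2 D + 1), L * B * (1 + Real.log D) / 2 ^ i *
        ∑ x ∈ FB Q D i, ‖KI N M ((x.2 : ℝ) / x.1 + (r : ℝ) / Q)‖ := by
  classical
  have hL0 : 0 ≤ L := (abs_nonneg _).trans (hL ∅)
  have hlD : 0 ≤ Real.log D := Real.log_natCast_nonneg D
  set W : ℝ := L * B * (1 + Real.log D) with hW
  have hW0 : 0 ≤ W := by positivity
  have h1 : ∑ n ∈ Ioc N (N + M), ex ((n : ℝ) * ((r : ℝ) / Q)) * ((EW F P c n : ℝ) : ℂ) =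
      ∑ f ∈ Icc 1 D, ∑ b ∈ (range f).filter (fun b => b.Coprime f),
        GP F P c D f b * KI N M ((b : ℝ) / f + (r : ℝ) / Q) := by
    have h2 : ∀ n ∈ Ioc N (N + M), ex ((n : ℝ) * ((r : ℝ) / Q)) * ((EW F P c n : ℝ) : ℂ) =
        ∑ f ∈ Icc 1 D, ∑ b ∈ (range f).filter (fun b => b.Coprime f),
          GP F P c D f b * ex ((n : ℝ) * ((b : ℝ) / f + (r : ℝ) / Q)) := by
      intro n hn
      rw [mem_Ioc] at hn
      rw [key F P hP c D hc n (by omega), mul_sum]
      apply sum_congr rfl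
      intro f _
      rw [mul_sum]
      apply sum_congr rfl
      intro b _
      have : ex ((n : ℝ) * ((b : ℝ) / f + (r : ℝ) / Q)) =
          ex ((n : ℝ) * ((b : ℝ) / f)) * ex ((n : ℝ) * ((r : ℝ) / Q)) := by
        rw [← H343.Gauss.ex_add]
        congr 1
        ring
      rw [this]
      ring
    rw [sum_congr rfl h2, sum_comm]
    apply sum_congr rfl
    intro f _
    rw [sum_comm]
    apply sum_congr rfl
    intro b _
    unfold KI
    rw [mul_sum]
  rw [h1]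
  have h3 : ∑ f ∈ Icc 1 D, ∑ b ∈ (range f).filter (fun b => b.Coprime f),
        GP F P c D f b * KI N M ((b : ℝ) / f + (r : ℝ) / Q) =
      ∑ f ∈ (Icc 2 D).filter (fun f => f.Coprime Q), ∑ b ∈ (range f).filter (fun b => b.Coprime f),
        GP F P c D f b * KI N M ((b : ℝ) / f + (r : ℝ) / Q) := by
    symm
    apply sum_subset
    · intro f hf
      rw [mem_filter, mem_Icc] at hf
      rw [mem_Icc]
      omega
    · intro f hf hf'
      apply sum_eq_zero
      intro b hb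
      rw [mem_Icc] at hf
      rw [mem_filter, mem_range] at hb
      rw [mem_filter, mem_Icc] at hf'
      by_cases h : f = 1
      · have : b = 0 := by omega
        rw [this, GP_zero, zero_mul]
      · rw [GP_ncop F P hP c D Q f b hPQ (fun h2 => hf' ⟨by omega, h2⟩), zero_mul]
  rw [h3]
  have h4 : ∑ f ∈ (Icc 2 D).filter (fun f => f.Coprime Q), ∑ b ∈ (range f).filter (fun b => b.Coprime f),
        GP F P c D f b * KI N M ((b : ℝ) / f + (r : ℝ) / Q) =
      ∑ i ∈ range (Nat.log 2 D + 1), ∑ f ∈ ((Icc 2 D).filter (fun f => f.Coprime Q)).filter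
        (fun f => Nat.log 2 f = i), ∑ b ∈ (range f).filter (fun b => b.Coprime f),
        GP F P c D f b * KI N M ((b : ℝ) / f + (r : ℝ) / Q) := by
    symm
    apply sum_fiberwise_of_maps_to
    intro f hf
    rw [mem_filter, mem_Icc] at hf
    rw [mem_range]
    have := Nat.log_mono_right (b := 2) hf.1.2
    omega
  rw [h4]
  refine (norm_sum_le _ _).trans ?_
  apply sum_le_sum
  intro i _
  have h5 : ((Icc 2 D).filter (fun f => f.Coprime Q)).filter (fun f => Nat.log 2 f = i) =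
      (Icc 2 D).filter (fun f => Nat.log 2 f = i ∧ f.Coprime Q) := by
    ext f
    simp only [mem_filter]
    tauto
  rw [h5, ← sum_sigma (f := fun x : (_ : ℕ) × ℕ => GP F P c D x.1 x.2 *
    KI N M ((x.2 : ℝ) / x.1 + (r : ℝ) / Q))]
  change ‖∑ x ∈ FB Q D i, GP F P c D x.1 x.2 * KI N M ((x.2 : ℝ) / x.1 + (r : ℝ) / Q)‖ ≤ _
  refine (norm_sum_le _ _).trans ?_
  rw [mul_sum]
  apply sum_le_sum
  intro x hx
  obtain ⟨x1, x2, x3, x4, x5, x6, x7⟩ := FB_mem Q D i x hx
  rw [norm_mul]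
  apply mul_le_mul_of_nonneg_right _ (norm_nonneg _)
  refine (GP_le F P hP c L hL D B hB0 hB x.1 x.2 (by omega)).trans ?_
  apply div_le_div_of_nonneg_left hW0 (by positivity)
  exact_mod_cast x3

/-- **Mean square of the error terms over the residue classes.** -/
theorem var_cls (F : ℤ[X]) (P : Finset ℕ) (hP : ∀ p ∈ P, p.Prime) (c : Finset ℕ → ℝ) (L : ℝ)
    (hL : ∀ T, |c T| ≤ L) (D : ℕ) (hD : 1 ≤ D) (B : ℝ) (hB0 : 0 ≤ B)
    (hB : ∀ T ⊆ P, ∏ p ∈ T, p ≤ D → (ro F 0 (∏ p ∈ T, p) : ℝ) ≤ B)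
    (hc : ∀ T ⊆ P, c T ≠ 0 → ∏ p ∈ T, p ≤ D) (N M Q : ℕ) (hQ : 0 < Q) (hPQ : ∀ p ∈ P, ¬ p ∣ Q) :
    ∑ a ∈ range Q, (∑ n ∈ (Ioc N (N + M)).filter (fun n => n % Q = a), EW F P c n) ^ 2 ≤
      32 * (L * B) ^ 2 * (1 + Real.log (4 * D ^ 2 * Q)) ^ 6 * (M + (D : ℝ) ^ 2) := by
  classical
  have hL0 : 0 ≤ L := (abs_nonneg _).trans (hL ∅)
  have hD1 : (1 : ℝ) ≤ D := by exact_mod_cast hD
  have hQ1 : (1 : ℝ) ≤ Q := by exact_mod_cast hQ
  have hQ0 : (0 : ℝ) < Q := by linarith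
  have hlD : 0 ≤ Real.log D := Real.log_nonneg hD1
  set W : ℝ := L * B * (1 + Real.log D) with hW
  have hW0 : 0 ≤ W := by positivity
  set J := Nat.log 2 D + 1 with hJ
  set A : ℕ → ℕ → ℝ := fun i r => ∑ x ∈ FB Q D i, ‖KI N M ((x.2 : ℝ) / x.1 + (r : ℝ) / Q)‖ with hA
  have hA0 : ∀ i r, 0 ≤ A i r := fun i r => sum_nonneg fun _ _ => norm_nonneg _
  set Gc : ℕ → ℂ := fun a => ((∑ n ∈ (Ioc N (N + M)).filter (fun n => n % Q = a), EW F P c n : ℝ) : ℂ)
    with hGc
  set Λ : ℝ := 1 + Real.log (4 * D ^ 2 * Q) with hΛ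
  have hΛ0 : Real.log (4 * D ^ 2 * Q) = Real.log 4 + 2 * Real.log D + Real.log Q := by
    rw [Real.log_mul (by positivity) (by positivity), Real.log_mul (by norm_num) (by positivity),
      Real.log_pow]
    push_cast
    ring
  have hl4 : 0 ≤ Real.log 4 := Real.log_nonneg (by norm_num)
  have hlQ : 0 ≤ Real.log Q := Real.log_nonneg hQ1
  have hΛ1 : 1 ≤ Λ := by rw [hΛ, hΛ0]; linarith
  -- Parseval
  have hpar := parseval' Q hQ Gc
  have e1 : ∀ k ∈ range Q, ∑ b ∈ range Q, ex ((b : ℝ) * (k : ℤ) / Q) * Gc b =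
      ∑ n ∈ Ioc N (N + M), ex ((n : ℝ) * ((k : ℝ) / Q)) * ((EW F P c n : ℝ) : ℂ) := by
    intro k _
    have h1 : ∀ b ∈ range Q, ex ((b : ℝ) * (k : ℤ) / Q) * Gc b =
        ∑ n ∈ (Ioc N (N + M)).filter (fun n => n % Q = b),
          ex ((n : ℝ) * ((k : ℝ) / Q)) * ((EW F P c n : ℝ) : ℂ) := by
      intro b _
      simp only [hGc]
      rw [Complex.ofReal_sum, mul_sum]
      apply sum_congr rfl
      intro n hn
      rw [mem_filter] at hn
      congr 1
      have h2 := ex_congr Q hQ ((b : ℤ) * k) ((n : ℤ) * k) (by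
        have h3 : (n : ℤ) = b + Q * ((n / Q : ℕ) : ℤ) := by
          have := Nat.mod_add_div n Q
          rw [hn.2] at this
          exact_mod_cast this.symm
        rw [h3]
        exact ⟨-(((n / Q : ℕ) : ℤ) * k), by ring⟩)
      have h4 : ((b : ℝ) * (k : ℤ) / Q) = (((b : ℤ) * k : ℤ) : ℝ) / Q := by push_cast; ring
      have h5 : ((n : ℝ) * ((k : ℝ) / Q)) = (((n : ℤ) * k : ℤ) : ℝ) / Q := by push_cast; ring
      rw [h4, h5]
      exact h2
    rw [sum_congr rfl h1]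
    apply sum_fiberwise_of_maps_to
    intro n _
    rw [mem_range]
    exact Nat.mod_lt _ hQ
  have e2 : ∑ a ∈ range Q, (∑ n ∈ (Ioc N (N + M)).filter (fun n => n % Q = a), EW F P c n) ^ 2 =
      ∑ b ∈ range Q, ‖Gc b‖ ^ 2 := by
    apply sum_congr rfl
    intro a _
    simp only [hGc]
    rw [Complex.norm_real, Real.norm_eq_abs, sq_abs]
  -- one frequency
  have e3 : ∀ k ∈ range Q, ‖∑ b ∈ range Q, ex ((b : ℝ) * (k : ℤ) / Q) * Gc b‖ ^ 2 ≤
      J * ∑ i ∈ range J, (W / 2 ^ i) ^ 2 * (A i k) ^ 2 := by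
    intro k hk
    rw [e1 k hk]
    have h1 := Tr_le F P hP c L hL D B hB0 hB hc N M Q hPQ k
    calc ‖∑ n ∈ Ioc N (N + M), ex ((n : ℝ) * ((k : ℝ) / Q)) * ((EW F P c n : ℝ) : ℂ)‖ ^ 2 ≤
        (∑ i ∈ range J, W / 2 ^ i * A i k) ^ 2 := pow_le_pow_left₀ (norm_nonneg _) h1 2
      _ ≤ (range J).card * ∑ i ∈ range J, (W / 2 ^ i * A i k) ^ 2 := sq_sum_le_card_mul_sum_sq
      _ = _ := by
          rw [card_range]
          congr 1
          apply sum_congr rfl
          intro i _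
          ring
  -- sum over the frequencies, one block
  have e4 : ∀ i ∈ range J, ∑ k ∈ range Q, (A i k) ^ 2 ≤
      (4 * Λ * (M + (D : ℝ) ^ 2)) * (2 * 4 ^ i * Q * Λ) := by
    intro i hi
    rw [mem_range, hJ] at hi
    have h4i : (4 : ℝ) ^ (i + 1) ≤ 4 * (D : ℝ) ^ 2 := by
      have h1 : 2 ^ i ≤ D := (Nat.pow_le_pow_right (by norm_num) (by omega)).trans
        (Nat.pow_log_le_self 2 (by omega))
      have h2 : (2 : ℝ) ^ i ≤ D := by exact_mod_cast h1
      have h3 : ((2 : ℝ) ^ i) ^ 2 ≤ (D : ℝ) ^ 2 := pow_le_pow_left₀ (by positivity) h2 2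
      have h4 : (4 : ℝ) ^ (i + 1) = 4 * ((2 : ℝ) ^ i) ^ 2 := by
        rw [pow_succ, ← pow_mul, mul_comm i 2, pow_mul]
        norm_num
        ring
      rw [h4]
      linarith
    have hrow : ∀ k, A i k ≤ 4 * Λ * (M + (D : ℝ) ^ 2) := by
      intro k
      refine (row N M Q D i k).trans ?_
      have h1 : Real.log (4 ^ (i + 1)) ≤ Real.log 4 + 2 * Real.log D := by
        have h7 := Real.log_le_log (by positivity) h4i
        have h8 : Real.log ((D : ℝ) ^ 2) = 2 * Real.log D := by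
          rw [Real.log_pow]
          push_cast
          ring
        rw [Real.log_mul (by norm_num) (by positivity), h8] at h7
        exact h7
      have h2 : 1 + Real.log (4 ^ (i + 1)) ≤ Λ := by rw [hΛ, hΛ0]; linarith
      have h3 : (0 : ℝ) ≤ 1 + Real.log (4 ^ (i + 1)) := by
        have : 0 ≤ Real.log ((4 : ℝ) ^ (i + 1)) := Real.log_nonneg (one_le_pow₀ (by norm_num))
        linarith
      have hM0 : (0 : ℝ) ≤ M := Nat.cast_nonneg _
      calc 2 * (M : ℝ) + 4 ^ (i + 1) * (1 + Real.log (4 ^ (i + 1))) ≤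
          2 * M * Λ + 4 * (D : ℝ) ^ 2 * Λ := by
            apply add_le_add
            · nlinarith
            · exact mul_le_mul h4i h2 h3 (by positivity)
        _ ≤ _ := by
            have : 0 ≤ Λ * M := by positivity
            nlinarith
    calc ∑ k ∈ range Q, (A i k) ^ 2 ≤ ∑ k ∈ range Q, (4 * Λ * (M + (D : ℝ) ^ 2)) * A i k := by
          apply sum_le_sum
          intro k _
          rw [sq]
          exact mul_le_mul_of_nonneg_right (hrow k) (hA0 i k)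
      _ = (4 * Λ * (M + (D : ℝ) ^ 2)) * ∑ k ∈ range Q, A i k := by rw [mul_sum]
      _ ≤ _ := by
          apply mul_le_mul_of_nonneg_left _ (by positivity)
          refine (colA N M Q D i hQ).trans ?_
          have h5 : 1 + Real.log (D * Q) ≤ Λ := by
            rw [Real.log_mul (by positivity) (by positivity), hΛ, hΛ0]
            linarith
          have h6 : (2 : ℝ) ^ i * (2 ^ (i + 1) * Q * (1 + Real.log (D * Q))) =
              2 * 4 ^ i * Q * (1 + Real.log (D * Q)) := by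
            have : (4 : ℝ) ^ i = 2 ^ i * 2 ^ i := by
              rw [← mul_pow]
              norm_num
            rw [this, pow_succ]
            ring
          rw [h6]
          exact mul_le_mul_of_nonneg_left h5 (by positivity)
  have hJr : (J : ℝ) ≤ 2 * (1 + Real.log D) := by
    have h1 : 2 ^ Nat.log 2 D ≤ D := Nat.pow_log_le_self 2 (by omega)
    have h2 : ((2 : ℝ)) ^ Nat.log 2 D ≤ D := by exact_mod_cast h1
    have h3 := Real.log_le_log (by positivity) h2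
    rw [Real.log_pow] at h3
    have h4 : (1 / 2 : ℝ) ≤ Real.log 2 := by
      have := Real.log_two_gt_d9
      linarith
    have h5 : (0 : ℝ) ≤ (Nat.log 2 D : ℕ) := Nat.cast_nonneg _
    rw [hJ]
    push_cast
    nlinarith
  have hJΛ : (J : ℝ) ≤ 2 * Λ := by
    refine hJr.trans ?_
    rw [hΛ, hΛ0]
    linarith
  have hWΛ : W ≤ L * B * Λ := by
    rw [hW]
    apply mul_le_mul_of_nonneg_left _ (mul_nonneg hL0 hB0)
    rw [hΛ, hΛ0]
    linarith
  have e5 : (Q : ℝ) * ∑ b ∈ range Q, ‖Gc b‖ ^ 2 ≤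
      Q * (32 * (L * B) ^ 2 * Λ ^ 6 * (M + (D : ℝ) ^ 2)) := by
    rw [← hpar]
    calc ∑ k ∈ range Q, ‖∑ b ∈ range Q, ex ((b : ℝ) * (k : ℤ) / Q) * Gc b‖ ^ 2 ≤
        ∑ k ∈ range Q, (J : ℝ) * ∑ i ∈ range J, (W / 2 ^ i) ^ 2 * (A i k) ^ 2 := sum_le_sum e3
      _ = (J : ℝ) * ∑ i ∈ range J, (W / 2 ^ i) ^ 2 * ∑ k ∈ range Q, (A i k) ^ 2 := by
          rw [← mul_sum, sum_comm]
          congr 1
          apply sum_congr rfl
          intro i _
          rw [mul_sum]
      _ ≤ (J : ℝ) * ∑ i ∈ range J, (W / 2 ^ i) ^ 2 *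
          ((4 * Λ * (M + (D : ℝ) ^ 2)) * (2 * 4 ^ i * Q * Λ)) := by
          apply mul_le_mul_of_nonneg_left _ (Nat.cast_nonneg _)
          apply sum_le_sum
          intro i hi
          exact mul_le_mul_of_nonneg_left (e4 i hi) (by positivity)
      _ = (J : ℝ) * ∑ i ∈ range J, 8 * W ^ 2 * Λ ^ 2 * Q * (M + (D : ℝ) ^ 2) := by
          congr 1
          apply sum_congr rfl
          intro i _
          have : (4 : ℝ) ^ i = 2 ^ i * 2 ^ i := by
            rw [← mul_pow]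
            norm_num
          rw [this]
          field_simp
          ring
      _ = (J : ℝ) ^ 2 * (8 * W ^ 2 * Λ ^ 2 * Q * (M + (D : ℝ) ^ 2)) := by
          rw [sum_const, card_range, nsmul_eq_mul]
          ring
      _ ≤ (2 * Λ) ^ 2 * (8 * (L * B * Λ) ^ 2 * Λ ^ 2 * Q * (M + (D : ℝ) ^ 2)) := by
          gcongr
      _ = _ := by ring
  rw [e2]
  exact le_of_mul_le_mul_left e5 hQ0

end Pool.Agent.L7h27.AP
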